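import Mathlib

/-!
# MP_582a01_gt : a metric on the 2-torus with a cubic integral and without Killing fields

Common definitions.

* Lattice coordinates `(x₁,x₂)`, `x₃ = -x₁-x₂` on the hexagonal torus; the metric is
  `g = Lam * [[4/3,2/3],[2/3,4/3]]`, so that `2H = N(p)/Lam`, `N(p) = p₁²-p₁p₂+p₂²`.
* The cubic integral is `F = p₁²p₂-p₁p₂² + (N(p)/Lam)(A p₁ + B p₂)`.
* `IsSolAt Lam A B z` : the three equations `{F,H}=0` at the point `z`.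
-/

set_option autoImplicit false
open scoped ContDiff

namespace Cub

noncomputable section

/-- first state polynomial -/
def na (m n : ℝ) : ℝ :=
  1 + 6*m - 8*n + 12*m^2 - 3*m*n - 8*n^2 + 8*m^3 + 3*m^2*n - 12*m*n^2 + 8*m^3*n
    - 6*m^2*n^2 - m^3*n^2

/-- second state polynomial (symmetric) -/
def nc (m n : ℝ) : ℝ :=
  1 + 6*m + 6*n + 12*m^2 + 12*n^2 + 8*m^3 + 9*m^2*n + 9*m*n^2 + 8*n^3 + 12*m^3*n
    + 12*m*n^3 + 6*m^3*n^2 + 6*m^2*n^3 + m^3*n^3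

/-- the Riemann invariant (squared and normalised) -/
def U (m n : ℝ) : ℝ := (1 + n + n^2) * na m n ^ 2 / nc m n ^ 2

def S (m n : ℝ) : ℝ := 1 + 2*m + 2*n + m*n

def T (m n : ℝ) : ℝ := 1 + 2*n + 2*m*n + m*n^2

/-- conformal factor as a function of the two slopes -/
def LamH (m n : ℝ) : ℝ := (nc m n) ^ (-(2/3) : ℝ) * ((1 + m + m^2) * (1 + n + n^2)) / 3

def AH (m n : ℝ) : ℝ := -3 * LamH m n * (m * (1 + m + m*n)) / ((1 + m + m^2) * (1 + n + n^2))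

def BH (m n : ℝ) : ℝ := 3 * LamH m n * (n * (1 + n + m*n)) / ((1 + m + m^2) * (1 + n + n^2))

/-- the zeroth-order-normalised term of the equations -/
def kap (Lam A B : ℝ × ℝ → ℝ) (z : ℝ × ℝ) : ℝ :=
  (A z * fderiv ℝ Lam z (1,0) + B z * fderiv ℝ Lam z (0,1)) / Lam z

/-- the three equations expressing `{F,H} = 0` at the point `z` -/
def IsSolAt (Lam A B : ℝ × ℝ → ℝ) (z : ℝ × ℝ) : Prop :=
  fderiv ℝ Lam z (0,1) + 2 * fderiv ℝ A z (1,0) - fderiv ℝ A z (0,1) + kap Lam A B z = 0 ∧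
  - fderiv ℝ Lam z (1,0) - fderiv ℝ B z (1,0) + 2 * fderiv ℝ B z (0,1) + kap Lam A B z = 0 ∧
  2 * fderiv ℝ Lam z (1,0) - 2 * fderiv ℝ Lam z (0,1) - fderiv ℝ A z (1,0)
    + 2 * fderiv ℝ B z (1,0) + 2 * fderiv ℝ A z (0,1) - fderiv ℝ B z (0,1)
    - kap Lam A B z = 0

/-- The two crossing waves in characteristic coordinates `(a,b)`: `mu (a,b)` is the slope of the
first family of characteristics, `mu (b,a)` the slope of the second one. -/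
structure Waves (mu : ℝ × ℝ → ℝ) (c : ℝ → ℝ) : Prop where
  smooth : ContDiff ℝ ∞ mu
  zero : ∀ a b, (b ≤ 0 ∨ 1/20 ≤ b) → mu (a,b) = 0
  const : ∀ a b, (a ≤ 0 ∨ 1/20 ≤ a) → mu (a,b) = mu (0,b)
  bound : ∀ z, |mu z| ≤ 1/20
  dbound : ∀ z, |fderiv ℝ mu z (1,0)| ≤ 1/20
  inv : ∀ a b, U (mu (a,b)) (mu (b,a)) = c a
  nontriv : ∃ s, mu (0,s) ≠ 0

/-- The characteristic coordinates: `X` maps labels `(a,b)` to points of the plane, `Y` is its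
inverse, `P (a,b)` is the first component of `∂X/∂a`. -/
structure Chart (mu : ℝ × ℝ → ℝ) (X Y : ℝ × ℝ → ℝ × ℝ) (P : ℝ × ℝ → ℝ) : Prop where
  smoothX : ContDiff ℝ ∞ X
  smoothY : ContDiff ℝ ∞ Y
  XY : ∀ z, X (Y z) = z
  YX : ∀ z, Y (X z) = z
  da : ∀ a b, HasDerivAt (fun a => X (a,b)) (P (a,b), mu (b,a) * P (a,b)) a
  db : ∀ a b, HasDerivAt (fun b => X (a,b)) (mu (a,b) * P (b,a), P (b,a)) b
  Ppos : ∀ z, 7/8 ≤ P z
  symm : ∀ a b, X (b,a) = ((X (a,b)).2, (X (a,b)).1)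
  low : ∀ a b, b ≤ 0 → (X (a,b)).1 = a
  high : ∀ a b, 1/20 ≤ b → (X (a,b)).1 = (X (a,1/20)).1
  near : ∀ a b, |(X (a,b)).1 - a| ≤ 1/100

/-- A solution in the whole plane which consists of two crossing waves:
outside the square `|s|,|t| < 1/10` it is a one-dimensional wave or flat. -/
structure Crossing (Lam A B : ℝ × ℝ → ℝ) (Ro Ri : ℝ → ℝ) : Prop where
  smoothL : ContDiff ℝ ∞ Lam
  smoothA : ContDiff ℝ ∞ A
  smoothB : ContDiff ℝ ∞ B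
  pos : ∀ z, 0 < Lam z
  sol : ∀ z, IsSolAt Lam A B z
  smoothRi : ContDiff ℝ ∞ Ri
  ro0 : ∀ s, 1/10 ≤ |s| → Ro s = 0
  ri0 : ∀ s, 1/10 ≤ |s| → Ri s = 0
  top : ∀ s t, 1/10 ≤ t → Lam (s,t) = 1/3 + Ro s ∧ A (s,t) = 0 ∧ B (s,t) = - Ro s
  bot : ∀ s t, t ≤ -(1/10) → Lam (s,t) = 1/3 + Ri s ∧ A (s,t) = 0 ∧ B (s,t) = - Ri s
  right : ∀ s t, 1/10 ≤ s → Lam (s,t) = 1/3 + Ro t ∧ A (s,t) = Ro t ∧ B (s,t) = 0
  left : ∀ s t, s ≤ -(1/10) → Lam (s,t) = 1/3 + Ri t ∧ A (s,t) = Ri t ∧ B (s,t) = 0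
  nontriv : ∃ s, Ri s ≠ 0

/-- The doubly periodic solution. -/
structure Global (Lam A B : ℝ × ℝ → ℝ) : Prop where
  smoothL : ContDiff ℝ ∞ Lam
  smoothA : ContDiff ℝ ∞ A
  smoothB : ContDiff ℝ ∞ B
  pos : ∀ z, 0 < Lam z
  sol : ∀ z, IsSolAt Lam A B z
  per1 : ∀ x y, Lam (x+1,y) = Lam (x,y) ∧ A (x+1,y) = A (x,y) ∧ B (x+1,y) = B (x,y)
  per2 : ∀ x y, Lam (x,y+1) = Lam (x,y) ∧ A (x,y+1) = A (x,y) ∧ B (x,y+1) = B (x,y)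
  flat : ∃ z, A z = 0 ∧ B z = 0
  arms : ∃ R : ℝ → ℝ, ContDiff ℝ ∞ R ∧ (∃ s, R s ≠ 0) ∧ (∀ s, 1/10 ≤ |s| → R s = 0) ∧
    (∀ s t, |s| < 1/8 → |t| < 1/100 → Lam (1/6 + s, -1/12 + t) = 1/3 + R s) ∧
    (∀ s t, |s| < 1/8 → |t| < 1/100 → Lam (-1/12 + t, 1/6 + s) = 1/3 + R s)

/-- the metric in lattice coordinates -/
def gM (Lam : ℝ × ℝ → ℝ) (x : Fin 2 → ℝ) (i j : Fin 2) : ℝ :=
  Lam (x 0, x 1) * (if i = j then 4/3 else 2/3)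

/-- coefficients of the cubic integral -/
def cf (Lam A B : ℝ × ℝ → ℝ) (i j : ℕ) (x : Fin 2 → ℝ) : ℝ :=
  if i = 3 ∧ j = 0 then A (x 0, x 1) / Lam (x 0, x 1)
  else if i = 2 ∧ j = 1 then 1 + (B (x 0, x 1) - A (x 0, x 1)) / Lam (x 0, x 1)
  else if i = 1 ∧ j = 2 then -1 + (A (x 0, x 1) - B (x 0, x 1)) / Lam (x 0, x 1)
  else if i = 0 ∧ j = 3 then B (x 0, x 1) / Lam (x 0, x 1)
  else 0

/-- twice the energy, and the cubic integral -/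
def N2 (p : Fin 2 → ℝ) : ℝ := p 0 ^ 2 - p 0 * p 1 + p 1 ^ 2

def FM (Lam A B : ℝ × ℝ → ℝ) (x p : Fin 2 → ℝ) : ℝ :=
  p 0 ^ 2 * p 1 - p 0 * p 1 ^ 2
    + N2 p / Lam (x 0, x 1) * (A (x 0, x 1) * p 0 + B (x 0, x 1) * p 1)

end

end Cub
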