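import Mathlib
import Pool.Agent.Lib.MP_582a01_gt.Defs

/-! Module Alg1 of MP_582a01_gt: derivative of the Riemann invariant `U` and of the conformal
factor `LamH` along a curve in the state space. -/

set_option autoImplicit false
open scoped ContDiff

namespace Cub

private theorem alg1_mono {m n : ℝ} (hm : |m| ≤ 1/20) (hn : |n| ≤ 1/20) (i j : ℕ) :
    |m ^ i * n ^ j| ≤ (1/20) ^ i * (1/20) ^ j := by
  rw [abs_mul, abs_pow, abs_pow]
  gcongr

theorem pos_facts {m n : ℝ} (hm : |m| ≤ 1/20) (hn : |n| ≤ 1/20) :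
    1/8 ≤ na m n ∧ 1/8 ≤ nc m n ∧ 1/2 ≤ S m n ∧ 1/2 ≤ T m n ∧ 1/2 ≤ 1 - m*n ∧
      1/2 ≤ 1 + m + m^2 ∧ 1/2 ≤ 1 + n + n^2 ∧ 0 < LamH m n := by
  have h := fun i j => abs_le.mp (alg1_mono hm hn i j)
  have h10 := h 1 0
  have h01 := h 0 1
  have h20 := h 2 0
  have h11 := h 1 1
  have h02 := h 0 2
  have h30 := h 3 0
  have h21 := h 2 1
  have h12 := h 1 2
  have h03 := h 0 3
  have h31 := h 3 1
  have h22 := h 2 2
  have h13 := h 1 3
  have h32 := h 3 2
  have h23 := h 2 3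
  have h33 := h 3 3
  norm_num at h10 h01 h20 h11 h02 h30 h21 h12 h03 h31 h22 h13 h32 h23 h33
  have hna : 1/8 ≤ na m n := by unfold na; nlinarith
  have hnc : 1/8 ≤ nc m n := by unfold nc; nlinarith
  have hS : 1/2 ≤ S m n := by unfold S; nlinarith
  have hT : 1/2 ≤ T m n := by unfold T; nlinarith
  have h1 : 1/2 ≤ 1 - m*n := by nlinarith
  have h2 : 1/2 ≤ 1 + m + m^2 := by nlinarith
  have h3 : 1/2 ≤ 1 + n + n^2 := by nlinarith
  refine ⟨hna, hnc, hS, hT, h1, h2, h3, ?_⟩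
  unfold LamH
  have : 0 < (nc m n) ^ (-(2/3) : ℝ) := Real.rpow_pos_of_pos (by linarith) _
  positivity

private theorem alg1_na {m n : ℝ → ℝ} {t m' n' : ℝ} (hm : HasDerivAt m m' t)
    (hn : HasDerivAt n n' t) :
    HasDerivAt (fun s => na (m s) (n s))
      ((6 + 24*m t - 3*n t + 24*m t^2 + 6*m t*n t - 12*n t^2 + 24*m t^2*n t - 12*m t*n t^2
          - 3*m t^2*n t^2) * m'
        + (-8 - 3*m t - 16*n t + 3*m t^2 - 24*m t*n t + 8*m t^3 - 12*m t^2*n t
          - 2*m t^3*n t) * n') t := by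
  have h := (((((((((((hasDerivAt_const t (1:ℝ)).add (hm.const_mul 6)).sub
    (hn.const_mul 8)).add ((hm.pow 2).const_mul 12)).sub ((hm.const_mul 3).mul hn)).sub
    ((hn.pow 2).const_mul 8)).add ((hm.pow 3).const_mul 8)).add
    (((hm.pow 2).const_mul 3).mul hn)).sub ((hm.const_mul 12).mul (hn.pow 2))).add
    (((hm.pow 3).const_mul 8).mul hn)).sub (((hm.pow 2).const_mul 6).mul (hn.pow 2))).sub
    ((hm.pow 3).mul (hn.pow 2))
  refine HasDerivAt.congr_deriv (f := fun s => na (m s) (n s)) h ?_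
  simp only [Pi.pow_apply]
  push_cast
  ring

private theorem alg1_nc {m n : ℝ → ℝ} {t m' n' : ℝ} (hm : HasDerivAt m m' t)
    (hn : HasDerivAt n n' t) :
    HasDerivAt (fun s => nc (m s) (n s))
      ((6 + 24*m t + 24*m t^2 + 18*m t*n t + 9*n t^2 + 36*m t^2*n t + 12*n t^3
          + 18*m t^2*n t^2 + 12*m t*n t^3 + 3*m t^2*n t^3) * m'
        + (6 + 24*n t + 9*m t^2 + 18*m t*n t + 24*n t^2 + 12*m t^3 + 36*m t*n t^2
          + 12*m t^3*n t + 18*m t^2*n t^2 + 3*m t^3*n t^2) * n') t := by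
  have h := (((((((((((((hasDerivAt_const t (1:ℝ)).add (hm.const_mul 6)).add
    (hn.const_mul 6)).add ((hm.pow 2).const_mul 12)).add ((hn.pow 2).const_mul 12)).add
    ((hm.pow 3).const_mul 8)).add (((hm.pow 2).const_mul 9).mul hn)).add
    ((hm.const_mul 9).mul (hn.pow 2))).add ((hn.pow 3).const_mul 8)).add
    (((hm.pow 3).const_mul 12).mul hn)).add ((hm.const_mul 12).mul (hn.pow 3))).add
    (((hm.pow 3).const_mul 6).mul (hn.pow 2))).add
    (((hm.pow 2).const_mul 6).mul (hn.pow 3))).add ((hm.pow 3).mul (hn.pow 3))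
  refine HasDerivAt.congr_deriv (f := fun s => nc (m s) (n s)) h ?_
  simp only [Pi.pow_apply]
  push_cast
  ring

theorem slope_rel {m n : ℝ → ℝ} {t m' n' c : ℝ} (hm : HasDerivAt m m' t)
    (hn : HasDerivAt n n' t) (hmb : |m t| ≤ 1/20) (hnb : |n t| ≤ 1/20)
    (hU : ∀ s, U (m s) (n s) = c) :
    S (m t) (n t) * T (m t) (n t) * n' = 6 * n t * (1 + n t) * (1 + n t + n t ^ 2) * m' := by
  obtain ⟨ha, hc, hS, hT, h1, h2, h3, hL⟩ := pos_facts hmb hnb
  obtain ⟨-, -, -, hT', -⟩ := pos_facts hnb hmb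
  have hna := alg1_na hm hn
  have hnc := alg1_nc hm hn
  have hd : HasDerivAt (fun s => U (m s) (n s)) 0 t := by
    have : (fun s => U (m s) (n s)) = fun _ => c := funext hU
    rw [this]
    exact hasDerivAt_const t c
  have hnum := ((((hasDerivAt_const t (1:ℝ)).add hn).add (hn.pow 2)).mul (hna.pow 2)).div
    (hnc.pow 2) (by positivity : (fun s => nc (m s) (n s)) t ^ 2 ≠ 0)
  have huniq := hd.unique (f := fun s => U (m s) (n s)) hnum
  simp only [Pi.pow_apply, Pi.add_apply, Pi.mul_apply] at huniq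
  generalize m t = M at *
  generalize n t = N at *
  have hc0 : nc M N ≠ 0 := by positivity
  have ha0 : na M N ≠ 0 := by positivity
  have hT0 : T N M ≠ 0 := by positivity
  rw [eq_comm, div_eq_zero_iff] at huniq
  rcases huniq with hz | hz
  swap
  · exact absurd hz (by positivity)
  push_cast at hz
  have key : (na M N * nc M N * 27 * (T N M)^2) *
      (6 * N * (1 + N) * (1 + N + N ^ 2) * m' - S M N * T M N * n') = 0 := by
    rw [← hz]
    unfold S T na nc
    ring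
  have hne : na M N * nc M N * 27 * (T N M)^2 ≠ 0 := by positivity
  rcases mul_eq_zero.mp key with h | h
  · exact absurd h hne
  · linarith

theorem lam_rel {m n : ℝ → ℝ} {t m' n' : ℝ} (hm : HasDerivAt m m' t)
    (hn : HasDerivAt n n' t) (hmb : |m t| ≤ 1/20) (hnb : |n t| ≤ 1/20)
    (hrel : S (m t) (n t) * T (m t) (n t) * n'
      = 6 * n t * (1 + n t) * (1 + n t + n t ^ 2) * m') :
    HasDerivAt (fun s => LamH (m s) (n s))
      (-3 * LamH (m t) (n t) * (1 - m t * n t) * m'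
        / (S (m t) (n t) * (1 + m t + m t ^ 2))) t := by
  obtain ⟨ha, hc, hS, hT, h1, h2, h3, hL⟩ := pos_facts hmb hnb
  have hnc := alg1_nc hm hn
  have hc0 : 0 < nc (m t) (n t) := by linarith
  have hr := hnc.rpow_const (p := -(2/3)) (Or.inl hc0.ne')
  have hM := (((hasDerivAt_const t (1:ℝ)).add hm).add (hm.pow 2)).mul
    (((hasDerivAt_const t (1:ℝ)).add hn).add (hn.pow 2))
  have h := (hr.mul hM).div_const 3
  refine HasDerivAt.congr_deriv (f := fun s => LamH (m s) (n s)) h ?_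
  simp only [Pi.pow_apply, Pi.add_apply, Pi.mul_apply]
  unfold LamH
  generalize m t = M at *
  generalize n t = N at *
  have hsub : nc M N ^ (-(2/3) - 1 : ℝ) = nc M N ^ (-(2/3) : ℝ) / nc M N := by
    rw [Real.rpow_sub hc0, Real.rpow_one]
  rw [hsub]
  generalize nc M N ^ (-(2/3) : ℝ) = r at *
  push_cast
  have hcn : nc M N ≠ 0 := hc0.ne'
  have hSn : S M N ≠ 0 := by positivity
  have hTn : T M N ≠ 0 := by positivity
  have h2n : 1 + M + M^2 ≠ 0 := by positivity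
  have hn' : n' = 6 * N * (1 + N) * (1 + N + N ^ 2) * m' / (S M N * T M N) := by
    field_simp
    linarith
  have key : (3 * ((1 + 2*M) * (1 + N + N^2)) * nc M N - 2 * ((1 + M + M^2) * (1 + N + N^2)) *
      (6 + 24*M + 24*M^2 + 18*M*N + 9*N^2 + 36*M^2*N + 12*N^3
          + 18*M^2*N^2 + 12*M*N^3 + 3*M^2*N^3)) * (S M N * T M N)
      + (3 * ((1 + M + M^2) * (1 + 2*N)) * nc M N - 2 * ((1 + M + M^2) * (1 + N + N^2)) *
      (6 + 24*N + 9*M^2 + 18*M*N + 24*N^2 + 12*M^3 + 36*M*N^2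
          + 12*M^3*N + 18*M^2*N^2 + 3*M^3*N^2)) * (6 * N * (1 + N) * (1 + N + N ^ 2))
      = -9 * (1 - M*N) * nc M N * (1 + N + N^2) * T M N := by
    unfold S T nc
    ring
  have e : ∀ L : ℝ, L = r * m' / (9 * nc M N * (S M N * T M N)) *
      ((3 * ((1 + 2*M) * (1 + N + N^2)) * nc M N - 2 * ((1 + M + M^2) * (1 + N + N^2)) *
      (6 + 24*M + 24*M^2 + 18*M*N + 9*N^2 + 36*M^2*N + 12*N^3
          + 18*M^2*N^2 + 12*M*N^3 + 3*M^2*N^3)) * (S M N * T M N)
      + (3 * ((1 + M + M^2) * (1 + 2*N)) * nc M N - 2 * ((1 + M + M^2) * (1 + N + N^2)) *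
      (6 + 24*N + 9*M^2 + 18*M*N + 24*N^2 + 12*M^3 + 36*M*N^2
          + 12*M^3*N + 18*M^2*N^2 + 3*M^3*N^2)) * (6 * N * (1 + N) * (1 + N + N ^ 2))) →
      L = -3 * (r * ((1 + M + M ^ 2) * (1 + N + N ^ 2)) / 3) * (1 - M * N) * m' /
        (S M N * (1 + M + M ^ 2)) := by
    intro L hL
    rw [hL, key]
    field_simp
  apply e
  rw [hn']
  field_simp
  ring

theorem LamH_symm (m n : ℝ) : LamH n m = LamH m n := by
  unfold LamH
  have : nc n m = nc m n := by unfold nc; ring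
  rw [this]
  ring

theorem AH_symm (m n : ℝ) : AH n m = - BH m n := by
  unfold AH BH
  rw [LamH_symm]
  rw [show (1 + n + n^2) * (1 + m + m^2) = (1 + m + m^2) * (1 + n + n^2) by ring,
    show n * (1 + n + n*m) = n * (1 + n + m*n) by ring]
  ring

theorem LamH_zero {n : ℝ} (hn : |n| ≤ 1/20) :
    LamH 0 n = (1 + n + n^2) / (3 * (1 + 2*n)^2) ∧ AH 0 n = 0 ∧ BH 0 n = 1/3 - LamH 0 n := by
  have hb := abs_le.mp hn
  have h0 : 0 < 1 + 2*n := by linarith
  have h3 : 0 < 1 + n + n^2 := by nlinarith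
  have hnc : nc 0 n = (1 + 2*n)^3 := by unfold nc; ring
  have hL : LamH 0 n = (1 + n + n^2) / (3 * (1 + 2*n)^2) := by
    unfold LamH
    rw [hnc, ← Real.rpow_natCast (1 + 2*n) 3, ← Real.rpow_mul h0.le]
    norm_num
    field_simp
  refine ⟨hL, ?_, ?_⟩
  · unfold AH
    ring
  · unfold BH
    rw [hL]
    have h0' : 1 + 2*n ≠ 0 := h0.ne'
    have h3' : 1 + n + n^2 ≠ 0 := h3.ne'
    have e : 3 * ((1 + n + n^2) / (3 * (1 + 2*n)^2)) * (n * (1 + n + 0*n)) /
        ((1 + 0 + 0^2) * (1 + n + n^2)) = n * (1 + n) / (1 + 2*n)^2 := by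
      field_simp
      ring
    rw [e, eq_sub_iff_add_eq, div_add_div _ _ (by positivity) (by positivity),
      div_eq_div_iff (by positivity) (by norm_num)]
    ring

end Cub
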