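import Mathlib
import Pool.Agent.Lib.MP_582a01_gt.Defs

set_option autoImplicit false
open scoped ContDiff

namespace Cub

private theorem solve2 {m n x y a b : ℝ} (h1 : m * x + y = b) (h2 : x + n * y = a)
    (hmn : 1 - m * n ≠ 0) : x = (a - n * b) / (1 - m * n) ∧ y = (b - m * a) / (1 - m * n) := by
  constructor
  · rw [eq_div_iff hmn, ← h1, ← h2]; ring
  · rw [eq_div_iff hmn, ← h1, ← h2]; ring

/-- `b`-derivatives `mb nb` of the slopes, `a`-derivatives `ma na'`. -/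
theorem alg_pde {m n Lam mb nb ma na' P Q L1 L2 A1 A2 B1 B2 : ℝ}
    (hm : |m| ≤ 1/20) (hn : |n| ≤ 1/20) (hLam : 0 < Lam) (hP : P ≠ 0) (hQ : Q ≠ 0)
    (hb : S m n * T m n * nb = 6 * n * (1 + n) * (1 + n + n^2) * mb)
    (ha : S m n * T n m * ma = 6 * m * (1 + m) * (1 + m + m^2) * na')
    (hLb : Q * (m * L1 + L2) = -3 * Lam * (1 - m*n) * mb / (S m n * (1 + m + m^2)))
    (hLa : P * (L1 + n * L2) = -3 * Lam * (1 - m*n) * na' / (S m n * (1 + n + n^2)))
    (hAb : Q * (m * A1 + A2) =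
      -3 * (Q * (m * L1 + L2)) * (m * (1 + m + m*n)) / ((1 + m + m^2) * (1 + n + n^2))
      - 3 * Lam * ((1 + 2*m + 2*m*n) * mb + m^2 * nb) / ((1 + m + m^2) * (1 + n + n^2))
      + 3 * Lam * (m * (1 + m + m*n)) * ((1 + 2*m) * (1 + n + n^2) * mb
          + (1 + 2*n) * (1 + m + m^2) * nb) / ((1 + m + m^2) * (1 + n + n^2))^2)
    (hAa : P * (A1 + n * A2) =
      -3 * (P * (L1 + n * L2)) * (m * (1 + m + m*n)) / ((1 + m + m^2) * (1 + n + n^2))
      - 3 * Lam * ((1 + 2*m + 2*m*n) * ma + m^2 * na') / ((1 + m + m^2) * (1 + n + n^2))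
      + 3 * Lam * (m * (1 + m + m*n)) * ((1 + 2*m) * (1 + n + n^2) * ma
          + (1 + 2*n) * (1 + m + m^2) * na') / ((1 + m + m^2) * (1 + n + n^2))^2)
    (hBb : Q * (m * B1 + B2) =
      3 * (Q * (m * L1 + L2)) * (n * (1 + n + m*n)) / ((1 + m + m^2) * (1 + n + n^2))
      + 3 * Lam * (n^2 * mb + (1 + 2*n + 2*m*n) * nb) / ((1 + m + m^2) * (1 + n + n^2))
      - 3 * Lam * (n * (1 + n + m*n)) * ((1 + 2*m) * (1 + n + n^2) * mb
          + (1 + 2*n) * (1 + m + m^2) * nb) / ((1 + m + m^2) * (1 + n + n^2))^2)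
    (hBa : P * (B1 + n * B2) =
      3 * (P * (L1 + n * L2)) * (n * (1 + n + m*n)) / ((1 + m + m^2) * (1 + n + n^2))
      + 3 * Lam * (n^2 * ma + (1 + 2*n + 2*m*n) * na') / ((1 + m + m^2) * (1 + n + n^2))
      - 3 * Lam * (n * (1 + n + m*n)) * ((1 + 2*m) * (1 + n + n^2) * ma
          + (1 + 2*n) * (1 + m + m^2) * na') / ((1 + m + m^2) * (1 + n + n^2))^2) :
    L2 + 2 * A1 - A2
        + (-3 * (m * (1 + m + m*n)) / ((1 + m + m^2) * (1 + n + n^2)) * L1
          + 3 * (n * (1 + n + m*n)) / ((1 + m + m^2) * (1 + n + n^2)) * L2) = 0 ∧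
    - L1 - B1 + 2 * B2
        + (-3 * (m * (1 + m + m*n)) / ((1 + m + m^2) * (1 + n + n^2)) * L1
          + 3 * (n * (1 + n + m*n)) / ((1 + m + m^2) * (1 + n + n^2)) * L2) = 0 ∧
    2 * L1 - 2 * L2 - A1 + 2 * B1 + 2 * A2 - B2
        - (-3 * (m * (1 + m + m*n)) / ((1 + m + m^2) * (1 + n + n^2)) * L1
          + 3 * (n * (1 + n + m*n)) / ((1 + m + m^2) * (1 + n + n^2)) * L2) = 0 := by
  obtain ⟨hm1, hm2⟩ := abs_le.1 hm
  obtain ⟨hn1, hn2⟩ := abs_le.1 hn
  have hmn : |m * n| ≤ 1/400 := by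
    rw [abs_mul]
    nlinarith [abs_nonneg m, abs_nonneg n]
  obtain ⟨h1, h2⟩ := abs_le.1 hmn
  have hmn2 : |m * n * n| ≤ 1/400 := by
    rw [abs_mul]
    nlinarith [abs_nonneg (m*n), abs_nonneg n]
  have hmn3 : |n * m * m| ≤ 1/400 := by
    rw [abs_mul, mul_comm n m]
    nlinarith [abs_nonneg (m*n), abs_nonneg m]
  obtain ⟨h3, h4⟩ := abs_le.1 hmn2
  obtain ⟨h5, h6⟩ := abs_le.1 hmn3
  have hS : S m n ≠ 0 := by
    have : 0 < S m n := by unfold S; linarith
    exact this.ne'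
  have hT : T m n ≠ 0 := by
    have : 0 < T m n := by unfold T; nlinarith
    exact this.ne'
  have hT' : T n m ≠ 0 := by
    have : 0 < T n m := by unfold T; nlinarith
    exact this.ne'
  have hv : (1 + m + m^2) ≠ 0 := by
    have : 0 < 1 + m + m^2 := by nlinarith
    exact this.ne'
  have hw : (1 + n + n^2) ≠ 0 := by
    have : 0 < 1 + n + n^2 := by nlinarith
    exact this.ne'
  have hd : 1 - m * n ≠ 0 := by
    have : 0 < 1 - m * n := by linarith
    exact this.ne'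
  obtain ⟨k, hk⟩ : ∃ k, mb = S m n * (1 + m + m^2) * T m n * (k * Q) :=
    ⟨mb / (S m n * (1 + m + m^2) * T m n * Q), by field_simp⟩
  obtain ⟨l, hl⟩ : ∃ l, na' = S m n * (1 + n + n^2) * T n m * (l * P) :=
    ⟨na' / (S m n * (1 + n + n^2) * T n m * P), by field_simp⟩
  have hnb : nb = 6 * n * (1 + n) * (1 + n + n^2) * (1 + m + m^2) * (k * Q) := by
    have : S m n * T m n * nb
        = S m n * T m n * (6 * n * (1 + n) * (1 + n + n^2) * (1 + m + m^2) * (k * Q)) := by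
      rw [hb, hk]; ring
    exact mul_left_cancel₀ (mul_ne_zero hS hT) this
  have hma : ma = 6 * m * (1 + m) * (1 + m + m^2) * (1 + n + n^2) * (l * P) := by
    have : S m n * T n m * ma
        = S m n * T n m * (6 * m * (1 + m) * (1 + m + m^2) * (1 + n + n^2) * (l * P)) := by
      rw [ha, hl]; ring
    exact mul_left_cancel₀ (mul_ne_zero hS hT') this
  have eLb : m * L1 + L2 = -3 * Lam * (1 - m*n) * T m n * k := by
    have : Q * (m * L1 + L2) = Q * (-3 * Lam * (1 - m*n) * T m n * k) := by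
      rw [hLb, hk]; field_simp
    exact mul_left_cancel₀ hQ this
  have eLa : L1 + n * L2 = -3 * Lam * (1 - m*n) * T n m * l := by
    have : P * (L1 + n * L2) = P * (-3 * Lam * (1 - m*n) * T n m * l) := by
      rw [hLa, hl]; field_simp
    exact mul_left_cancel₀ hP this
  rw [eLb, hk, hnb] at hAb hBb
  rw [eLa, hl, hma] at hAa hBa
  have eAb : m * A1 + A2 = Lam * k * (
      9 * (1 - m*n) * T m n * (m * (1 + m + m*n)) / ((1 + m + m^2) * (1 + n + n^2))
      - 3 * ((1 + 2*m + 2*m*n) * (S m n * (1 + m + m^2) * T m n)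
        + m^2 * (6 * n * (1 + n) * (1 + n + n^2) * (1 + m + m^2)))
          / ((1 + m + m^2) * (1 + n + n^2))
      + 3 * (m * (1 + m + m*n)) * ((1 + 2*m) * (1 + n + n^2) * (S m n * (1 + m + m^2) * T m n)
          + (1 + 2*n) * (1 + m + m^2) * (6 * n * (1 + n) * (1 + n + n^2) * (1 + m + m^2)))
          / ((1 + m + m^2) * (1 + n + n^2))^2) := by
    apply mul_left_cancel₀ hQ
    rw [hAb]; ring
  have eAa : A1 + n * A2 = Lam * l * (
      9 * (1 - m*n) * T n m * (m * (1 + m + m*n)) / ((1 + m + m^2) * (1 + n + n^2))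
      - 3 * ((1 + 2*m + 2*m*n) * (6 * m * (1 + m) * (1 + m + m^2) * (1 + n + n^2))
        + m^2 * (S m n * (1 + n + n^2) * T n m))
          / ((1 + m + m^2) * (1 + n + n^2))
      + 3 * (m * (1 + m + m*n)) * ((1 + 2*m) * (1 + n + n^2)
            * (6 * m * (1 + m) * (1 + m + m^2) * (1 + n + n^2))
          + (1 + 2*n) * (1 + m + m^2) * (S m n * (1 + n + n^2) * T n m))
          / ((1 + m + m^2) * (1 + n + n^2))^2) := by
    apply mul_left_cancel₀ hP
    rw [hAa]; ring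
  have eBb : m * B1 + B2 = Lam * k * (
      -9 * (1 - m*n) * T m n * (n * (1 + n + m*n)) / ((1 + m + m^2) * (1 + n + n^2))
      + 3 * (n^2 * (S m n * (1 + m + m^2) * T m n)
        + (1 + 2*n + 2*m*n) * (6 * n * (1 + n) * (1 + n + n^2) * (1 + m + m^2)))
          / ((1 + m + m^2) * (1 + n + n^2))
      - 3 * (n * (1 + n + m*n)) * ((1 + 2*m) * (1 + n + n^2) * (S m n * (1 + m + m^2) * T m n)
          + (1 + 2*n) * (1 + m + m^2) * (6 * n * (1 + n) * (1 + n + n^2) * (1 + m + m^2)))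
          / ((1 + m + m^2) * (1 + n + n^2))^2) := by
    apply mul_left_cancel₀ hQ
    rw [hBb]; ring
  have eBa : B1 + n * B2 = Lam * l * (
      -9 * (1 - m*n) * T n m * (n * (1 + n + m*n)) / ((1 + m + m^2) * (1 + n + n^2))
      + 3 * (n^2 * (6 * m * (1 + m) * (1 + m + m^2) * (1 + n + n^2))
        + (1 + 2*n + 2*m*n) * (S m n * (1 + n + n^2) * T n m))
          / ((1 + m + m^2) * (1 + n + n^2))
      - 3 * (n * (1 + n + m*n)) * ((1 + 2*m) * (1 + n + n^2)
            * (6 * m * (1 + m) * (1 + m + m^2) * (1 + n + n^2))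
          + (1 + 2*n) * (1 + m + m^2) * (S m n * (1 + n + n^2) * T n m))
          / ((1 + m + m^2) * (1 + n + n^2))^2) := by
    apply mul_left_cancel₀ hP
    rw [hBa]; ring
  obtain ⟨rL1, rL2⟩ := solve2 eLb eLa hd
  obtain ⟨rA1, rA2⟩ := solve2 eAb eAa hd
  obtain ⟨rB1, rB2⟩ := solve2 eBb eBa hd
  rw [rL1, rL2, rA1, rA2, rB1, rB2]
  unfold S T
  refine ⟨?_, ?_, ?_⟩
  · field_simp
    ring
  · field_simp
    ring
  · field_simp
    ring

end Cub
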