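import Mathlib
import Pool.Agent.Lib.MP_582a01_gt.Defs

/-!
# MP_582a01_gt, module Bracket

The Poisson bracket `{F,H}` in the form of the frozen statement, computed from the three equations
`IsSolAt`; the energy and the cubic integral in matrix / coefficient form; positivity of the metric.
-/

set_option autoImplicit false
open scoped ContDiff

namespace Cub

theorem H_eq {Lam : ℝ × ℝ → ℝ} (hpos : ∀ z, 0 < Lam z) (x p : Fin 2 → ℝ) :
    (1 / 2 : ℝ) * dotProduct p ((Matrix.of (gM Lam x))⁻¹.mulVec p)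
      = N2 p / (2 * Lam (x 0, x 1)) := by
  have hL : Lam (x 0, x 1) ≠ 0 := (hpos _).ne'
  have hinv : (Matrix.of (gM Lam x))⁻¹
      = Matrix.of ![![(Lam (x 0, x 1))⁻¹, -(1/2) * (Lam (x 0, x 1))⁻¹],
          ![-(1/2) * (Lam (x 0, x 1))⁻¹, (Lam (x 0, x 1))⁻¹]] := by
    apply Matrix.inv_eq_right_inv
    ext i j
    fin_cases i <;> fin_cases j <;>
      simp [Matrix.mul_apply, Fin.sum_univ_two, gM] <;> field_simp <;> norm_num
  rw [hinv]
  simp only [dotProduct, Matrix.mulVec, Fin.sum_univ_two, Matrix.of_apply, Matrix.cons_val_zero,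
    Matrix.cons_val_one, N2]
  field_simp
  ring

theorem F_eq {Lam A B : ℝ × ℝ → ℝ} (hpos : ∀ z, 0 < Lam z) (x p : Fin 2 → ℝ) :
    FM Lam A B x p = ∑ i ∈ Finset.range (3 + 1), ∑ j ∈ Finset.range (3 + 1 - i),
          cf Lam A B i j x * p 0 ^ i * p 1 ^ j := by
  have hL : Lam (x 0, x 1) ≠ 0 := (hpos _).ne'
  simp only [Finset.sum_range_succ, Finset.sum_range_zero, cf, FM, N2]
  norm_num [Finset.sum_range_succ]
  field_simp
  ring

theorem gM_posDef {Lam : ℝ × ℝ → ℝ} (hpos : ∀ z, 0 < Lam z) (x : Fin 2 → ℝ) :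
    (Matrix.of (gM Lam x)).PosDef := by
  have hL : 0 < Lam (x 0, x 1) := hpos _
  refine Matrix.PosDef.of_dotProduct_mulVec_pos ?_ ?_
  · ext i j
    fin_cases i <;> fin_cases j <;> simp [gM]
  · intro v hv
    have hv' : v 0 ≠ 0 ∨ v 1 ≠ 0 := by
      by_contra h
      push Not at h
      apply hv
      ext i
      fin_cases i
      · exact h.1
      · exact h.2
    simp only [dotProduct, Matrix.mulVec, Fin.sum_univ_two, Matrix.of_apply, gM, star_trivial]
    norm_num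
    have hq : 0 < v 0 ^ 2 + v 0 * v 1 + v 1 ^ 2 := by
      rcases hv' with h | h
      · nlinarith [sq_nonneg (v 0 + 2 * v 1), sq_pos_of_ne_zero h]
      · nlinarith [sq_nonneg (2 * v 0 + v 1), sq_pos_of_ne_zero h]
    nlinarith [mul_pos hL hq]

/-- the linear map `x ↦ (x 0, x 1)` -/
private noncomputable def eL : (Fin 2 → ℝ) →L[ℝ] ℝ × ℝ :=
  (ContinuousLinearMap.proj 0).prod (ContinuousLinearMap.proj 1)

private theorem eL_apply (x : Fin 2 → ℝ) : eL x = (x 0, x 1) := rfl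

private theorem eL_zero : eL (Pi.single 0 (1 : ℝ)) = (1, 0) := by
  rw [eL_apply]; simp

private theorem eL_one : eL (Pi.single 1 (1 : ℝ)) = (0, 1) := by
  rw [eL_apply]; simp

private theorem comp_hasFDerivAt {f : ℝ × ℝ → ℝ} (hf : Differentiable ℝ f) (x : Fin 2 → ℝ) :
    HasFDerivAt (fun y : Fin 2 → ℝ => f (y 0, y 1))
      ((fderiv ℝ f (x 0, x 1)).comp eL) x := by
  have h1 : HasFDerivAt f (fderiv ℝ f (x 0, x 1)) (eL x) := (hf (x 0, x 1)).hasFDerivAt
  exact h1.comp x eL.hasFDerivAt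

theorem bracket {Lam A B : ℝ × ℝ → ℝ} (h : Global Lam A B) (x p : Fin 2 → ℝ) :
    ∑ k : Fin 2,
      (fderiv ℝ (fun y => FM Lam A B y p) x (Pi.single k (1 : ℝ))
          * fderiv ℝ (fun q : Fin 2 → ℝ => N2 q / (2 * Lam (x 0, x 1))) p (Pi.single k (1 : ℝ))
        - fderiv ℝ (fun q => FM Lam A B x q) p (Pi.single k (1 : ℝ))
          * fderiv ℝ (fun y : Fin 2 → ℝ => N2 p / (2 * Lam (y 0, y 1))) x
              (Pi.single k (1 : ℝ))) = 0 := by
  have hpos : 0 < Lam (x 0, x 1) := h.pos _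
  have hL0 : Lam (x 0, x 1) ≠ 0 := hpos.ne'
  have hdL : Differentiable ℝ Lam := h.smoothL.differentiable (by simp)
  have hdA : Differentiable ℝ A := h.smoothA.differentiable (by simp)
  have hdB : Differentiable ℝ B := h.smoothB.differentiable (by simp)
  have hL := comp_hasFDerivAt hdL x
  have hA := comp_hasFDerivAt hdA x
  have hB := comp_hasFDerivAt hdB x
  have hinv : HasFDerivAt (fun y : Fin 2 → ℝ => (Lam (y 0, y 1))⁻¹)
      (-((Lam (x 0, x 1)) ^ 2)⁻¹ • ((fderiv ℝ Lam (x 0, x 1)).comp eL)) x := by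
    have h1 := (hasDerivAt_inv hL0).comp_hasFDerivAt x hL
    exact h1
  -- derivatives in the position
  have hFx : HasFDerivAt (fun y => FM Lam A B y p)
      (N2 p • (((A (x 0, x 1) * p 0 + B (x 0, x 1) * p 1)) •
          (-((Lam (x 0, x 1)) ^ 2)⁻¹ • ((fderiv ℝ Lam (x 0, x 1)).comp eL))
        + (Lam (x 0, x 1))⁻¹ • (p 0 • ((fderiv ℝ A (x 0, x 1)).comp eL)
            + p 1 • ((fderiv ℝ B (x 0, x 1)).comp eL)))) x := by
    have h1 := ((((hA.mul_const (p 0)).add (hB.mul_const (p 1))).mul hinv).const_mul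
      (N2 p)).const_add (p 0 ^ 2 * p 1 - p 0 * p 1 ^ 2)
    refine h1.congr_of_eventuallyEq (Filter.Eventually.of_forall fun y => ?_)
    simp only [FM, Pi.add_apply, Pi.mul_apply]
    ring
  have hHx : HasFDerivAt (fun y : Fin 2 → ℝ => N2 p / (2 * Lam (y 0, y 1)))
      ((N2 p / 2) • (-((Lam (x 0, x 1)) ^ 2)⁻¹ • ((fderiv ℝ Lam (x 0, x 1)).comp eL))) x := by
    refine (hinv.const_mul (N2 p / 2)).congr_of_eventuallyEq
      (Filter.Eventually.of_forall fun y => ?_)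
    have := (h.pos (y 0, y 1)).ne'
    field_simp
  -- derivatives in the momentum
  have h0 : HasFDerivAt (fun q : Fin 2 → ℝ => q 0)
      (ContinuousLinearMap.proj (R := ℝ) (φ := fun _ : Fin 2 => ℝ) 0) p :=
    hasFDerivAt_apply 0 p
  have h1 : HasFDerivAt (fun q : Fin 2 → ℝ => q 1)
      (ContinuousLinearMap.proj (R := ℝ) (φ := fun _ : Fin 2 => ℝ) 1) p :=
    hasFDerivAt_apply 1 p
  have hN : HasFDerivAt (fun q : Fin 2 → ℝ => N2 q)
      ((2 * p 0 - p 1) • (ContinuousLinearMap.proj (R := ℝ) (φ := fun _ : Fin 2 => ℝ) 0)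
        + (2 * p 1 - p 0) • (ContinuousLinearMap.proj (R := ℝ) (φ := fun _ : Fin 2 => ℝ) 1)) p := by
    have h2 := ((h0.mul h0).sub (h0.mul h1)).add (h1.mul h1)
    refine (h2.congr_of_eventuallyEq (Filter.Eventually.of_forall fun y => ?_)).congr_fderiv ?_
    · simp only [N2, Pi.add_apply, Pi.mul_apply, Pi.sub_apply]
      ring
    · ext v
      simp
      ring
  have hHp : HasFDerivAt (fun q : Fin 2 → ℝ => N2 q / (2 * Lam (x 0, x 1)))
      ((2 * Lam (x 0, x 1))⁻¹ •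
        ((2 * p 0 - p 1) • (ContinuousLinearMap.proj (R := ℝ) (φ := fun _ : Fin 2 => ℝ) 0)
        + (2 * p 1 - p 0) • (ContinuousLinearMap.proj (R := ℝ) (φ := fun _ : Fin 2 => ℝ) 1))) p := by
    refine (hN.const_mul (2 * Lam (x 0, x 1))⁻¹).congr_of_eventuallyEq
      (Filter.Eventually.of_forall fun y => ?_)
    simp only
    ring
  have hFp : HasFDerivAt (fun q => FM Lam A B x q)
      ((2 * p 0 * p 1 - p 1 ^ 2 + (Lam (x 0, x 1))⁻¹ * ((2 * p 0 - p 1) *
          (A (x 0, x 1) * p 0 + B (x 0, x 1) * p 1) + N2 p * A (x 0, x 1))) •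
          (ContinuousLinearMap.proj (R := ℝ) (φ := fun _ : Fin 2 => ℝ) 0)
        + (p 0 ^ 2 - 2 * p 0 * p 1 + (Lam (x 0, x 1))⁻¹ * ((2 * p 1 - p 0) *
          (A (x 0, x 1) * p 0 + B (x 0, x 1) * p 1) + N2 p * B (x 0, x 1))) •
          (ContinuousLinearMap.proj (R := ℝ) (φ := fun _ : Fin 2 => ℝ) 1)) p := by
    have h2 := (((h0.mul h0).mul h1).sub (h0.mul (h1.mul h1))).add
      ((hN.mul ((h0.const_mul (A (x 0, x 1))).add (h1.const_mul (B (x 0, x 1))))).const_mul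
        (Lam (x 0, x 1))⁻¹)
    refine (h2.congr_of_eventuallyEq (Filter.Eventually.of_forall fun y => ?_)).congr_fderiv ?_
    · simp only [FM, Pi.add_apply, Pi.mul_apply, Pi.sub_apply]
      ring
    · ext v
      simp
      ring
  rw [hFx.fderiv, hHx.fderiv, hHp.fderiv, hFp.fderiv]
  obtain ⟨e1, e2, e3⟩ := h.sol (x 0, x 1)
  simp only [Fin.sum_univ_two, smul_apply, add_apply,
    ContinuousLinearMap.comp_apply, eL_zero, eL_one, smul_eq_mul, ContinuousLinearMap.proj_apply,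
    Pi.single_eq_same, kap] at e1 e2 e3 ⊢
  have s01 : (Pi.single (0 : Fin 2) (1 : ℝ) : Fin 2 → ℝ) 1 = 0 := by simp
  have s10 : (Pi.single (1 : Fin 2) (1 : ℝ) : Fin 2 → ℝ) 0 = 0 := by simp
  rw [s01, s10]
  generalize fderiv ℝ Lam (x 0, x 1) (1, 0) = L1 at *
  generalize fderiv ℝ Lam (x 0, x 1) (0, 1) = L2 at *
  generalize fderiv ℝ A (x 0, x 1) (1, 0) = A1 at *
  generalize fderiv ℝ A (x 0, x 1) (0, 1) = A2 at *
  generalize fderiv ℝ B (x 0, x 1) (1, 0) = B1 at *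
  generalize fderiv ℝ B (x 0, x 1) (0, 1) = B2 at *
  generalize A (x 0, x 1) = a at *
  generalize B (x 0, x 1) = b at *
  generalize Lam (x 0, x 1) = L at *
  simp only [N2]
  linear_combination (exp := 1)
    ((p 0 ^ 2 - p 0 * p 1 + p 1 ^ 2) / (2 * L ^ 2)) *
      (p 0 ^ 2 * e1 + p 1 ^ 2 * e2 + p 0 * p 1 * e3)

end Cub
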