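import Mathlib
import Pool.Agent.Lib.MP_582a01_gt.Defs

/-!
# MP_582a01_gt, module Inv

A smooth self-map of the plane whose derivative is everywhere within `1/2` of the identity has a
global smooth inverse.
-/

set_option autoImplicit false
open scoped ContDiff

namespace Cub

private theorem inv_equiv {L : ℝ × ℝ →L[ℝ] ℝ × ℝ}
    (h : ‖L - ContinuousLinearMap.id ℝ (ℝ × ℝ)‖ ≤ 1/2) :
    ∃ e : (ℝ × ℝ) ≃L[ℝ] (ℝ × ℝ), (e : ℝ × ℝ →L[ℝ] ℝ × ℝ) = L := by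
  have hinj : Function.Injective (L : ℝ × ℝ →ₗ[ℝ] ℝ × ℝ) := by
    rw [← LinearMap.ker_eq_bot, LinearMap.ker_eq_bot']
    intro v hv
    have h1 := (L - ContinuousLinearMap.id ℝ (ℝ × ℝ)).le_opNorm v
    have hv' : L v = 0 := hv
    rw [ContinuousLinearMap.sub_apply, hv', ContinuousLinearMap.id_apply, zero_sub, norm_neg] at h1
    have h2 : ‖v‖ ≤ 1/2 * ‖v‖ := h1.trans (mul_le_mul_of_nonneg_right h (norm_nonneg v))
    have h3 : ‖v‖ = 0 := le_antisymm (by linarith) (norm_nonneg v)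
    exact norm_eq_zero.mp h3
  refine ⟨(LinearEquiv.ofInjectiveEndo (L : ℝ × ℝ →ₗ[ℝ] ℝ × ℝ) hinj).toContinuousLinearEquiv, ?_⟩
  ext v <;> rfl

theorem global_inverse {X : ℝ × ℝ → ℝ × ℝ} (hX : ContDiff ℝ ∞ X)
    (h : ∀ z, ‖fderiv ℝ X z - ContinuousLinearMap.id ℝ (ℝ × ℝ)‖ ≤ 1/2) :
    ∃ Y : ℝ × ℝ → ℝ × ℝ, ContDiff ℝ ∞ Y ∧ (∀ z, X (Y z) = z) ∧ (∀ z, Y (X z) = z) := by
  have hd : Differentiable ℝ X := hX.differentiable (by simp)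
  have happ : ApproximatesLinearOn X
      ((ContinuousLinearEquiv.refl ℝ (ℝ × ℝ) : (ℝ × ℝ) ≃L[ℝ] (ℝ × ℝ)) : ℝ × ℝ →L[ℝ] ℝ × ℝ)
      Set.univ (1/2) := by
    intro x _ y _
    have := Convex.norm_image_sub_le_of_norm_fderiv_le' (𝕜 := ℝ) (f := X) (C := 1/2)
      (φ := ContinuousLinearMap.id ℝ (ℝ × ℝ)) (s := Set.univ) (x := y) (y := x)
      (fun x _ => hd x) (fun x _ => h x) convex_univ (Set.mem_univ _) (Set.mem_univ _)
    simpa using this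
  have hc : Subsingleton (ℝ × ℝ) ∨ (1/2 : NNReal) <
      ‖(((ContinuousLinearEquiv.refl ℝ (ℝ × ℝ)).symm : (ℝ × ℝ) ≃L[ℝ] (ℝ × ℝ)) :
        ℝ × ℝ →L[ℝ] ℝ × ℝ)‖₊⁻¹ := by
    right
    have h1 : ‖(((ContinuousLinearEquiv.refl ℝ (ℝ × ℝ)).symm : (ℝ × ℝ) ≃L[ℝ] (ℝ × ℝ)) :
        ℝ × ℝ →L[ℝ] ℝ × ℝ)‖₊ = 1 := by
      have : ‖ContinuousLinearMap.id ℝ (ℝ × ℝ)‖ = 1 := ContinuousLinearMap.norm_id
      exact NNReal.eq this
    rw [h1, inv_one]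
    exact NNReal.half_lt_self one_ne_zero
  let Φ := happ.toHomeomorph X hc
  have hΦ : ∀ z, Φ z = X z := fun z => rfl
  choose e he using fun z => inv_equiv (h z)
  have hsm : ContDiff ℝ ∞ (Φ.symm : ℝ × ℝ → ℝ × ℝ) := by
    refine Homeomorph.contDiff_symm Φ (f₀' := e) ?_ ?_
    · intro a
      rw [he a]
      exact (hd a).hasFDerivAt
    · exact hX
  refine ⟨Φ.symm, hsm, fun z => ?_, fun z => ?_⟩
  · rw [← hΦ]; exact Φ.apply_symm_apply z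
  · rw [← hΦ]; exact Φ.symm_apply_apply z

end Cub
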