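import Mathlib

/-!
Parametric primitives: differentiability and smoothness of `(a,b) ↦ ∫ s in 0..b, f (a,s)`.
-/

set_option autoImplicit false
open scoped ContDiff

namespace Cub

open MeasureTheory Set Filter Topology intervalIntegral

/-- A function with continuous partial derivatives is differentiable. -/
theorem prm_hasFDerivAt_of_partials {f f1 f2 : ℝ × ℝ → ℝ} (hf1 : Continuous f1)
    (hf2 : Continuous f2)
    (h1 : ∀ s t, HasDerivAt (fun x => f (x, t)) (f1 (s, t)) s)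
    (h2 : ∀ s t, HasDerivAt (fun x => f (s, x)) (f2 (s, t)) t) (p : ℝ × ℝ) :
    HasFDerivAt f (f1 p • ContinuousLinearMap.fst ℝ ℝ ℝ + f2 p • ContinuousLinearMap.snd ℝ ℝ ℝ)
      p := by
  have key := hasStrictFDerivAt_uncurry_coprod (𝕜 := ℝ) (u := p) (f := fun s t => f (s, t))
    (f₁ := fun s t => ContinuousLinearMap.toSpanSingleton ℝ (f1 (s, t)))
    (f₂ := fun s t => ContinuousLinearMap.toSpanSingleton ℝ (f2 (s, t)))
    (Eventually.of_forall fun v => (h1 v.1 v.2).hasFDerivAt)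
    (Eventually.of_forall fun v => (h2 v.1 v.2).hasFDerivAt)
    (by
      refine Continuous.continuousAt ?_
      exact (ContinuousLinearMap.toSpanSingletonCLE (𝕜 := ℝ) (E := ℝ)).continuous.comp hf1)
    (by
      refine Continuous.continuousAt ?_
      exact (ContinuousLinearMap.toSpanSingletonCLE (𝕜 := ℝ) (E := ℝ)).continuous.comp hf2)
  have e : f1 p • ContinuousLinearMap.fst ℝ ℝ ℝ + f2 p • ContinuousLinearMap.snd ℝ ℝ ℝ =
      (ContinuousLinearMap.toSpanSingleton ℝ (f1 p)).coprod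
        (ContinuousLinearMap.toSpanSingleton ℝ (f2 p)) := by
    ext <;> simp
  rw [e]
  exact key.hasFDerivAt

theorem prm_contDiff_of_partials {f f1 f2 : ℝ × ℝ → ℝ} (n : ℕ) (hf1 : ContDiff ℝ n f1)
    (hf2 : ContDiff ℝ n f2)
    (h1 : ∀ s t, HasDerivAt (fun x => f (x, t)) (f1 (s, t)) s)
    (h2 : ∀ s t, HasDerivAt (fun x => f (s, x)) (f2 (s, t)) t) : ContDiff ℝ (n + 1) f := by
  rw [contDiff_succ_iff_hasFDerivAt]
  refine ⟨fun p => f1 p • ContinuousLinearMap.fst ℝ ℝ ℝ + f2 p • ContinuousLinearMap.snd ℝ ℝ ℝ,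
    ?_, prm_hasFDerivAt_of_partials hf1.continuous hf2.continuous h1 h2⟩
  exact (hf1.smul contDiff_const).add (hf2.smul contDiff_const)

/-- The partial derivatives of a smooth function. -/
theorem prm_exists_partials {f : ℝ × ℝ → ℝ} (n : ℕ) (hf : ContDiff ℝ (n + 1) f) :
    ∃ f1 f2 : ℝ × ℝ → ℝ, ContDiff ℝ n f1 ∧ ContDiff ℝ n f2 ∧
      (∀ s t, HasDerivAt (fun x => f (x, t)) (f1 (s, t)) s) ∧
      (∀ s t, HasDerivAt (fun x => f (s, x)) (f2 (s, t)) t) := by
  obtain ⟨f', hf', hd⟩ := contDiff_succ_iff_hasFDerivAt.1 hf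
  refine ⟨fun p => f' p (1, 0), fun p => f' p (0, 1), hf'.clm_apply contDiff_const,
    hf'.clm_apply contDiff_const, ?_, ?_⟩
  · intro s t
    have h1 : HasDerivAt (fun x : ℝ => (x, t)) ((1 : ℝ), (0 : ℝ)) s :=
      (hasDerivAt_id s).prodMk (hasDerivAt_const s t)
    exact (hd (s, t)).comp_hasDerivAt s h1
  · intro s t
    have h1 : HasDerivAt (fun x : ℝ => (s, x)) ((0 : ℝ), (1 : ℝ)) t :=
      (hasDerivAt_const t s).prodMk (hasDerivAt_id t)
    exact (hd (s, t)).comp_hasDerivAt t h1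

theorem prm_continuous {f : ℝ × ℝ → ℝ} (hf : Continuous f) :
    Continuous (fun z : ℝ × ℝ => ∫ s in (0:ℝ)..z.2, f (z.1,s)) :=
  continuous_parametric_primitive_of_continuous (f := fun s t => f (s, t)) hf

/-- Fundamental theorem of calculus in the second variable. -/
theorem prm_d2 {f : ℝ × ℝ → ℝ} (hf : Continuous f) (a b : ℝ) :
    HasDerivAt (fun x => ∫ s in (0:ℝ)..x, f (a,s)) (f (a,b)) b := by
  have hc : Continuous fun x => f (a, x) := hf.comp (continuous_const.prodMk continuous_id)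
  exact integral_hasDerivAt_right (hc.intervalIntegrable _ _)
    (hc.stronglyMeasurableAtFilter _ _) hc.continuousAt

/-- Differentiation under the integral sign. -/
theorem prm_d1 {f g : ℝ × ℝ → ℝ} (hf : Continuous f) (hg : Continuous g)
    (hd : ∀ a s, HasDerivAt (fun a => f (a,s)) (g (a,s)) a) (a b : ℝ) :
    HasDerivAt (fun x => ∫ s in (0:ℝ)..b, f (x,s)) (∫ s in (0:ℝ)..b, g (a,s)) a := by
  obtain ⟨C, hC⟩ := (isCompact_Icc (a := a - 1) (b := a + 1)).prod (isCompact_uIcc (a := (0 : ℝ))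
    (b := b)) |>.exists_bound_of_continuousOn hg.continuousOn
  refine (intervalIntegral.hasDerivAt_integral_of_dominated_loc_of_deriv_le (μ := volume)
    (F := fun x τ => f (x, τ)) (F' := fun x τ => g (x, τ)) (bound := fun _ => C)
    (s := Icc (a - 1) (a + 1)) (Icc_mem_nhds (by linarith) (by linarith)) ?_ ?_ ?_ ?_ ?_ ?_).2
  · refine Eventually.of_forall fun x => ?_
    exact (hf.comp (continuous_const.prodMk continuous_id)).aestronglyMeasurable
  · exact (hf.comp (continuous_const.prodMk continuous_id)).intervalIntegrable _ _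
  · exact (hg.comp (continuous_const.prodMk continuous_id)).aestronglyMeasurable
  · refine Eventually.of_forall fun τ hτ x hx => ?_
    exact hC (x, τ) ⟨hx, uIoc_subset_uIcc hτ⟩
  · exact intervalIntegrable_const
  · exact Eventually.of_forall fun τ _ x _ => hd x τ

theorem hasFDerivAt_prim {f g : ℝ × ℝ → ℝ} (hf : Continuous f) (hg : Continuous g)
    (hd : ∀ a s, HasDerivAt (fun a => f (a,s)) (g (a,s)) a) (z : ℝ × ℝ) :
    HasFDerivAt (fun z : ℝ × ℝ => ∫ s in (0:ℝ)..z.2, f (z.1,s))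
      ((∫ s in (0:ℝ)..z.2, g (z.1,s)) • ContinuousLinearMap.fst ℝ ℝ ℝ
        + f z • ContinuousLinearMap.snd ℝ ℝ ℝ) z :=
  prm_hasFDerivAt_of_partials (f := fun z : ℝ × ℝ => ∫ s in (0:ℝ)..z.2, f (z.1,s))
    (f1 := fun z : ℝ × ℝ => ∫ s in (0:ℝ)..z.2, g (z.1,s)) (f2 := f) (prm_continuous hg) hf
    (fun s t => prm_d1 hf hg hd s t) (fun s t => prm_d2 hf s t) z

theorem contDiff_prim_nat {f : ℝ × ℝ → ℝ} {k : ℕ} (hf : ContDiff ℝ k f) :
    ContDiff ℝ k (fun z : ℝ × ℝ => ∫ s in (0:ℝ)..z.2, f (z.1,s)) := by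
  induction k generalizing f with
  | zero => exact contDiff_zero.2 (prm_continuous hf.continuous)
  | succ n ih =>
    obtain ⟨f1, f2, hf1, hf2, hd1, hd2⟩ := prm_exists_partials n (by exact_mod_cast hf)
    have := prm_contDiff_of_partials n (f := fun z : ℝ × ℝ => ∫ s in (0:ℝ)..z.2, f (z.1,s))
      (f1 := fun z : ℝ × ℝ => ∫ s in (0:ℝ)..z.2, f1 (z.1,s)) (f2 := f) (ih hf1)
      (hf.of_le (by exact_mod_cast Nat.le_succ n))
      (fun s t => prm_d1 hf.continuous hf1.continuous hd1 s t)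
      (fun s t => prm_d2 hf.continuous s t)
    exact_mod_cast this

theorem contDiff_prim {f : ℝ × ℝ → ℝ} (hf : ContDiff ℝ ∞ f) :
    ContDiff ℝ ∞ (fun z : ℝ × ℝ => ∫ s in (0:ℝ)..z.2, f (z.1,s)) := by
  rw [contDiff_infty]
  intro n
  exact contDiff_prim_nat (contDiff_infty.1 hf n)

end Cub
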