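import Mathlib
import Pool.Agent.Lib.MP_582a01_gt.Param

/-!
The linear Goursat problem `∂_b p (a,b) = B (a,b) p (b,a)` with small compactly supported
coefficient.
-/

set_option autoImplicit false
open scoped ContDiff

namespace Cub

open MeasureTheory Set Filter Topology intervalIntegral

theorem grs_int_nonpos {f : ℝ → ℝ} (h0 : ∀ s, s ≤ 0 → f s = 0) {b : ℝ} (hb : b ≤ 0) :
    ∫ s in (0:ℝ)..b, f s = 0 := by
  rw [intervalIntegral.integral_congr (g := fun _ => (0 : ℝ))]
  · simp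
  · intro x hx
    rw [uIcc_of_ge hb] at hx
    exact h0 x hx.2

theorem grs_int_ge {η : ℝ} {f : ℝ → ℝ} (hf : Continuous f) (h0 : ∀ s, η ≤ s → f s = 0) {b : ℝ}
    (hb : η ≤ b) : ∫ s in (0:ℝ)..b, f s = ∫ s in (0:ℝ)..η, f s := by
  rw [← intervalIntegral.integral_add_adjacent_intervals (a := 0) (b := η) (c := b)
    (hf.intervalIntegrable _ _) (hf.intervalIntegrable _ _)]
  have : ∫ s in η..b, f s = 0 := by
    rw [intervalIntegral.integral_congr (g := fun _ => (0 : ℝ))]
    · simp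
    · intro x hx
      rw [uIcc_of_le hb] at hx
      exact h0 x hx.1
  rw [this, add_zero]

theorem grs_int_bound {η M : ℝ} (hη : 0 < η) {f : ℝ → ℝ} (hf : Continuous f)
    (h0 : ∀ s, s ≤ 0 → f s = 0) (h1 : ∀ s, η ≤ s → f s = 0) (hM : ∀ s, |f s| ≤ M) (b : ℝ) :
    |∫ s in (0:ℝ)..b, f s| ≤ η * M := by
  have hM0 : 0 ≤ M := (abs_nonneg _).trans (hM 0)
  have key : ∀ b, 0 ≤ b → b ≤ η → |∫ s in (0:ℝ)..b, f s| ≤ η * M := by
    intro b hb1 hb2
    have := intervalIntegral.norm_integral_le_of_norm_le_const (a := 0) (b := b) (C := M)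
      (f := f) (fun x _ => hM x)
    rw [Real.norm_eq_abs] at this
    refine this.trans ?_
    rw [sub_zero, abs_of_nonneg hb1, mul_comm]
    exact mul_le_mul_of_nonneg_right hb2 hM0
  rcases le_total b 0 with h | h
  · rw [grs_int_nonpos h0 h, abs_zero]; positivity
  · rcases le_total b η with h' | h'
    · exact key b h h'
    · rw [grs_int_ge hf h1 h']
      exact key η hη.le le_rfl

theorem grs_cont_int {B p : ℝ × ℝ → ℝ} (hB : Continuous B) (hp : Continuous p) :
    Continuous (fun z : ℝ × ℝ => B z * p (z.2, z.1)) :=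
  hB.mul (hp.comp (continuous_snd.prodMk continuous_fst))

/-- A continuous solution of the integral equation is smooth. -/
theorem grs_smooth {B p : ℝ × ℝ → ℝ} (hB : ContDiff ℝ ∞ B) (hp : Continuous p)
    (hfix : ∀ z : ℝ × ℝ, p z = 1 + ∫ s in (0:ℝ)..z.2, B (z.1,s) * p (s,z.1)) :
    ContDiff ℝ ∞ p := by
  have hBn : ∀ m : ℕ, ContDiff ℝ m B := fun m => contDiff_infty.1 hB m
  have hcf : Continuous (fun z : ℝ × ℝ => B z * p (z.2, z.1)) := grs_cont_int hB.continuous hp
  have hd2 : ∀ a b, HasDerivAt (fun x => p (a,x)) (B (a,b) * p (b,a)) b := by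
    intro a b
    have h1 := (prm_d2 hcf a b).const_add 1
    have h2 : (fun x => p (a,x))
        = fun x => 1 + ∫ s in (0:ℝ)..x, (fun z : ℝ × ℝ => B z * p (z.2, z.1)) (a,s) := by
      funext x; exact hfix (a,x)
    rw [h2]
    exact h1
  rw [contDiff_infty]
  intro n
  induction n with
  | zero => exact contDiff_zero.2 hp
  | succ n ih =>
    obtain ⟨B1, B2, hB1, -, hd1, -⟩ := prm_exists_partials n (by exact_mod_cast hBn (n + 1))
    have hsw : ContDiff ℝ n (fun z : ℝ × ℝ => p (z.2, z.1)) :=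
      ih.comp (contDiff_snd.prodMk contDiff_fst)
    have hBsw : ContDiff ℝ n (fun z : ℝ × ℝ => B (z.2, z.1)) :=
      (hBn n).comp (contDiff_snd.prodMk contDiff_fst)
    have hf : ContDiff ℝ n (fun z : ℝ × ℝ => B z * p (z.2, z.1)) := (hBn n).mul hsw
    have hg : ContDiff ℝ n (fun z : ℝ × ℝ => B1 z * p (z.2, z.1) + B z * (B (z.2, z.1) * p z)) :=
      (hB1.mul hsw).add ((hBn n).mul (hBsw.mul ih))
    have hfd : ∀ a s, HasDerivAt (fun a => (fun z : ℝ × ℝ => B z * p (z.2, z.1)) (a,s))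
        ((fun z : ℝ × ℝ => B1 z * p (z.2, z.1) + B z * (B (z.2, z.1) * p z)) (a,s)) a := by
      intro a s
      exact (hd1 a s).mul (hd2 s a)
    have key := prm_contDiff_of_partials n (f := p)
      (f1 := fun z : ℝ × ℝ => ∫ s in (0:ℝ)..z.2,
        (fun z : ℝ × ℝ => B1 z * p (z.2, z.1) + B z * (B (z.2, z.1) * p z)) (z.1,s))
      (f2 := fun z : ℝ × ℝ => B z * p (z.2, z.1)) (contDiff_prim_nat hg) hf
      (fun a b => by
        have h1 := (prm_d1 hf.continuous hg.continuous hfd a b).const_add 1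
        have h2 : (fun x => p (x,b))
            = fun x => 1 + ∫ s in (0:ℝ)..b, (fun z : ℝ × ℝ => B z * p (z.2, z.1)) (x,s) := by
          funext x; exact hfix (x,b)
        rw [h2]
        exact h1)
      (fun a b => hd2 a b)
    exact_mod_cast key

/-- Existence of a bounded continuous solution of the integral equation. -/
theorem grs_exists {η ε : ℝ} (hη : 0 < η) (hε : 0 ≤ ε) (hs : η * ε ≤ 1/4) {B : ℝ × ℝ → ℝ}
    (hB : Continuous B)
    (h0 : ∀ a b, (a ≤ 0 ∨ η ≤ a ∨ b ≤ 0 ∨ η ≤ b) → B (a,b) = 0)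
    (hb : ∀ z, |B z| ≤ ε) :
    ∃ p : ℝ × ℝ → ℝ, Continuous p ∧ (∀ z, |p z - 1| ≤ 2 * η * ε) ∧
      ∀ z : ℝ × ℝ, p z = 1 + ∫ s in (0:ℝ)..z.2, B (z.1,s) * p (s,z.1) := by
  let X := BoundedContinuousFunction (ℝ × ℝ) ℝ
  have hbd : ∀ (q : ℝ × ℝ → ℝ) (M : ℝ), Continuous q → (∀ z, |q z| ≤ M) → ∀ z : ℝ × ℝ,
      |∫ s in (0:ℝ)..z.2, B (z.1,s) * q (s,z.1)| ≤ η * (ε * M) := by
    intro q M hq hM z
    have hc : Continuous fun s => B (z.1,s) * q (s,z.1) :=
      (hB.comp (continuous_const.prodMk continuous_id)).mul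
        (hq.comp (continuous_id.prodMk continuous_const))
    refine grs_int_bound hη hc (fun s hs => ?_) (fun s hs => ?_) (fun s => ?_) z.2
    · rw [h0 z.1 s (Or.inr (Or.inr (Or.inl hs))), zero_mul]
    · rw [h0 z.1 s (Or.inr (Or.inr (Or.inr hs))), zero_mul]
    · rw [abs_mul]
      exact mul_le_mul (hb _) (hM _) (abs_nonneg _) hε
  have hbdn : ∀ (q : X) (z : ℝ × ℝ), |q z| ≤ ‖q‖ := fun q z => q.norm_coe_le_norm z
  have hcont : ∀ q : X, Continuous fun z : ℝ × ℝ =>
      1 + ∫ s in (0:ℝ)..z.2, B (z.1,s) * q (s,z.1) := fun q =>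
    continuous_const.add (prm_continuous (grs_cont_int hB q.continuous))
  let T : X → X := fun q => BoundedContinuousFunction.ofNormedAddCommGroup
    (fun z : ℝ × ℝ => 1 + ∫ s in (0:ℝ)..z.2, B (z.1,s) * q (s,z.1)) (hcont q)
    (1 + η * (ε * ‖q‖)) (fun z => by
      rw [Real.norm_eq_abs]
      refine (abs_add_le _ _).trans ?_
      rw [abs_one]
      exact add_le_add le_rfl (hbd q ‖q‖ q.continuous (hbdn q) z))
  have hTz : ∀ (q : X) (z : ℝ × ℝ), T q z = 1 + ∫ s in (0:ℝ)..z.2, B (z.1,s) * q (s,z.1) :=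
    fun q z => rfl
  have hT : ContractingWith (1/4 : NNReal) T := by
    refine ⟨?_, LipschitzWith.of_dist_le_mul fun q r => ?_⟩
    · rw [← NNReal.coe_lt_coe]; norm_num
    · rw [BoundedContinuousFunction.dist_le (by positivity)]
      intro z
      rw [hTz, hTz, Real.dist_eq]
      have e1 : (1 + ∫ s in (0:ℝ)..z.2, B (z.1,s) * q (s,z.1))
          - (1 + ∫ s in (0:ℝ)..z.2, B (z.1,s) * r (s,z.1))
          = ∫ s in (0:ℝ)..z.2, B (z.1,s) * (q - r) (s,z.1) := by
        have hq : Continuous fun s => B (z.1,s) * q (s,z.1) :=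
          (hB.comp (continuous_const.prodMk continuous_id)).mul
            (q.continuous.comp (continuous_id.prodMk continuous_const))
        have hr : Continuous fun s => B (z.1,s) * r (s,z.1) :=
          (hB.comp (continuous_const.prodMk continuous_id)).mul
            (r.continuous.comp (continuous_id.prodMk continuous_const))
        rw [add_sub_add_left_eq_sub, ← intervalIntegral.integral_sub
          (hq.intervalIntegrable _ _) (hr.intervalIntegrable _ _)]
        refine intervalIntegral.integral_congr fun s _ => ?_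
        show B (z.1,s) * q (s,z.1) - B (z.1,s) * r (s,z.1)
          = B (z.1,s) * (q (s,z.1) - r (s,z.1))
        ring
      rw [e1]
      refine (hbd (q - r) ‖q - r‖ (q - r).continuous (hbdn (q - r)) z).trans ?_
      rw [← dist_eq_norm, ← mul_assoc]
      refine mul_le_mul_of_nonneg_right ?_ dist_nonneg
      refine hs.trans ?_
      norm_num
  have : Nonempty X := ⟨0⟩
  let p : X := ContractingWith.fixedPoint T hT
  have hfix : T p = p := hT.fixedPoint_isFixedPt
  have hfixz : ∀ z : ℝ × ℝ, p z = 1 + ∫ s in (0:ℝ)..z.2, B (z.1,s) * p (s,z.1) := by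
    intro z
    rw [← hTz, hfix]
  have hnorm : ‖p‖ ≤ 2 := by
    have h1 : ‖p‖ ≤ 1 + (1/4) * ‖p‖ := by
      rw [BoundedContinuousFunction.norm_le (by positivity)]
      intro z
      rw [hfixz z, Real.norm_eq_abs]
      refine (abs_add_le _ _).trans ?_
      rw [abs_one]
      refine add_le_add le_rfl ((hbd p ‖p‖ p.continuous (hbdn p) z).trans ?_)
      rw [← mul_assoc]
      exact mul_le_mul_of_nonneg_right hs (norm_nonneg _)
    linarith
  refine ⟨p, p.continuous, fun z => ?_, hfixz⟩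
  have h2 := hbd p 2 p.continuous (fun z => (hbdn p z).trans hnorm) z
  rw [hfixz z, add_sub_cancel_left]
  refine h2.trans (le_of_eq ?_)
  ring

theorem goursat {η ε : ℝ} (hη : 0 < η) (hε : 0 ≤ ε) (hs : η * ε ≤ 1/4) {B : ℝ × ℝ → ℝ}
    (hB : ContDiff ℝ ∞ B)
    (h0 : ∀ a b, (a ≤ 0 ∨ η ≤ a ∨ b ≤ 0 ∨ η ≤ b) → B (a,b) = 0)
    (hb : ∀ z, |B z| ≤ ε) :
    ∃ p : ℝ × ℝ → ℝ, ContDiff ℝ ∞ p ∧
      (∀ a b, HasDerivAt (fun b => p (a,b)) (B (a,b) * p (b,a)) b) ∧
      (∀ a b, (b ≤ 0 ∨ a ≤ 0 ∨ η ≤ a) → p (a,b) = 1) ∧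
      (∀ a b, η ≤ b → p (a,b) = p (a,η)) ∧
      (∀ z, |p z - 1| ≤ 2 * η * ε) := by
  obtain ⟨p, hp, hbd, hfix⟩ := grs_exists hη hε hs hB.continuous h0 hb
  have hcf : Continuous (fun z : ℝ × ℝ => B z * p (z.2, z.1)) := grs_cont_int hB.continuous hp
  refine ⟨p, grs_smooth hB hp hfix, fun a b => ?_, fun a b hab => ?_, fun a b hab => ?_, hbd⟩
  · have h1 := (prm_d2 hcf a b).const_add 1
    have h2 : (fun x => p (a,x))
        = fun x => 1 + ∫ s in (0:ℝ)..x, (fun z : ℝ × ℝ => B z * p (z.2, z.1)) (a,s) := by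
      funext x; exact hfix (a,x)
    rw [h2]
    exact h1
  · rw [hfix (a,b)]
    simp only
    rcases hab with h | h | h
    · rw [grs_int_nonpos (fun s hs => by
        rw [h0 a s (Or.inr (Or.inr (Or.inl hs))), zero_mul]) h, add_zero]
    · have : ∀ s, B (a,s) = 0 := fun s => h0 a s (Or.inl h)
      simp [this]
    · have : ∀ s, B (a,s) = 0 := fun s => h0 a s (Or.inr (Or.inl h))
      simp [this]
  · rw [hfix (a,b), hfix (a,η)]
    simp only
    have hc : Continuous fun s => B (a,s) * p (s,a) :=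
      (hB.continuous.comp (continuous_const.prodMk continuous_id)).mul
        (hp.comp (continuous_id.prodMk continuous_const))
    rw [grs_int_ge hc (fun s hs => by
      rw [h0 a s (Or.inr (Or.inr (Or.inr hs))), zero_mul]) hab]

end Cub
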