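import Mathlib
import Pool.Agent.Lib.MP_582a01_gt.Param
import Pool.Agent.Lib.MP_582a01_gt.GoursatP

/-!
The linear Goursat problem `∂_b P (a,b) = A (a,b) P (a,b) + B (a,b) P (b,a)` with small compactly
supported coefficients.
-/

set_option autoImplicit false
open scoped ContDiff

namespace Cub

open MeasureTheory Set Filter Topology intervalIntegral

theorem goursat2 {η ε : ℝ} (hη : 0 < η) (hε : 0 ≤ ε) (hs : η * ε ≤ 1/64) {A B : ℝ × ℝ → ℝ}
    (hA : ContDiff ℝ ∞ A) (hB : ContDiff ℝ ∞ B)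
    (hA0 : ∀ a b, (a ≤ 0 ∨ η ≤ a ∨ b ≤ 0 ∨ η ≤ b) → A (a,b) = 0)
    (hB0 : ∀ a b, (a ≤ 0 ∨ η ≤ a ∨ b ≤ 0 ∨ η ≤ b) → B (a,b) = 0)
    (hAb : ∀ z, |A z| ≤ ε) (hBb : ∀ z, |B z| ≤ ε) :
    ∃ P : ℝ × ℝ → ℝ, ContDiff ℝ ∞ P ∧
      (∀ a b, HasDerivAt (fun b => P (a,b)) (A (a,b) * P (a,b) + B (a,b) * P (b,a)) b) ∧
      (∀ a b, (b ≤ 0 ∨ a ≤ 0 ∨ η ≤ a) → P (a,b) = 1) ∧
      (∀ a b, η ≤ b → P (a,b) = P (a,η)) ∧
      (∀ z, |P z - 1| ≤ 1/8) := by
  set L : ℝ × ℝ → ℝ := fun z => ∫ s in (0:ℝ)..z.2, A (z.1,s) with hL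
  have hLs : ContDiff ℝ ∞ L := contDiff_prim hA
  have hAc : ∀ a, Continuous fun s => A (a,s) := fun a =>
    hA.continuous.comp (continuous_const.prodMk continuous_id)
  have hLb : ∀ z, |L z| ≤ 1/64 := fun z =>
    (grs_int_bound hη (hAc z.1) (fun s h => hA0 _ _ (Or.inr (Or.inr (Or.inl h))))
      (fun s h => hA0 _ _ (Or.inr (Or.inr (Or.inr h)))) (fun s => hAb _) z.2).trans hs
  have hL0 : ∀ a b, (b ≤ 0 ∨ a ≤ 0 ∨ η ≤ a) → L (a,b) = 0 := by
    intro a b h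
    rcases h with h | h | h
    · exact grs_int_nonpos (fun s hs => hA0 _ _ (Or.inr (Or.inr (Or.inl hs)))) h
    · show ∫ s in (0:ℝ)..b, A (a,s) = 0
      simp [hA0 a _ (Or.inl h)]
    · show ∫ s in (0:ℝ)..b, A (a,s) = 0
      simp [hA0 a _ (Or.inr (Or.inl h))]
  have hL1 : ∀ a b, η ≤ b → L (a,b) = L (a,η) := fun a b h =>
    grs_int_ge (hAc a) (fun s hs => hA0 _ _ (Or.inr (Or.inr (Or.inr hs)))) h
  have hEb : ∀ z, |Real.exp (L z) - 1| ≤ 1/32 := by
    intro z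
    have h1 := Real.abs_exp_sub_one_le (x := L z) ((hLb z).trans (by norm_num))
    have h2 := hLb z
    linarith
  have hEu : ∀ z, Real.exp (L z) ≤ 33/32 := fun z => by
    have := (abs_le.1 (hEb z)).2
    linarith
  have hEl : ∀ z, 31/32 ≤ Real.exp (L z) := fun z => by
    have := (abs_le.1 (hEb z)).1
    linarith
  have hEs : ContDiff ℝ ∞ fun z => Real.exp (L z) := hLs.exp
  have hsw : ContDiff ℝ ∞ fun z : ℝ × ℝ => (z.2, z.1) := contDiff_snd.prodMk contDiff_fst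
  have hEsw : ContDiff ℝ ∞ fun z : ℝ × ℝ => Real.exp (L (z.2, z.1)) := hEs.comp hsw
  obtain ⟨p, hp, hd, hp0, hp1, hpb⟩ := goursat (η := η) (ε := 2 * ε) hη (by positivity)
    (by linarith) (B := fun z => B z * (Real.exp (L (z.2, z.1)) / Real.exp (L z)))
    (hB.mul (hEsw.div hEs fun z => (Real.exp_pos _).ne'))
    (fun a b h => by simp [hB0 a b h])
    (fun z => by
      rw [abs_mul, mul_comm]
      refine mul_le_mul ?_ (hBb z) (abs_nonneg _) (by norm_num)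
      rw [abs_of_pos (div_pos (Real.exp_pos _) (Real.exp_pos _)), div_le_iff₀ (Real.exp_pos _)]
      have h1 := hEu (z.2, z.1)
      have h2 := hEl z
      linarith)
  refine ⟨fun z => Real.exp (L z) * p z, hEs.mul hp, fun a b => ?_, fun a b h => ?_,
    fun a b h => ?_, fun z => ?_⟩
  · have h1 : HasDerivAt (fun b => L (a,b)) (A (a,b)) b := prm_d2 hA.continuous a b
    have h2 := h1.exp.mul (hd a b)
    refine h2.congr_deriv ?_
    have h3 := (Real.exp_pos (L (a,b))).ne'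
    field_simp
  · simp only [hL0 a b h, hp0 a b h, Real.exp_zero, mul_one]
  · simp only [hL1 a b h, hp1 a b h]
  · have h1 := hpb z
    have h2 : Real.exp (L z) * p z - 1 = Real.exp (L z) * (p z - 1) + (Real.exp (L z) - 1) := by
      ring
    show |Real.exp (L z) * p z - 1| ≤ 1/8
    rw [h2]
    refine (abs_add_le _ _).trans ?_
    rw [abs_mul, abs_of_pos (Real.exp_pos _)]
    have h3 := hEb z
    have h4 : Real.exp (L z) * |p z - 1| ≤ 33/32 * (1/16) := by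
      refine mul_le_mul (hEu z) ?_ (abs_nonneg _) (by norm_num)
      linarith
    linarith

end Cub
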