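import Mathlib
import Pool.Agent.Lib.MP_582a01_gt.Defs
import Pool.Agent.Lib.MP_582a01_gt.Param
import Pool.Agent.Lib.MP_582a01_gt.Goursat2

set_option autoImplicit false
open scoped ContDiff

namespace Cub

/-! ## Module XMap -/

/-- derivative of `a ↦ mu (a,b)` -/
private theorem xm_hasDeriv {mu : ℝ × ℝ → ℝ} (hmu : ContDiff ℝ ∞ mu) (a b : ℝ) :
    HasDerivAt (fun a => mu (a,b)) (fderiv ℝ mu (a,b) (1,0)) a := by
  have h1 : HasFDerivAt mu (fderiv ℝ mu (a,b)) (a,b) :=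
    ((hmu.differentiable (by simp)) (a,b)).hasFDerivAt
  have h2 : HasDerivAt (fun a : ℝ => ((a,b) : ℝ × ℝ)) ((1,0) : ℝ × ℝ) a :=
    (hasDerivAt_id a).prodMk (hasDerivAt_const a b)
  exact h1.comp_hasDerivAt a h2

private theorem xm_D_zero {mu : ℝ × ℝ → ℝ} {c : ℝ → ℝ} (hW : Waves mu c) (a b : ℝ)
    (h : a ≤ 0 ∨ 1/20 ≤ a ∨ b ≤ 0 ∨ 1/20 ≤ b) : fderiv ℝ mu (a,b) (1,0) = 0 := by
  have hd := xm_hasDeriv hW.smooth a b
  rcases h with h | h | h
  · have h1 : HasDerivWithinAt (fun a => mu (a,b)) (fderiv ℝ mu (a,b) (1,0)) (Set.Iic a) a :=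
      hd.hasDerivWithinAt
    have h2 : HasDerivWithinAt (fun a => mu (a,b)) 0 (Set.Iic a) a := by
      refine (hasDerivWithinAt_const a (Set.Iic a) (mu (0,b))).congr_of_mem ?_ ?_
      · intro x hx
        exact hW.const x b (Or.inl (le_trans hx h))
      · exact Set.self_mem_Iic
    exact (uniqueDiffWithinAt_Iic a).eq_deriv _ h1 h2
  · have h1 : HasDerivWithinAt (fun a => mu (a,b)) (fderiv ℝ mu (a,b) (1,0)) (Set.Ici a) a :=
      hd.hasDerivWithinAt
    have h2 : HasDerivWithinAt (fun a => mu (a,b)) 0 (Set.Ici a) a := by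
      refine (hasDerivWithinAt_const a (Set.Ici a) (mu (0,b))).congr_of_mem ?_ ?_
      · intro x hx
        exact hW.const x b (Or.inr (le_trans h hx))
      · exact Set.self_mem_Ici
    exact (uniqueDiffWithinAt_Ici a).eq_deriv _ h1 h2
  · have h2 : HasDerivAt (fun a => mu (a,b)) 0 a := by
      have h3 : (fun a => mu (a,b)) = fun _ => (0:ℝ) := by
        funext x
        exact hW.zero x b h
      rw [h3]
      exact hasDerivAt_const a 0
    exact hd.unique h2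

private theorem xm_den {mu : ℝ × ℝ → ℝ} {c : ℝ → ℝ} (hW : Waves mu c) (a b : ℝ) :
    1/2 ≤ 1 - mu (a,b) * mu (b,a) := by
  have h1 := abs_le.mp (hW.bound (a,b))
  have h2 := abs_le.mp (hW.bound (b,a))
  nlinarith [h1.1, h1.2, h2.1, h2.2, abs_le.mp (show |mu (a,b) * mu (b,a)| ≤ 1/20 * (1/20) from by
    rw [abs_mul]
    exact mul_le_mul (hW.bound _) (hW.bound _) (abs_nonneg _) (by norm_num))]

theorem xmap {mu : ℝ × ℝ → ℝ} {c : ℝ → ℝ} (hW : Waves mu c) :
    ∃ X1 P : ℝ × ℝ → ℝ, ContDiff ℝ ∞ X1 ∧ ContDiff ℝ ∞ P ∧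
      (∀ a b, HasDerivAt (fun a => X1 (a,b)) (P (a,b)) a) ∧
      (∀ a b, HasDerivAt (fun b => X1 (a,b)) (mu (a,b) * P (b,a)) b) ∧
      (∀ z, |P z - 1| ≤ 1/8) ∧
      (∀ a b, b ≤ 0 → X1 (a,b) = a) ∧
      (∀ a b, 1/20 ≤ b → X1 (a,b) = X1 (a,1/20)) ∧
      (∀ a b, |X1 (a,b) - a| ≤ 1/100) := by
  have hmu := hW.smooth
  have hsw : ContDiff ℝ ∞ (fun z : ℝ × ℝ => ((z.2, z.1) : ℝ × ℝ)) := contDiff_snd.prodMk contDiff_fst
  -- the coefficients
  let D : ℝ × ℝ → ℝ := fun z => fderiv ℝ mu z (1,0)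
  have hD : ContDiff ℝ ∞ D := by
    have h1 : ContDiff ℝ ∞ (fderiv ℝ mu) := hmu.fderiv_right (by simp)
    exact h1.clm_apply contDiff_const
  let B : ℝ × ℝ → ℝ := fun z => D z / (1 - mu z * mu (z.2, z.1))
  have hBdef : ∀ a b, B (a,b) = D (a,b) / (1 - mu (a,b) * mu (b,a)) := fun a b => rfl
  let A : ℝ × ℝ → ℝ := fun z => mu z * B (z.2, z.1)
  have hAdef : ∀ a b, A (a,b) = mu (a,b) * B (b,a) := fun a b => rfl
  have hden : ∀ z : ℝ × ℝ, 1/2 ≤ 1 - mu z * mu (z.2, z.1) := fun z => xm_den hW z.1 z.2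
  have hB : ContDiff ℝ ∞ B := by
    refine hD.div (contDiff_const.sub (hmu.mul (hmu.comp hsw))) ?_
    intro z hz
    have := hden z
    linarith
  have hA : ContDiff ℝ ∞ A := hmu.mul (hB.comp hsw)
  have hB0 : ∀ a b, (a ≤ 0 ∨ 1/20 ≤ a ∨ b ≤ 0 ∨ 1/20 ≤ b) → B (a,b) = 0 := by
    intro a b h
    rw [hBdef]
    have : D (a,b) = 0 := xm_D_zero hW a b h
    rw [this, zero_div]
  have hA0 : ∀ a b, (a ≤ 0 ∨ 1/20 ≤ a ∨ b ≤ 0 ∨ 1/20 ≤ b) → A (a,b) = 0 := by
    intro a b h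
    rw [hAdef, hB0 b a (by tauto), mul_zero]
  have hBb : ∀ z, |B z| ≤ 1/10 := by
    intro z
    have h1 := hden z
    have h2 : |D z| ≤ 1/20 := hW.dbound z
    have h3 : |B z| = |D z| / (1 - mu z * mu (z.2, z.1)) := by
      show |D z / (1 - mu z * mu (z.2, z.1))| = _
      rw [abs_div, abs_of_pos (by linarith : 0 < 1 - mu z * mu (z.2, z.1))]
    rw [h3, div_le_iff₀ (by linarith)]
    linarith
  have hAb : ∀ z, |A z| ≤ 1/10 := by
    intro z
    show |mu z * B (z.2, z.1)| ≤ 1/10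
    rw [abs_mul]
    have h1 := hW.bound z
    have h2 := hBb (z.2, z.1)
    have h3 := abs_nonneg (mu z)
    have h4 := abs_nonneg (B (z.2, z.1))
    nlinarith
  obtain ⟨P, hP, hPb, hP1, -, hPbd⟩ := goursat2 (η := 1/20) (ε := 1/10) (by norm_num) (by norm_num)
    (by norm_num) hA hB hA0 hB0 hAb hBb
  have hPsw : ContDiff ℝ ∞ (fun z : ℝ × ℝ => P (z.2, z.1)) := hP.comp hsw
  let f : ℝ × ℝ → ℝ := fun z => mu z * P (z.2, z.1)
  have hf : ContDiff ℝ ∞ f := hmu.mul hPsw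
  let g : ℝ × ℝ → ℝ := fun z => A z * P z + B z * P (z.2, z.1)
  have hg : ContDiff ℝ ∞ g := (hA.mul hP).add (hB.mul hPsw)
  have hfd : ∀ a s, HasDerivAt (fun a => f (a,s)) (g (a,s)) a := by
    intro a s
    have h1 := xm_hasDeriv hmu a s
    have h2 := hPb s a
    have h3 : HasDerivAt (fun a => mu (a,s) * P (s,a))
        (fderiv ℝ mu (a,s) (1,0) * P (s,a) + mu (a,s) * (A (s,a) * P (s,a) + B (s,a) * P (a,s))) a :=
      h1.mul h2
    have h4 : g (a,s) = fderiv ℝ mu (a,s) (1,0) * P (s,a)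
        + mu (a,s) * (A (s,a) * P (s,a) + B (s,a) * P (a,s)) := by
      show A (a,s) * P (a,s) + B (a,s) * P (s,a) = _
      have h5 : A (a,s) = mu (a,s) * B (s,a) := hAdef a s
      have h6 : A (s,a) = mu (s,a) * B (a,s) := hAdef s a
      have h7 := xm_den hW a s
      have h8 : B (a,s) * (1 - mu (a,s) * mu (s,a)) = fderiv ℝ mu (a,s) (1,0) := by
        rw [hBdef]
        exact div_mul_cancel₀ _ (by linarith)
      rw [← h8, h5, h6]
      ring
    rw [h4]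
    exact h3
  have hgint : ∀ a b, (∫ s in (0:ℝ)..b, g (a,s)) = P (a,b) - 1 := by
    intro a b
    have h1 : (∫ s in (0:ℝ)..b, g (a,s)) = P (a,b) - P (a,0) := by
      refine intervalIntegral.integral_eq_sub_of_hasDerivAt (f := fun s => P (a,s)) ?_ ?_
      · intro s _
        exact hPb a s
      · exact (hg.continuous.comp (by fun_prop : Continuous fun s : ℝ => ((a,s) : ℝ × ℝ))).intervalIntegrable 0 b
    rw [h1, hP1 a 0 (Or.inl le_rfl)]
  have hprim := hasFDerivAt_prim hf.continuous hg.continuous hfd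
  let X1 : ℝ × ℝ → ℝ := fun z => z.1 + ∫ s in (0:ℝ)..z.2, f (z.1,s)
  have hX1def : ∀ a b, X1 (a,b) = a + ∫ s in (0:ℝ)..b, f (a,s) := fun a b => rfl
  have hf0 : ∀ a s, (s ≤ 0 ∨ 1/20 ≤ s) → f (a,s) = 0 := by
    intro a s h
    show mu (a,s) * P (s,a) = 0
    rw [hW.zero a s h, zero_mul]
  have hfint : ∀ a u v, IntervalIntegrable (fun s => f (a,s)) MeasureTheory.volume u v := by
    intro a u v
    exact (hf.continuous.comp (by fun_prop : Continuous fun s : ℝ => ((a,s) : ℝ × ℝ))).intervalIntegrable u v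
  have hlow : ∀ a b, b ≤ 0 → X1 (a,b) = a := by
    intro a b hb
    rw [hX1def]
    have h1 : (∫ s in (0:ℝ)..b, f (a,s)) = ∫ s in (0:ℝ)..b, (0:ℝ) := by
      refine intervalIntegral.integral_congr ?_
      intro s hs
      rw [Set.uIcc_of_ge hb] at hs
      exact hf0 a s (Or.inl hs.2)
    rw [h1]
    simp
  have hhigh : ∀ a b, 1/20 ≤ b → X1 (a,b) = X1 (a,1/20) := by
    intro a b hb
    rw [hX1def, hX1def]
    have h1 : (∫ s in (1/20:ℝ)..b, f (a,s)) = ∫ s in (1/20:ℝ)..b, (0:ℝ) := by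
      refine intervalIntegral.integral_congr ?_
      intro s hs
      rw [Set.uIcc_of_le hb] at hs
      exact hf0 a s (Or.inr hs.1)
    have h2 := intervalIntegral.integral_add_adjacent_intervals (hfint a 0 (1/20)) (hfint a (1/20) b)
    rw [← h2, h1]
    simp
  refine ⟨X1, P, contDiff_fst.add (contDiff_prim hf), hP, ?_, ?_, hPbd, hlow, hhigh, ?_⟩
  · intro a b
    have h0 : HasDerivAt (fun a : ℝ => ((a,b) : ℝ × ℝ)) ((1,0) : ℝ × ℝ) a :=
      (hasDerivAt_id a).prodMk (hasDerivAt_const a b)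
    have h1 : HasDerivAt (fun a => ∫ s in (0:ℝ)..b, f (a,s))
        (((∫ s in (0:ℝ)..b, g (a,s)) • ContinuousLinearMap.fst ℝ ℝ ℝ
          + f (a,b) • ContinuousLinearMap.snd ℝ ℝ ℝ) (1,0)) a := by
      have h1' := HasFDerivAt.comp_hasDerivAt (f := fun a : ℝ => ((a,b) : ℝ × ℝ)) a
        (hprim (a,b)) h0
      exact h1'
    have h2 : HasDerivAt (fun a => ∫ s in (0:ℝ)..b, f (a,s)) (P (a,b) - 1) a := by
      rw [← hgint a b]
      have h3 : ((∫ s in (0:ℝ)..b, g (a,s)) • ContinuousLinearMap.fst ℝ ℝ ℝ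
          + f (a,b) • ContinuousLinearMap.snd ℝ ℝ ℝ) ((1,0) : ℝ × ℝ)
          = ∫ s in (0:ℝ)..b, g (a,s) := by simp
      rw [← h3]
      exact h1
    have h3 := (hasDerivAt_id a).add h2
    have h4 : (1 : ℝ) + (P (a,b) - 1) = P (a,b) := by ring
    rw [h4] at h3
    exact h3
  · intro a b
    have h0 : HasDerivAt (fun b : ℝ => ((a,b) : ℝ × ℝ)) ((0,1) : ℝ × ℝ) b :=
      (hasDerivAt_const b a).prodMk (hasDerivAt_id b)
    have h1 : HasDerivAt (fun b => ∫ s in (0:ℝ)..b, f (a,s))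
        (((∫ s in (0:ℝ)..b, g (a,s)) • ContinuousLinearMap.fst ℝ ℝ ℝ
          + f (a,b) • ContinuousLinearMap.snd ℝ ℝ ℝ) (0,1)) b :=
      (hprim (a,b)).comp_hasDerivAt b h0
    have h2 : HasDerivAt (fun b => ∫ s in (0:ℝ)..b, f (a,s)) (mu (a,b) * P (b,a)) b := by
      have h3 : ((∫ s in (0:ℝ)..b, g (a,s)) • ContinuousLinearMap.fst ℝ ℝ ℝ
          + f (a,b) • ContinuousLinearMap.snd ℝ ℝ ℝ) ((0,1) : ℝ × ℝ)
          = mu (a,b) * P (b,a) := by
        simp
        rfl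
      rw [← h3]
      exact h1
    exact h2.const_add a
  · intro a b
    have key : ∀ b, 0 ≤ b → b ≤ 1/20 → |X1 (a,b) - a| ≤ 1/100 := by
      intro b hb0 hb1
      rw [hX1def]
      have h1 : a + (∫ s in (0:ℝ)..b, f (a,s)) - a = ∫ s in (0:ℝ)..b, f (a,s) := by ring
      rw [h1]
      have h2 : ‖∫ s in (0:ℝ)..b, f (a,s)‖ ≤ (9/160) * |b - 0| := by
        refine intervalIntegral.norm_integral_le_of_norm_le_const ?_
        intro s _
        show ‖mu (a,s) * P (s,a)‖ ≤ 9/160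
        rw [Real.norm_eq_abs, abs_mul]
        have h3 := hW.bound (a,s)
        have h4 := abs_le.mp (hPbd (s,a))
        have h5 : |P (s,a)| ≤ 9/8 := by
          rw [abs_le]
          constructor <;> linarith [h4.1, h4.2]
        calc |mu (a,s)| * |P (s,a)| ≤ (1/20) * (9/8) :=
              mul_le_mul h3 h5 (abs_nonneg _) (by norm_num)
          _ = 9/160 := by norm_num
      rw [Real.norm_eq_abs] at h2
      have h3 : |b - 0| ≤ 1/20 := by
        rw [sub_zero, abs_of_nonneg hb0]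
        exact hb1
      linarith
    rcases le_total b 0 with hb | hb
    · rw [hlow a b hb]
      simp
    · rcases le_total b (1/20) with hb2 | hb2
      · exact key b hb hb2
      · rw [hhigh a b hb2]
        exact key (1/20) (by norm_num) le_rfl

end Cub
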