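import Mathlib
import Pool.Agent.Lib.MP_582a01_gt.Defs
import Pool.Agent.Lib.MP_582a01_gt.XMap
import Pool.Agent.Lib.MP_582a01_gt.Inv

/-!
# The characteristic coordinates (MP_582a01_gt, module Chart, helper75)
-/

set_option autoImplicit false
open scoped ContDiff

namespace Cub

private theorem chart_fderiv {f : ℝ × ℝ → ℝ} (hf : ContDiff ℝ ∞ f) {a b p q : ℝ}
    (h1 : HasDerivAt (fun a => f (a, b)) p a) (h2 : HasDerivAt (fun b => f (a, b)) q b)
    (v : ℝ × ℝ) : fderiv ℝ f (a, b) v = p * v.1 + q * v.2 := by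
  have hd : HasFDerivAt f (fderiv ℝ f (a, b)) (a, b) :=
    ((hf.differentiable (by simp)) (a, b)).hasFDerivAt
  have e1 : fderiv ℝ f (a, b) (1, 0) = p := by
    have h3 : HasDerivAt (fun a : ℝ => (a, b)) ((1 : ℝ), (0 : ℝ)) a :=
      (hasDerivAt_id a).prodMk (hasDerivAt_const a b)
    have h4 : HasDerivAt (fun a => f (a, b)) (fderiv ℝ f (a, b) (1, 0)) a :=
      HasFDerivAt.comp_hasDerivAt (f := fun a : ℝ => (a, b)) a hd h3
    exact h4.unique h1
  have e2 : fderiv ℝ f (a, b) (0, 1) = q := by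
    have h3 : HasDerivAt (fun b : ℝ => (a, b)) ((0 : ℝ), (1 : ℝ)) b :=
      (hasDerivAt_const b a).prodMk (hasDerivAt_id b)
    have h4 : HasDerivAt (fun b => f (a, b)) (fderiv ℝ f (a, b) (0, 1)) b :=
      HasFDerivAt.comp_hasDerivAt (f := fun b : ℝ => (a, b)) b hd h3
    exact h4.unique h2
  have e3 : v = v.1 • ((1 : ℝ), (0 : ℝ)) + v.2 • ((0 : ℝ), (1 : ℝ)) := by
    ext <;> simp
  calc fderiv ℝ f (a, b) v
      = fderiv ℝ f (a, b) (v.1 • ((1 : ℝ), (0 : ℝ)) + v.2 • ((0 : ℝ), (1 : ℝ))) := by rw [← e3]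
    _ = p * v.1 + q * v.2 := by
        rw [map_add, map_smul, map_smul, e1, e2, smul_eq_mul, smul_eq_mul]; ring

theorem exists_chart {mu : ℝ × ℝ → ℝ} {c : ℝ → ℝ} (hW : Waves mu c) :
    ∃ (X Y : ℝ × ℝ → ℝ × ℝ) (P : ℝ × ℝ → ℝ), Chart mu X Y P := by
  obtain ⟨X1, P, hX1, hP, ha, hb, hP1, hlow, hhigh, hnear⟩ := xmap hW
  obtain ⟨X, hXdef⟩ : ∃ X : ℝ × ℝ → ℝ × ℝ, X = fun z => (X1 z, X1 (z.2, z.1)) := ⟨_, rfl⟩
  have hXab : ∀ a b, X (a, b) = (X1 (a, b), X1 (b, a)) := fun a b => by rw [hXdef]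
  have hswap : ContDiff ℝ ∞ (fun z : ℝ × ℝ => (z.2, z.1)) := contDiff_snd.prodMk contDiff_fst
  have hX2 : ContDiff ℝ ∞ (fun z : ℝ × ℝ => X1 (z.2, z.1)) := hX1.comp hswap
  have hX : ContDiff ℝ ∞ X := by
    rw [hXdef]
    exact hX1.prodMk hX2
  have hnorm : ∀ z, ‖fderiv ℝ X z - ContinuousLinearMap.id ℝ (ℝ × ℝ)‖ ≤ 1/2 := by
    rintro ⟨a, b⟩
    refine ContinuousLinearMap.opNorm_le_bound _ (by norm_num) fun v => ?_
    have h1 : ∀ w, fderiv ℝ X1 (a, b) w = P (a, b) * w.1 + mu (a, b) * P (b, a) * w.2 :=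
      fun w => chart_fderiv hX1 (ha a b) (hb a b) w
    have h2 : ∀ w, fderiv ℝ (fun z : ℝ × ℝ => X1 (z.2, z.1)) (a, b) w =
        mu (b, a) * P (a, b) * w.1 + P (b, a) * w.2 :=
      fun w => chart_fderiv hX2 (hb b a) (ha b a) w
    have h3 : fderiv ℝ X (a, b) v = (fderiv ℝ X1 (a, b) v,
        fderiv ℝ (fun z : ℝ × ℝ => X1 (z.2, z.1)) (a, b) v) := by
      have d1 : HasFDerivAt X1 (fderiv ℝ X1 (a, b)) (a, b) :=
        ((hX1.differentiable (by simp)) (a, b)).hasFDerivAt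
      have d2 : HasFDerivAt (fun z : ℝ × ℝ => X1 (z.2, z.1))
          (fderiv ℝ (fun z : ℝ × ℝ => X1 (z.2, z.1)) (a, b)) (a, b) :=
        ((hX2.differentiable (by simp)) (a, b)).hasFDerivAt
      have d3 : HasFDerivAt X ((fderiv ℝ X1 (a, b)).prod
          (fderiv ℝ (fun z : ℝ × ℝ => X1 (z.2, z.1)) (a, b))) (a, b) := by
        rw [hXdef]
        exact d1.prodMk d2
      rw [d3.fderiv]
      rfl
    have h4 : (fderiv ℝ X (a, b) - ContinuousLinearMap.id ℝ (ℝ × ℝ)) v =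
        ((P (a, b) - 1) * v.1 + mu (a, b) * P (b, a) * v.2,
          mu (b, a) * P (a, b) * v.1 + (P (b, a) - 1) * v.2) := by
      rw [sub_apply, h3, h1, h2, ContinuousLinearMap.id_apply]
      ext
      · simp only [Prod.fst_sub]; ring
      · simp only [Prod.snd_sub]; ring
    rw [h4, Prod.norm_def]
    have hv1 : |v.1| ≤ ‖v‖ := norm_fst_le v
    have hv2 : |v.2| ≤ ‖v‖ := norm_snd_le v
    have hv0 : 0 ≤ ‖v‖ := norm_nonneg v
    have key : ∀ p m q x y : ℝ, |p - 1| ≤ 1/8 → |m| ≤ 1/20 → |q - 1| ≤ 1/8 →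
        |x| ≤ ‖v‖ → |y| ≤ ‖v‖ → |(p - 1) * x + m * q * y| ≤ 1/2 * ‖v‖ := by
      intro p m q x y hp hm hq hx hy
      have hq' : |q| ≤ 9/8 := by
        have := abs_le.1 hq
        rw [abs_le]; constructor <;> linarith
      have e1 : |(p - 1) * x| ≤ 1/8 * ‖v‖ := by
        rw [abs_mul]
        exact mul_le_mul hp hx (abs_nonneg _) (by norm_num)
      have e2 : |m * q| ≤ 1/20 * (9/8) := by
        rw [abs_mul]
        exact mul_le_mul hm hq' (abs_nonneg _) (by norm_num)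
      have e3 : |m * q * y| ≤ 1/20 * (9/8) * ‖v‖ := by
        rw [abs_mul]
        exact mul_le_mul e2 hy (abs_nonneg _) (by norm_num)
      refine (abs_add_le _ _).trans ?_
      linarith
    refine max_le ?_ ?_
    · rw [Real.norm_eq_abs]
      exact key _ _ _ _ _ (hP1 _) (hW.bound _) (hP1 _) hv1 hv2
    · rw [Real.norm_eq_abs]
      show |mu (b, a) * P (a, b) * v.1 + (P (b, a) - 1) * v.2| ≤ 1/2 * ‖v‖
      rw [add_comm]
      exact key _ _ _ _ _ (hP1 _) (hW.bound _) (hP1 _) hv2 hv1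
  obtain ⟨Y, hY, hXY, hYX⟩ := global_inverse hX hnorm
  refine ⟨X, Y, P, ?_⟩
  refine
    { smoothX := hX
      smoothY := hY
      XY := hXY
      YX := hYX
      da := ?_
      db := ?_
      Ppos := ?_
      symm := ?_
      low := ?_
      high := ?_
      near := ?_ }
  · intro a b
    rw [hXdef]
    exact (ha a b).prodMk (hb b a)
  · intro a b
    rw [hXdef]
    exact (hb a b).prodMk (ha b a)
  · intro z
    have := (abs_le.1 (hP1 z)).1
    linarith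
  · intro a b
    rw [hXab, hXab]
  · intro a b hb0
    rw [hXab]
    exact hlow a b hb0
  · intro a b hb1
    rw [hXab, hXab]
    exact hhigh a b hb1
  · intro a b
    rw [hXab]
    exact hnear a b

end Cub
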