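import Mathlib
import Pool.Agent.Lib.MP_582a01_gt.Defs
import Pool.Agent.Lib.MP_582a01_gt.Alg1
import Pool.Agent.Lib.MP_582a01_gt.Alg2

/-!
# MP_582a01_gt, module Point

The three equations `{F,H} = 0` at a point of the crossing region, deduced from the derivatives
of the fields along the two characteristic directions.
-/

set_option autoImplicit false
open scoped ContDiff

namespace Cub

private theorem point_lin (L : ℝ × ℝ →L[ℝ] ℝ) (x y : ℝ) :
    L (x, y) = x * L (1,0) + y * L (0,1) := by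
  have h : ((x, y) : ℝ × ℝ) = x • ((1,0) : ℝ × ℝ) + y • ((0,1) : ℝ × ℝ) := by
    ext <;> simp
  rw [h, map_add, map_smul, map_smul, smul_eq_mul, smul_eq_mul]

private theorem point_D {m n : ℝ → ℝ} {t m' n' : ℝ} (hm : HasDerivAt m m' t)
    (hn : HasDerivAt n n' t) :
    HasDerivAt (fun s => (1 + m s + m s ^ 2) * (1 + n s + n s ^ 2))
      ((1 + 2 * m t) * (1 + n t + n t ^ 2) * m' + (1 + 2 * n t) * (1 + m t + m t ^ 2) * n') t := by
  have h1 : HasDerivAt (fun s => 1 + m s + m s ^ 2) ((1 + 2 * m t) * m') t :=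
    ((hm.const_add 1).add (hm.pow 2)).congr_deriv (by simp; ring)
  have h2 : HasDerivAt (fun s => 1 + n s + n s ^ 2) ((1 + 2 * n t) * n') t :=
    ((hn.const_add 1).add (hn.pow 2)).congr_deriv (by simp; ring)
  exact (h1.mul h2).congr_deriv (by ring)

private theorem point_AH {m n : ℝ → ℝ} {t m' n' L' : ℝ} (hm : HasDerivAt m m' t)
    (hn : HasDerivAt n n' t) (hD1 : 1 + m t + m t ^ 2 ≠ 0) (hD2 : 1 + n t + n t ^ 2 ≠ 0)
    (hL : HasDerivAt (fun s => LamH (m s) (n s)) L' t) :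
    HasDerivAt (fun s => AH (m s) (n s))
      (-3 * L' * (m t * (1 + m t + m t * n t)) / ((1 + m t + m t ^ 2) * (1 + n t + n t ^ 2))
      - 3 * LamH (m t) (n t) * ((1 + 2 * m t + 2 * m t * n t) * m' + m t ^ 2 * n')
          / ((1 + m t + m t ^ 2) * (1 + n t + n t ^ 2))
      + 3 * LamH (m t) (n t) * (m t * (1 + m t + m t * n t))
          * ((1 + 2 * m t) * (1 + n t + n t ^ 2) * m' + (1 + 2 * n t) * (1 + m t + m t ^ 2) * n')
          / ((1 + m t + m t ^ 2) * (1 + n t + n t ^ 2)) ^ 2) t := by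
  have hw : HasDerivAt (fun s => m s * (1 + m s + m s * n s))
      ((1 + 2 * m t + 2 * m t * n t) * m' + m t ^ 2 * n') t :=
    (hm.mul ((hm.const_add 1).add (hm.mul hn))).congr_deriv (by simp; ring)
  have hD := point_D hm hn
  have hne : (1 + m t + m t ^ 2) * (1 + n t + n t ^ 2) ≠ 0 := mul_ne_zero hD1 hD2
  have h := ((hL.const_mul (-3)).mul hw).div hD hne
  refine h.congr_deriv ?_
  simp only [Pi.mul_apply]
  field_simp
  ring

private theorem point_BH {m n : ℝ → ℝ} {t m' n' L' : ℝ} (hm : HasDerivAt m m' t)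
    (hn : HasDerivAt n n' t) (hD1 : 1 + m t + m t ^ 2 ≠ 0) (hD2 : 1 + n t + n t ^ 2 ≠ 0)
    (hL : HasDerivAt (fun s => LamH (m s) (n s)) L' t) :
    HasDerivAt (fun s => BH (m s) (n s))
      (3 * L' * (n t * (1 + n t + m t * n t)) / ((1 + m t + m t ^ 2) * (1 + n t + n t ^ 2))
      + 3 * LamH (m t) (n t) * (n t ^ 2 * m' + (1 + 2 * n t + 2 * m t * n t) * n')
          / ((1 + m t + m t ^ 2) * (1 + n t + n t ^ 2))
      - 3 * LamH (m t) (n t) * (n t * (1 + n t + m t * n t))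
          * ((1 + 2 * m t) * (1 + n t + n t ^ 2) * m' + (1 + 2 * n t) * (1 + m t + m t ^ 2) * n')
          / ((1 + m t + m t ^ 2) * (1 + n t + n t ^ 2)) ^ 2) t := by
  have hw : HasDerivAt (fun s => n s * (1 + n s + m s * n s))
      (n t ^ 2 * m' + (1 + 2 * n t + 2 * m t * n t) * n') t :=
    (hn.mul ((hn.const_add 1).add (hm.mul hn))).congr_deriv (by simp; ring)
  have hD := point_D hm hn
  have hne : (1 + m t + m t ^ 2) * (1 + n t + n t ^ 2) ≠ 0 := mul_ne_zero hD1 hD2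
  have h := ((hL.const_mul 3).mul hw).div hD hne
  refine h.congr_deriv ?_
  simp only [Pi.mul_apply]
  field_simp

theorem pde_point {Lam A B mu : ℝ × ℝ → ℝ} {c : ℝ → ℝ} {X : ℝ × ℝ → ℝ × ℝ}
    (hmu : ContDiff ℝ ∞ mu) (hsm : ∀ z, |mu z| ≤ 1/20)
    (hU : ∀ a b, U (mu (a,b)) (mu (b,a)) = c a)
    (hL : ∀ a b, Lam (X (a,b)) = LamH (mu (a,b)) (mu (b,a)))
    (hA : ∀ a b, A (X (a,b)) = AH (mu (a,b)) (mu (b,a)))
    (hB : ∀ a b, B (X (a,b)) = BH (mu (a,b)) (mu (b,a)))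
    (hdL : Differentiable ℝ Lam) (hdA : Differentiable ℝ A) (hdB : Differentiable ℝ B)
    {a b P Q : ℝ} (hP : P ≠ 0) (hQ : Q ≠ 0)
    (hXa : HasDerivAt (fun a => X (a,b)) (P, mu (b,a) * P) a)
    (hXb : HasDerivAt (fun b => X (a,b)) (mu (a,b) * Q, Q) b) :
    IsSolAt Lam A B (X (a,b)) := by
  have hmd : Differentiable ℝ mu := hmu.differentiable (by simp)
  -- the four derivatives of the slopes
  have c1 : ∀ x y : ℝ, HasDerivAt (fun t : ℝ => ((t, y) : ℝ × ℝ)) (1, 0) x :=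
    fun x y => (hasDerivAt_id x).prodMk (hasDerivAt_const x y)
  have c2 : ∀ x y : ℝ, HasDerivAt (fun t : ℝ => ((x, t) : ℝ × ℝ)) (0, 1) y :=
    fun x y => (hasDerivAt_const y x).prodMk (hasDerivAt_id y)
  have d1 : ∀ x y : ℝ, HasDerivAt (fun t : ℝ => mu (t, y)) (fderiv ℝ mu (x,y) (1,0)) x :=
    fun x y => (hmd (x,y)).hasFDerivAt.comp_hasDerivAt x (c1 x y)
  have d2 : ∀ x y : ℝ, HasDerivAt (fun t : ℝ => mu (x, t)) (fderiv ℝ mu (x,y) (0,1)) y :=
    fun x y => (hmd (x,y)).hasFDerivAt.comp_hasDerivAt y (c2 x y)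
  have hm1 := hsm (a,b)
  have hn1 := hsm (b,a)
  obtain ⟨_, _, hS, _, _, hD1, hD2, hLpos⟩ := pos_facts hm1 hn1
  have hD1' : 1 + mu (a,b) + mu (a,b) ^ 2 ≠ 0 := by positivity
  have hD2' : 1 + mu (b,a) + mu (b,a) ^ 2 ≠ 0 := by positivity
  -- along b
  have mb := d2 a b
  have nb := d1 b a
  have rb := slope_rel mb nb hm1 hn1 (fun s => hU a s)
  have lb := lam_rel mb nb hm1 hn1 rb
  have hLb : HasDerivAt (fun s => Lam (X (a,s))) (fderiv ℝ Lam (X (a,b)) (mu (a,b) * Q, Q)) b :=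
    (hdL (X (a,b))).hasFDerivAt.comp_hasDerivAt b hXb
  have hAb : HasDerivAt (fun s => A (X (a,s))) (fderiv ℝ A (X (a,b)) (mu (a,b) * Q, Q)) b :=
    (hdA (X (a,b))).hasFDerivAt.comp_hasDerivAt b hXb
  have hBb : HasDerivAt (fun s => B (X (a,s))) (fderiv ℝ B (X (a,b)) (mu (a,b) * Q, Q)) b :=
    (hdB (X (a,b))).hasFDerivAt.comp_hasDerivAt b hXb
  have eLb : (fun s => Lam (X (a,s))) = fun s => LamH (mu (a,s)) (mu (s,a)) :=
    funext fun s => hL a s
  have eAb : (fun s => A (X (a,s))) = fun s => AH (mu (a,s)) (mu (s,a)) :=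
    funext fun s => hA a s
  have eBb : (fun s => B (X (a,s))) = fun s => BH (mu (a,s)) (mu (s,a)) :=
    funext fun s => hB a s
  rw [eLb] at hLb
  rw [eAb] at hAb
  rw [eBb] at hBb
  have kLb := hLb.unique lb
  have kAb := hAb.unique (point_AH mb nb hD1' hD2' hLb)
  have kBb := hBb.unique (point_BH mb nb hD1' hD2' hLb)
  -- along a
  have ma := d1 a b
  have na' := d2 b a
  have ra := slope_rel na' ma hn1 hm1 (fun s => hU b s)
  have la := lam_rel na' ma hn1 hm1 ra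
  have hLa : HasDerivAt (fun s => Lam (X (s,b))) (fderiv ℝ Lam (X (a,b)) (P, mu (b,a) * P)) a :=
    (hdL (X (a,b))).hasFDerivAt.comp_hasDerivAt a hXa
  have hAa : HasDerivAt (fun s => A (X (s,b))) (fderiv ℝ A (X (a,b)) (P, mu (b,a) * P)) a :=
    (hdA (X (a,b))).hasFDerivAt.comp_hasDerivAt a hXa
  have hBa : HasDerivAt (fun s => B (X (s,b))) (fderiv ℝ B (X (a,b)) (P, mu (b,a) * P)) a :=
    (hdB (X (a,b))).hasFDerivAt.comp_hasDerivAt a hXa
  have eLa : (fun s => Lam (X (s,b))) = fun s => LamH (mu (s,b)) (mu (b,s)) :=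
    funext fun s => hL s b
  have eAa : (fun s => A (X (s,b))) = fun s => AH (mu (s,b)) (mu (b,s)) :=
    funext fun s => hA s b
  have eBa : (fun s => B (X (s,b))) = fun s => BH (mu (s,b)) (mu (b,s)) :=
    funext fun s => hB s b
  rw [eLa] at hLa
  rw [eAa] at hAa
  rw [eBa] at hBa
  have la' : HasDerivAt (fun s => LamH (mu (s,b)) (mu (b,s)))
      (-3 * LamH (mu (b,a)) (mu (a,b)) * (1 - mu (b,a) * mu (a,b)) * fderiv ℝ mu (b,a) (0,1)
        / (S (mu (b,a)) (mu (a,b)) * (1 + mu (b,a) + mu (b,a) ^ 2))) a := by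
    refine la.congr_of_eventuallyEq (Filter.Eventually.of_forall fun s => ?_)
    exact LamH_symm _ _
  have kLa := hLa.unique la'
  have kAa := hAa.unique (point_AH ma na' hD1' hD2' hLa)
  have kBa := hBa.unique (point_BH ma na' hD1' hD2' hLa)
  have hSs : S (mu (b,a)) (mu (a,b)) = S (mu (a,b)) (mu (b,a)) := by unfold S; ring
  rw [LamH_symm, hSs] at kLa
  rw [hSs] at ra
  rw [point_lin (fderiv ℝ A (X (a,b)))] at kAb kAa
  rw [point_lin (fderiv ℝ B (X (a,b)))] at kBb kBa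
  rw [point_lin (fderiv ℝ Lam (X (a,b)))] at kLb kAb kBb kLa kAa kBa
  have key := alg_pde (m := mu (a,b)) (n := mu (b,a)) (Lam := LamH (mu (a,b)) (mu (b,a)))
    (mb := fderiv ℝ mu (a,b) (0,1)) (nb := fderiv ℝ mu (b,a) (1,0))
    (ma := fderiv ℝ mu (a,b) (1,0)) (na' := fderiv ℝ mu (b,a) (0,1)) (P := P) (Q := Q)
    (L1 := fderiv ℝ Lam (X (a,b)) (1,0)) (L2 := fderiv ℝ Lam (X (a,b)) (0,1))
    (A1 := fderiv ℝ A (X (a,b)) (1,0)) (A2 := fderiv ℝ A (X (a,b)) (0,1))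
    (B1 := fderiv ℝ B (X (a,b)) (1,0)) (B2 := fderiv ℝ B (X (a,b)) (0,1))
    hm1 hn1 hLpos hP hQ rb ra ?_ ?_ ?_ ?_ ?_ ?_
  · have hkap : kap Lam A B (X (a,b)) =
        -3 * (mu (a,b) * (1 + mu (a,b) + mu (a,b) * mu (b,a)))
            / ((1 + mu (a,b) + mu (a,b) ^ 2) * (1 + mu (b,a) + mu (b,a) ^ 2))
            * fderiv ℝ Lam (X (a,b)) (1,0)
          + 3 * (mu (b,a) * (1 + mu (b,a) + mu (a,b) * mu (b,a)))
            / ((1 + mu (a,b) + mu (a,b) ^ 2) * (1 + mu (b,a) + mu (b,a) ^ 2))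
            * fderiv ℝ Lam (X (a,b)) (0,1) := by
      unfold kap
      rw [hL, hA, hB]
      unfold AH BH
      have hne := hLpos.ne'
      field_simp
    unfold IsSolAt
    rw [hkap]
    exact key
  · linear_combination kLb
  · linear_combination kLa
  · linear_combination kAb
  · linear_combination kAa
  · linear_combination kBb
  · linear_combination kBa

end Cub
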