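import Pool.Agent.Lib.MP_582a01_gt.Alg1
import Pool.Agent.Lib.MP_582a01_gt.Point

/-!
# Module Cross: the crossing of two waves from a chart
-/

set_option autoImplicit false
open scoped ContDiff

namespace Cub

noncomputable section

private def cLam (mu : ℝ × ℝ → ℝ) (Y : ℝ × ℝ → ℝ × ℝ) (z : ℝ × ℝ) : ℝ :=
  LamH (mu ((Y z).1, (Y z).2)) (mu ((Y z).2, (Y z).1))

private def cA (mu : ℝ × ℝ → ℝ) (Y : ℝ × ℝ → ℝ × ℝ) (z : ℝ × ℝ) : ℝ :=
  AH (mu ((Y z).1, (Y z).2)) (mu ((Y z).2, (Y z).1))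

private def cB (mu : ℝ × ℝ → ℝ) (Y : ℝ × ℝ → ℝ × ℝ) (z : ℝ × ℝ) : ℝ :=
  BH (mu ((Y z).1, (Y z).2)) (mu ((Y z).2, (Y z).1))

private theorem cross_nc_smooth {E : Type*} [NormedAddCommGroup E] [NormedSpace ℝ E]
    {m n : E → ℝ} (hm : ContDiff ℝ ∞ m) (hn : ContDiff ℝ ∞ n) :
    ContDiff ℝ ∞ (fun z => nc (m z) (n z)) := by
  unfold nc
  fun_prop

private theorem cross_LamH_smooth {E : Type*} [NormedAddCommGroup E] [NormedSpace ℝ E]
    {m n : E → ℝ} (hm : ContDiff ℝ ∞ m) (hn : ContDiff ℝ ∞ n) (hbm : ∀ z, |m z| ≤ 1/20)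
    (hbn : ∀ z, |n z| ≤ 1/20) : ContDiff ℝ ∞ (fun z => LamH (m z) (n z)) := by
  unfold LamH
  have h1 : ContDiff ℝ ∞ (fun z => (nc (m z) (n z)) ^ (-(2/3) : ℝ)) := by
    apply (cross_nc_smooth hm hn).rpow_const_of_ne
    intro z
    have := (pos_facts (hbm z) (hbn z)).2.1
    intro h
    rw [h] at this
    norm_num at this
  have h2 : ContDiff ℝ ∞ (fun z => ((1 + m z + m z ^ 2) * (1 + n z + n z ^ 2))) := by
    fun_prop
  exact (h1.mul h2).div_const 3

private theorem cross_den {m n : ℝ} (hm : |m| ≤ 1/20) (hn : |n| ≤ 1/20) :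
    (1 + m + m^2) * (1 + n + n^2) ≠ 0 := by
  obtain ⟨-, -, -, -, -, h1, h2, -⟩ := pos_facts hm hn
  have h3 : 0 < 1 + m + m^2 := by linarith
  have h4 : 0 < 1 + n + n^2 := by linarith
  positivity

private theorem cross_AH_smooth {E : Type*} [NormedAddCommGroup E] [NormedSpace ℝ E]
    {m n : E → ℝ} (hm : ContDiff ℝ ∞ m) (hn : ContDiff ℝ ∞ n) (hbm : ∀ z, |m z| ≤ 1/20)
    (hbn : ∀ z, |n z| ≤ 1/20) : ContDiff ℝ ∞ (fun z => AH (m z) (n z)) := by
  unfold AH
  have hL := cross_LamH_smooth hm hn hbm hbn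
  apply ContDiff.div
  · fun_prop
  · fun_prop
  · intro z
    exact cross_den (hbm z) (hbn z)

private theorem cross_BH_smooth {E : Type*} [NormedAddCommGroup E] [NormedSpace ℝ E]
    {m n : E → ℝ} (hm : ContDiff ℝ ∞ m) (hn : ContDiff ℝ ∞ n) (hbm : ∀ z, |m z| ≤ 1/20)
    (hbn : ∀ z, |n z| ≤ 1/20) : ContDiff ℝ ∞ (fun z => BH (m z) (n z)) := by
  unfold BH
  have hL := cross_LamH_smooth hm hn hbm hbn
  apply ContDiff.div
  · fun_prop
  · fun_prop
  · intro z
    exact cross_den (hbm z) (hbn z)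

private theorem cross_LamH00 : LamH 0 0 = 1/3 := by
  have := (LamH_zero (n := 0) (by norm_num)).1
  rw [this]
  norm_num

section

variable {mu : ℝ × ℝ → ℝ} {c : ℝ → ℝ} {X Y : ℝ × ℝ → ℝ × ℝ} {P : ℝ × ℝ → ℝ}

/-- coordinates of a point -/
private theorem cross_coord (hC : Chart mu X Y P) (s t : ℝ) :
    (X ((Y (s,t)).1, (Y (s,t)).2)) = (s,t) := by
  have := hC.XY (s,t)
  exact this

private theorem cross_near1 (hC : Chart mu X Y P) (s t : ℝ) : |s - (Y (s,t)).1| ≤ 1/100 := by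
  have := hC.near (Y (s,t)).1 (Y (s,t)).2
  rw [cross_coord hC s t] at this
  exact this

private theorem cross_near2 (hC : Chart mu X Y P) (s t : ℝ) : |t - (Y (s,t)).2| ≤ 1/100 := by
  have h1 := hC.near (Y (s,t)).2 (Y (s,t)).1
  rw [hC.symm (Y (s,t)).1 (Y (s,t)).2, cross_coord hC s t] at h1
  exact h1

/-- the swap symmetry -/
private theorem cross_swap (hC : Chart mu X Y P) (s t : ℝ) :
    Y (t,s) = ((Y (s,t)).2, (Y (s,t)).1) := by
  have h1 : X ((Y (s,t)).2, (Y (s,t)).1) = (t,s) := by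
    rw [hC.symm (Y (s,t)).1 (Y (s,t)).2, cross_coord hC s t]
  rw [← h1, hC.YX]

private theorem cross_inj (hC : Chart mu X Y P) {a a' : ℝ}
    (h : (X (a,1/20)).1 = (X (a',1/20)).1) : a = a' := by
  have hm : StrictMono (fun a => (X (a,1/20)).1) := by
    apply strictMono_of_deriv_pos
    intro x
    have h0 : HasFDerivAt (Prod.fst : ℝ × ℝ → ℝ) (ContinuousLinearMap.fst ℝ ℝ ℝ) (X (x,1/20)) :=
      hasFDerivAt_fst
    have h00 := HasFDerivAt.comp_hasDerivAt x h0 (hC.da x (1/20))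
    have h1 : HasDerivAt (fun a => (X (a,1/20)).1) (P (x,1/20)) x := h00
    have h2 : deriv (fun a => (X (a,1/20)).1) x = P (x,1/20) := h1.deriv
    rw [h2]
    have := hC.Ppos (x,1/20)
    linarith
  exact hm.injective h

end

theorem crossing_of_chart {mu : ℝ × ℝ → ℝ} {c : ℝ → ℝ} {X Y : ℝ × ℝ → ℝ × ℝ} {P : ℝ × ℝ → ℝ}
    (hW : Waves mu c) (hC : Chart mu X Y P) :
    ∃ (Lam A B : ℝ × ℝ → ℝ) (Ro Ri : ℝ → ℝ), Crossing Lam A B Ro Ri := by
  have hm1 : ContDiff ℝ ∞ (fun z => mu ((Y z).1, (Y z).2)) := by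
    have := hC.smoothY
    have h2 := hW.smooth
    fun_prop
  have hm2 : ContDiff ℝ ∞ (fun z => mu ((Y z).2, (Y z).1)) := by
    have := hC.smoothY
    have h2 := hW.smooth
    fun_prop
  have hb1 : ∀ z, |mu ((Y z).1, (Y z).2)| ≤ 1/20 := fun z => hW.bound _
  have hb2 : ∀ z, |mu ((Y z).2, (Y z).1)| ≤ 1/20 := fun z => hW.bound _
  have sL : ContDiff ℝ ∞ (cLam mu Y) := cross_LamH_smooth hm1 hm2 hb1 hb2
  have sA : ContDiff ℝ ∞ (cA mu Y) := cross_AH_smooth hm1 hm2 hb1 hb2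
  have sB : ContDiff ℝ ∞ (cB mu Y) := cross_BH_smooth hm1 hm2 hb1 hb2
  -- the wave of the second family in the region `t ≥ 1/10`
  have topmu : ∀ s t, 1/10 ≤ t → mu ((Y (s,t)).1, (Y (s,t)).2) = 0 ∧
      mu ((Y (s,t)).2, (Y (s,t)).1) = mu (0, (Y (s,t)).1) ∧ 1/20 ≤ (Y (s,t)).2 := by
    intro s t ht
    have h1 := abs_le.1 (cross_near2 hC s t)
    have h2 : 1/20 ≤ (Y (s,t)).2 := by linarith [h1.2]
    exact ⟨hW.zero _ _ (Or.inr h2), hW.const _ _ (Or.inr h2), h2⟩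
  have botmu : ∀ s t, t ≤ -(1/10) → mu ((Y (s,t)).1, (Y (s,t)).2) = 0 ∧
      mu ((Y (s,t)).2, (Y (s,t)).1) = mu (0, s) := by
    intro s t ht
    have h1 := abs_le.1 (cross_near2 hC s t)
    have h2 : (Y (s,t)).2 ≤ 0 := by linarith [h1.1]
    have h3 : (Y (s,t)).1 = s := by
      have := hC.low (Y (s,t)).1 (Y (s,t)).2 h2
      rw [cross_coord hC s t] at this
      exact this.symm
    refine ⟨hW.zero _ _ (Or.inl h2), ?_⟩
    rw [hW.const _ _ (Or.inl h2), h3]
  have sameY : ∀ s t, 1/10 ≤ t → (Y (s,t)).1 = (Y (s,1/10)).1 := by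
    intro s t ht
    apply cross_inj hC
    have h1 := (topmu s t ht).2.2
    have h2 := (topmu s (1/10) le_rfl).2.2
    rw [← hC.high _ _ h1, ← hC.high _ _ h2, cross_coord hC s t, cross_coord hC s (1/10)]
  -- formulas for the top and the bottom
  have topF : ∀ s t, 1/10 ≤ t → cLam mu Y (s,t) = 1/3 + (cLam mu Y (s,1/10) - 1/3) ∧
      cA mu Y (s,t) = 0 ∧ cB mu Y (s,t) = -(cLam mu Y (s,1/10) - 1/3) := by
    intro s t ht
    obtain ⟨h1, h2, -⟩ := topmu s t ht
    obtain ⟨k1, k2, -⟩ := topmu s (1/10) le_rfl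
    have hL : cLam mu Y (s,t) = LamH 0 (mu (0, (Y (s,t)).1)) := by
      unfold cLam
      rw [h1, h2]
    have hL' : cLam mu Y (s,1/10) = LamH 0 (mu (0, (Y (s,1/10)).1)) := by
      unfold cLam
      rw [k1, k2]
    obtain ⟨-, z2, z3⟩ := LamH_zero (hW.bound (0, (Y (s,t)).1))
    refine ⟨?_, ?_, ?_⟩
    · rw [hL, hL', sameY s t ht]
      ring
    · unfold cA
      rw [h1, h2]
      exact z2
    · unfold cB
      rw [h1, h2, z3, hL', sameY s t ht]
      ring
  have botF : ∀ s t, t ≤ -(1/10) → cLam mu Y (s,t) = 1/3 + (LamH 0 (mu (0,s)) - 1/3) ∧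
      cA mu Y (s,t) = 0 ∧ cB mu Y (s,t) = -(LamH 0 (mu (0,s)) - 1/3) := by
    intro s t ht
    obtain ⟨h1, h2⟩ := botmu s t ht
    obtain ⟨-, z2, z3⟩ := LamH_zero (hW.bound (0, s))
    refine ⟨?_, ?_, ?_⟩
    · unfold cLam
      rw [h1, h2]
      ring
    · unfold cA
      rw [h1, h2]
      exact z2
    · unfold cB
      rw [h1, h2, z3]
      ring
  -- the swap symmetry of the fields
  have swL : ∀ s t, cLam mu Y (s,t) = cLam mu Y (t,s) := by
    intro s t
    unfold cLam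
    rw [cross_swap hC t s]
    exact LamH_symm _ _
  have swA : ∀ s t, cA mu Y (s,t) = - cB mu Y (t,s) := by
    intro s t
    unfold cA cB
    rw [cross_swap hC t s]
    exact AH_symm _ _
  have swB : ∀ s t, cB mu Y (s,t) = - cA mu Y (t,s) := by
    intro s t
    rw [swA t s, neg_neg]
  have mu00 : ∀ s : ℝ, 9/100 ≤ |s| → mu (0, s) = 0 := by
    intro s hs
    apply hW.zero
    rcases le_or_gt s 0 with h | h
    · exact Or.inl h
    · rw [abs_of_pos h] at hs
      exact Or.inr (by linarith)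
  refine ⟨cLam mu Y, cA mu Y, cB mu Y, fun s => cLam mu Y (s,1/10) - 1/3,
    fun s => LamH 0 (mu (0,s)) - 1/3, ?_⟩
  refine ⟨sL, sA, sB, ?_, ?_, ?_, ?_, ?_, ?_, ?_, ?_, ?_, ?_⟩
  · intro z
    exact (pos_facts (hb1 z) (hb2 z)).2.2.2.2.2.2.2
  · intro z
    have hz : X ((Y z).1, (Y z).2) = z := hC.XY z
    have hYX : ∀ a b, Y (X (a,b)) = (a,b) := fun a b => hC.YX (a,b)
    rw [← hz]
    have hP0 : ∀ w, P w ≠ 0 := by
      intro w h
      have := hC.Ppos w
      rw [h] at this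
      norm_num at this
    exact pde_point (c := c) (X := X) (P := P ((Y z).1, (Y z).2)) (Q := P ((Y z).2, (Y z).1))
      hW.smooth hW.bound hW.inv
      (fun a b => by unfold cLam; rw [hYX]) (fun a b => by unfold cA; rw [hYX])
      (fun a b => by unfold cB; rw [hYX])
      (sL.differentiable (by simp)) (sA.differentiable (by simp)) (sB.differentiable (by simp))
      (hP0 _) (hP0 _) (hC.da _ _) (hC.db _ _)
  · apply ContDiff.sub _ contDiff_const
    apply cross_LamH_smooth contDiff_const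
    · have := hW.smooth
      fun_prop
    · intro z
      norm_num
    · intro z
      exact hW.bound _
  · intro s hs
    obtain ⟨h1, h2, -⟩ := topmu s (1/10) le_rfl
    show cLam mu Y (s,1/10) - 1/3 = 0
    unfold cLam
    rw [h1, h2, mu00, cross_LamH00]
    · norm_num
    · have h3 := cross_near1 hC s (1/10)
      have h4 : |s| ≤ |s - (Y (s,1/10)).1| + |(Y (s,1/10)).1| := by
        have := abs_add_le (s - (Y (s,1/10)).1) ((Y (s,1/10)).1)
        rw [sub_add_cancel] at this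
        exact this
      linarith
  · intro s hs
    show LamH 0 (mu (0,s)) - 1/3 = 0
    rw [mu00 s (by linarith), cross_LamH00]
    norm_num
  · exact topF
  · exact botF
  · intro s t hs
    obtain ⟨h1, h2, h3⟩ := topF t s hs
    refine ⟨?_, ?_, ?_⟩
    · rw [swL s t, h1]
    · rw [swA s t, h3, neg_neg]
    · rw [swB s t, h2, neg_zero]
  · intro s t hs
    obtain ⟨h1, h2, h3⟩ := botF t s hs
    refine ⟨?_, ?_, ?_⟩
    · rw [swL s t, h1]
    · rw [swA s t, h3, neg_neg]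
    · rw [swB s t, h2, neg_zero]
  · obtain ⟨s, hs⟩ := hW.nontriv
    refine ⟨s, ?_⟩
    show LamH 0 (mu (0,s)) - 1/3 ≠ 0
    have hb := hW.bound (0,s)
    rw [(LamH_zero hb).1]
    set n := mu (0,s) with hn
    have hb' := abs_le.1 hb
    have h1 : 0 < 1 + 2*n := by linarith [hb'.1]
    intro h
    have h2 : (1 + n + n^2) / (3 * (1 + 2*n)^2) = 1/3 := by linarith
    rw [div_eq_div_iff (by positivity) (by norm_num)] at h2
    have h3 : n * (1 + n) = 0 := by nlinarith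
    rcases mul_eq_zero.1 h3 with h4 | h4
    · exact hs h4
    · linarith [hb'.1]

end

end Cub
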