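import Mathlib
import Pool.Agent.Lib.MP_582a01_gt.Defs
import Pool.Agent.Lib.MP_582a01_gt.Bracket

/-!
# MP_582a01_gt : homogeneous polynomials in the momenta, integrals of higher degree
-/

set_option autoImplicit false
open scoped ContDiff

namespace Cub

/-- smooth `ℤ²`-periodic function -/
def SP (c : (Fin 2 → ℝ) → ℝ) : Prop :=
  ContDiff ℝ ∞ c ∧ ∀ (x : Fin 2 → ℝ) (v : Fin 2 → ℤ), c (x + (fun k => (v k : ℝ))) = c x

/-- homogeneous polynomial of degree `d` in the momenta with smooth periodic coefficients -/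
def IsHom (d : ℕ) (F : (Fin 2 → ℝ) → (Fin 2 → ℝ) → ℝ) : Prop :=
  ∃ a : ℕ → (Fin 2 → ℝ) → ℝ, (∀ i, SP (a i)) ∧
    ∀ x p, F x p = ∑ i ∈ Finset.range (d + 1), a i x * p 0 ^ i * p 1 ^ (d - i)

theorem SP.add {c e : (Fin 2 → ℝ) → ℝ} (hc : SP c) (he : SP e) : SP (fun x => c x + e x) :=
  ⟨hc.1.add he.1, fun x v => by simp only [hc.2, he.2]⟩

theorem SP.mul {c e : (Fin 2 → ℝ) → ℝ} (hc : SP c) (he : SP e) : SP (fun x => c x * e x) :=
  ⟨hc.1.mul he.1, fun x v => by simp only [hc.2, he.2]⟩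

theorem SP.const (r : ℝ) : SP (fun _ => r) := ⟨contDiff_const, fun _ _ => rfl⟩

theorem IsHom.add {d : ℕ} {F G : (Fin 2 → ℝ) → (Fin 2 → ℝ) → ℝ} (hF : IsHom d F)
    (hG : IsHom d G) : IsHom d (fun x p => F x p + G x p) := by
  obtain ⟨a, ha, hFa⟩ := hF
  obtain ⟨b, hb, hGb⟩ := hG
  refine ⟨fun i x => a i x + b i x, fun i => (ha i).add (hb i), fun x p => ?_⟩
  simp only
  rw [hFa, hGb, ← Finset.sum_add_distrib]
  exact Finset.sum_congr rfl fun i _ => by ring

theorem IsHom.smul {d : ℕ} {F : (Fin 2 → ℝ) → (Fin 2 → ℝ) → ℝ} {c : (Fin 2 → ℝ) → ℝ}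
    (hF : IsHom d F) (hc : SP c) : IsHom d (fun x p => c x * F x p) := by
  obtain ⟨a, ha, hFa⟩ := hF
  refine ⟨fun i x => c x * a i x, fun i => hc.mul (ha i), fun x p => ?_⟩
  simp only
  rw [hFa, Finset.mul_sum]
  exact Finset.sum_congr rfl fun i _ => by ring

theorem IsHom.mul_p0 {d : ℕ} {F : (Fin 2 → ℝ) → (Fin 2 → ℝ) → ℝ} (hF : IsHom d F) :
    IsHom (d + 1) (fun x p => p 0 * F x p) := by
  obtain ⟨a, ha, hFa⟩ := hF
  refine ⟨fun i => if i = 0 then fun _ => 0 else a (i - 1), fun i => ?_, fun x p => ?_⟩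
  · by_cases h : i = 0
    · simp only [h, if_true]; exact SP.const 0
    · simp only [h, if_false]; exact ha _
  · simp only
    rw [hFa, Finset.sum_range_succ' _ (d + 1), Finset.mul_sum]
    simp only [if_true, zero_mul, add_zero, Nat.add_one_ne_zero, if_false, Nat.add_sub_cancel]
    refine Finset.sum_congr rfl fun i hi => ?_
    have e : d + 1 - (i + 1) = d - i := by omega
    rw [e]; ring

theorem IsHom.mul_p1 {d : ℕ} {F : (Fin 2 → ℝ) → (Fin 2 → ℝ) → ℝ} (hF : IsHom d F) :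
    IsHom (d + 1) (fun x p => p 1 * F x p) := by
  obtain ⟨a, ha, hFa⟩ := hF
  refine ⟨fun i => if i = d + 1 then fun _ => 0 else a i, fun i => ?_, fun x p => ?_⟩
  · by_cases h : i = d + 1
    · simp only [h, if_true]; exact SP.const 0
    · simp only [h, if_false]; exact ha _
  · simp only
    rw [hFa, Finset.sum_range_succ _ (d + 1), Finset.mul_sum]
    simp only [if_true, zero_mul, add_zero]
    refine Finset.sum_congr rfl fun i hi => ?_
    have hi' : i < d + 1 := Finset.mem_range.mp hi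
    have e : d + 1 - i = (d - i) + 1 := by omega
    rw [if_neg (by omega), e]; ring

theorem IsHom.diff_x {d : ℕ} {F : (Fin 2 → ℝ) → (Fin 2 → ℝ) → ℝ} (hF : IsHom d F)
    (p : Fin 2 → ℝ) : Differentiable ℝ (fun y => F y p) := by
  obtain ⟨a, ha, hFa⟩ := hF
  have e : (fun y => F y p) = fun y => ∑ i ∈ Finset.range (d + 1), a i y * p 0 ^ i * p 1 ^ (d - i) :=
    funext fun y => hFa y p
  rw [e]
  refine Differentiable.fun_sum fun i _ => ?_
  exact (((ha i).1.differentiable (by simp)).mul_const _).mul_const _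

theorem IsHom.diff_p {d : ℕ} {F : (Fin 2 → ℝ) → (Fin 2 → ℝ) → ℝ} (hF : IsHom d F)
    (x : Fin 2 → ℝ) : Differentiable ℝ (fun q => F x q) := by
  obtain ⟨a, ha, hFa⟩ := hF
  have e : (fun q => F x q) = fun q => ∑ i ∈ Finset.range (d + 1), a i x * q 0 ^ i * q 1 ^ (d - i) :=
    funext fun q => hFa x q
  rw [e]
  refine Differentiable.fun_sum fun i _ => ?_
  fun_prop

/-- the Poisson bracket in the form of the frozen statement -/
noncomputable def PB (F H : (Fin 2 → ℝ) → (Fin 2 → ℝ) → ℝ) (x p : Fin 2 → ℝ) : ℝ :=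
  ∑ k : Fin 2,
    (fderiv ℝ (fun y => F y p) x (Pi.single k (1 : ℝ))
        * fderiv ℝ (fun q => H x q) p (Pi.single k (1 : ℝ))
      - fderiv ℝ (fun q => F x q) p (Pi.single k (1 : ℝ))
        * fderiv ℝ (fun y => H y p) x (Pi.single k (1 : ℝ)))

theorem PB_mul {F G H : (Fin 2 → ℝ) → (Fin 2 → ℝ) → ℝ} {x p : Fin 2 → ℝ}
    (hFx : DifferentiableAt ℝ (fun y => F y p) x) (hFp : DifferentiableAt ℝ (fun q => F x q) p)
    (hGx : DifferentiableAt ℝ (fun y => G y p) x) (hGp : DifferentiableAt ℝ (fun q => G x q) p) :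
    PB (fun x p => F x p * G x p) H x p = F x p * PB G H x p + G x p * PB F H x p := by
  unfold PB
  have e1 : fderiv ℝ (fun y => F y p * G y p) x
      = F x p • fderiv ℝ (fun y => G y p) x + G x p • fderiv ℝ (fun y => F y p) x :=
    fderiv_fun_mul hFx hGx
  have e2 : fderiv ℝ (fun q => F x q * G x q) p
      = F x p • fderiv ℝ (fun q => G x q) p + G x p • fderiv ℝ (fun q => F x q) p :=
    fderiv_fun_mul hFp hGp
  simp only [e1, e2, Fin.sum_univ_two, add_apply, smul_apply, smul_eq_mul]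
  ring

theorem PB_self (H : (Fin 2 → ℝ) → (Fin 2 → ℝ) → ℝ) (x p : Fin 2 → ℝ) : PB H H x p = 0 := by
  unfold PB
  simp only [Fin.sum_univ_two]
  ring

/-- the energy -/
noncomputable def HN (Lam : ℝ × ℝ → ℝ) (x p : Fin 2 → ℝ) : ℝ := N2 p / (2 * Lam (x 0, x 1))

theorem IsHom.mul_H {Lam : ℝ × ℝ → ℝ} (hL : SP (fun x => 1 / (2 * Lam (x 0, x 1)))) {d : ℕ}
    {F : (Fin 2 → ℝ) → (Fin 2 → ℝ) → ℝ} (hF : IsHom d F) :
    IsHom (d + 2) (fun x p => F x p * HN Lam x p) := by
  have h1 := (((hF.mul_p0).mul_p0).add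
    (((hF.mul_p1).mul_p0).smul (SP.const (-1)))).add ((hF.mul_p1).mul_p1)
  have h2 := h1.smul hL
  have e : (fun (x p : Fin 2 → ℝ) => F x p * HN Lam x p) = fun x p => 1 / (2 * Lam (x 0, x 1)) *
      (p 0 * (p 0 * F x p) + -1 * (p 0 * (p 1 * F x p)) + p 1 * (p 1 * F x p)) := by
    funext x p
    unfold HN N2
    ring
  rw [e]
  exact h2

theorem IsHom.mul_F {Lam A B : ℝ × ℝ → ℝ} (hpos : ∀ z, 0 < Lam z)
    (hL : SP (fun x => 1 / (2 * Lam (x 0, x 1))))
    (hA : SP (fun x => A (x 0, x 1))) (hB : SP (fun x => B (x 0, x 1))) {d : ℕ}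
    {F : (Fin 2 → ℝ) → (Fin 2 → ℝ) → ℝ} (hF : IsHom d F) :
    IsHom (d + 3) (fun x p => F x p * FM Lam A B x p) := by
  have h1 := (hF.mul_p1).mul_p0.mul_p0
  have h2 := (((hF.mul_p1).mul_p1).mul_p0).smul (SP.const (-1))
  have h3 := ((hF.mul_H hL).mul_p0).smul ((SP.const 2).mul hA)
  have h4 := ((hF.mul_H hL).mul_p1).smul ((SP.const 2).mul hB)
  have h5 := ((h1.add h2).add h3).add h4
  have e : (fun (x p : Fin 2 → ℝ) => F x p * FM Lam A B x p) = fun x p =>
      p 0 * (p 0 * (p 1 * F x p)) + -1 * (p 0 * (p 1 * (p 1 * F x p)))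
        + 2 * A (x 0, x 1) * (p 0 * (F x p * HN Lam x p))
        + 2 * B (x 0, x 1) * (p 1 * (F x p * HN Lam x p)) := by
    funext x p
    have := (hpos (x 0, x 1)).ne'
    unfold FM HN
    field_simp
    ring
  rw [e]
  exact h5

theorem isHom_one : IsHom 0 (fun _ _ => (1 : ℝ)) :=
  ⟨fun _ _ => 1, fun _ => SP.const 1, fun x p => by simp⟩

/-- conversion to the format of the frozen statement -/
theorem IsHom.frozen {d : ℕ} {F : (Fin 2 → ℝ) → (Fin 2 → ℝ) → ℝ} (hF : IsHom d F)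
    (hne : ∃ x p, F x p ≠ 0) :
    ∃ a : ℕ → ℕ → (Fin 2 → ℝ) → ℝ,
      (∀ x p, F x p = ∑ i ∈ Finset.range (d + 1), ∑ j ∈ Finset.range (d + 1 - i),
          a i j x * p 0 ^ i * p 1 ^ j) ∧
      (∀ i j, ContDiff ℝ ∞ (a i j)) ∧
      (∀ i j (x : Fin 2 → ℝ) (v : Fin 2 → ℤ), a i j (x + (fun k => (v k : ℝ))) = a i j x) ∧
      (∃ i j x, i + j = d ∧ a i j x ≠ 0) := by
  obtain ⟨a, ha, hFa⟩ := hF
  have hsp : ∀ i j, SP (if i + j = d then a i else fun _ => 0) := by
    intro i j
    by_cases h : i + j = d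
    · simp only [h, if_true]; exact ha _
    · simp only [h, if_false]; exact SP.const 0
  refine ⟨fun i j => if i + j = d then a i else fun _ => 0, fun x p => ?_,
    fun i j => (hsp i j).1, fun i j x v => (hsp i j).2 x v, ?_⟩
  · rw [hFa]
    refine Finset.sum_congr rfl fun i hi => ?_
    have hi' : i < d + 1 := Finset.mem_range.mp hi
    rw [Finset.sum_eq_single (d - i)]
    · have : i + (d - i) = d := by omega
      simp only [this, if_true]
    · intro j _ hj
      have : ¬ (i + j = d) := by omega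
      simp only [this, if_false, zero_mul]
    · intro h
      exact absurd (Finset.mem_range.mpr (by omega)) h
  · by_contra hcon
    push Not at hcon
    obtain ⟨x, p, hxp⟩ := hne
    apply hxp
    rw [hFa]
    refine Finset.sum_eq_zero fun i hi => ?_
    have hi' : i < d + 1 := Finset.mem_range.mp hi
    have := hcon i (d - i) x (by omega)
    have e : i + (d - i) = d := by omega
    simp only [e, if_true] at this
    rw [this]; ring

/-- powers: `F^2 H^n` and `F H^n` are integrals -/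
theorem powers {Lam A B : ℝ × ℝ → ℝ} (h : Global Lam A B)
    (hL : SP (fun x => 1 / (2 * Lam (x 0, x 1))))
    (hA : SP (fun x => A (x 0, x 1))) (hB : SP (fun x => B (x 0, x 1))) (n : ℕ) :
    (IsHom (2 * n + 3) (fun x p => FM Lam A B x p * HN Lam x p ^ n) ∧
      ∀ x p, PB (fun x p => FM Lam A B x p * HN Lam x p ^ n) (HN Lam) x p = 0) ∧
    (IsHom (2 * n + 6) (fun x p => FM Lam A B x p ^ 2 * HN Lam x p ^ n) ∧
      ∀ x p, PB (fun x p => FM Lam A B x p ^ 2 * HN Lam x p ^ n) (HN Lam) x p = 0) := by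
  have hHN : IsHom 2 (HN Lam) := by
    have := isHom_one.mul_H hL
    simpa using this
  have hFM : IsHom 3 (FM Lam A B) := by
    have := isHom_one.mul_F h.pos hL hA hB
    simpa using this
  have hb : ∀ x p, PB (FM Lam A B) (HN Lam) x p = 0 := fun x p => bracket h x p
  induction n with
  | zero =>
    refine ⟨⟨?_, fun x p => ?_⟩, ?_, fun x p => ?_⟩
    · simpa using hFM
    · simpa using hb x p
    · have h1 := hFM.mul_F h.pos hL hA hB
      have e : (fun (x p : Fin 2 → ℝ) => FM Lam A B x p ^ 2 * HN Lam x p ^ 0)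
          = fun x p => FM Lam A B x p * FM Lam A B x p := by
        funext x p; ring
      rw [e]; exact h1
    · have e : (fun (x p : Fin 2 → ℝ) => FM Lam A B x p ^ 2 * HN Lam x p ^ 0)
          = fun x p => FM Lam A B x p * FM Lam A B x p := by
        funext x p; ring
      rw [e, PB_mul (hFM.diff_x p x) (hFM.diff_p x p) (hFM.diff_x p x) (hFM.diff_p x p), hb]
      ring
  | succ n ih =>
    obtain ⟨⟨i1, i2⟩, i3, i4⟩ := ih
    refine ⟨⟨?_, fun x p => ?_⟩, ?_, fun x p => ?_⟩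
    · have h1 := i1.mul_H hL
      have e : (fun (x p : Fin 2 → ℝ) => FM Lam A B x p * HN Lam x p ^ (n + 1))
          = fun x p => (FM Lam A B x p * HN Lam x p ^ n) * HN Lam x p := by
        funext x p; ring
      rw [e]
      have e2 : 2 * (n + 1) + 3 = 2 * n + 3 + 2 := by ring
      rw [e2]; exact h1
    · have e : (fun (x p : Fin 2 → ℝ) => FM Lam A B x p * HN Lam x p ^ (n + 1))
          = fun x p => (FM Lam A B x p * HN Lam x p ^ n) * HN Lam x p := by
        funext x p; ring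
      rw [e, PB_mul (i1.diff_x p x) (i1.diff_p x p) (hHN.diff_x p x) (hHN.diff_p x p), i2,
        PB_self]
      ring
    · have h1 := i3.mul_H hL
      have e : (fun (x p : Fin 2 → ℝ) => FM Lam A B x p ^ 2 * HN Lam x p ^ (n + 1))
          = fun x p => (FM Lam A B x p ^ 2 * HN Lam x p ^ n) * HN Lam x p := by
        funext x p; ring
      rw [e]
      have e2 : 2 * (n + 1) + 6 = 2 * n + 6 + 2 := by ring
      rw [e2]; exact h1
    · have e : (fun (x p : Fin 2 → ℝ) => FM Lam A B x p ^ 2 * HN Lam x p ^ (n + 1))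
          = fun x p => (FM Lam A B x p ^ 2 * HN Lam x p ^ n) * HN Lam x p := by
        funext x p; ring
      rw [e, PB_mul (i3.diff_x p x) (i3.diff_p x p) (hHN.diff_x p x) (hHN.diff_p x p), i4,
        PB_self]
      ring

end Cub
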