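import Mathlib
import Pool.Agent.Lib.MP_582a01_gt.Defs

/-!
# MP_582a01_gt, module Glue

The crossing solution is glued along a kagome arrangement of strips to a doubly periodic solution.
-/

set_option autoImplicit false
open scoped ContDiff
open Filter Topology

namespace Cub

/-! ### Fields and solutions -/

/-- a field is a triple of functions; it is a solution if it is smooth and satisfies the equations
everywhere -/
def GlueSol (G : ℝ × ℝ → ℝ × ℝ × ℝ) : Prop :=
  ContDiff ℝ ∞ G ∧ ∀ z, IsSolAt (fun w => (G w).1) (fun w => (G w).2.1) (fun w => (G w).2.2) z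

/-- near `z` the field coincides with a solution -/
def GlueGood (G : ℝ × ℝ → ℝ × ℝ × ℝ) (z : ℝ × ℝ) : Prop :=
  ∃ G', GlueSol G' ∧ G =ᶠ[𝓝 z] G'

/-- the rotation `(x₁,x₂) ↦ (x₂,x₃)` acting on fields -/
def glueRot (G : ℝ × ℝ → ℝ × ℝ × ℝ) (z : ℝ × ℝ) : ℝ × ℝ × ℝ :=
  ((G (z.2, -z.1 - z.2)).1, -(G (z.2, -z.1 - z.2)).2.1 - (G (z.2, -z.1 - z.2)).2.2,
    (G (z.2, -z.1 - z.2)).2.1)

theorem glue_isSolAt_congr {L A B L' A' B' : ℝ × ℝ → ℝ} {z : ℝ × ℝ} (hL : L =ᶠ[𝓝 z] L')
    (hA : A =ᶠ[𝓝 z] A') (hB : B =ᶠ[𝓝 z] B') (h : IsSolAt L' A' B' z) : IsSolAt L A B z := by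
  unfold IsSolAt kap at *
  rw [hL.fderiv_eq, hA.fderiv_eq, hB.fderiv_eq, hL.eq_of_nhds, hA.eq_of_nhds, hB.eq_of_nhds]
  exact h

theorem glue_sol_of_good {G : ℝ × ℝ → ℝ × ℝ × ℝ} (h : ∀ z, GlueGood G z) : GlueSol G := by
  constructor
  · rw [contDiff_iff_contDiffAt]
    intro z
    obtain ⟨G', hG', he⟩ := h z
    exact hG'.1.contDiffAt.congr_of_eventuallyEq he
  · intro z
    obtain ⟨G', hG', he⟩ := h z
    refine glue_isSolAt_congr ?_ ?_ ?_ (hG'.2 z)
    · filter_upwards [he] with w hw; rw [hw]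
    · filter_upwards [he] with w hw; rw [hw]
    · filter_upwards [he] with w hw; rw [hw]

theorem glue_fd {f : ℝ × ℝ → ℝ} (hf : Differentiable ℝ f) (z : ℝ × ℝ) :
    fderiv ℝ (fun w : ℝ × ℝ => f (w.2, -w.1 - w.2)) z (1,0)
      = - fderiv ℝ f (z.2, -z.1 - z.2) (0,1) ∧
    fderiv ℝ (fun w : ℝ × ℝ => f (w.2, -w.1 - w.2)) z (0,1)
      = fderiv ℝ f (z.2, -z.1 - z.2) (1,0) - fderiv ℝ f (z.2, -z.1 - z.2) (0,1) := by
  set T : ℝ × ℝ →L[ℝ] ℝ × ℝ := (ContinuousLinearMap.snd ℝ ℝ ℝ).prod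
    (-(ContinuousLinearMap.fst ℝ ℝ ℝ) - ContinuousLinearMap.snd ℝ ℝ ℝ) with hT
  have hTz : ∀ w : ℝ × ℝ, T w = (w.2, -w.1 - w.2) := fun w => rfl
  have h1 : HasFDerivAt (fun w : ℝ × ℝ => f (T w)) ((fderiv ℝ f (T z)).comp T) z :=
    (hf (T z)).hasFDerivAt.comp z T.hasFDerivAt
  have h2 : fderiv ℝ (fun w : ℝ × ℝ => f (w.2, -w.1 - w.2)) z = (fderiv ℝ f (T z)).comp T :=
    h1.fderiv
  have e1 : T (1,0) = -((0:ℝ),(1:ℝ)) := by rw [hTz]; ext <;> simp
  have e2 : T (0,1) = ((1:ℝ),(0:ℝ)) - ((0:ℝ),(1:ℝ)) := by rw [hTz]; ext <;> simp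
  rw [h2]
  constructor
  · rw [ContinuousLinearMap.comp_apply, e1, map_neg, hTz]
  · rw [ContinuousLinearMap.comp_apply, e2, map_sub, hTz]

theorem glue_rot_sol {G : ℝ × ℝ → ℝ × ℝ × ℝ} (h : GlueSol G) : GlueSol (glueRot G) := by
  obtain ⟨hs, hsol⟩ := h
  have hT : ContDiff ℝ ∞ (fun z : ℝ × ℝ => ((z.2, -z.1 - z.2) : ℝ × ℝ)) :=
    contDiff_snd.prodMk (contDiff_fst.neg.sub contDiff_snd)
  have hGT : ContDiff ℝ ∞ (fun z : ℝ × ℝ => G (z.2, -z.1 - z.2)) := hs.comp hT
  constructor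
  · unfold glueRot
    exact hGT.fst.prodMk ((hGT.snd.fst.neg.sub hGT.snd.snd).prodMk hGT.snd.fst)
  · intro z
    have hL : Differentiable ℝ (fun w => (G w).1) := hs.fst.differentiable (by simp)
    have hA : Differentiable ℝ (fun w => (G w).2.1) := hs.snd.fst.differentiable (by simp)
    have hB : Differentiable ℝ (fun w => (G w).2.2) := hs.snd.snd.differentiable (by simp)
    have hC : Differentiable ℝ (fun w => -(G w).2.1 - (G w).2.2) := hA.neg.sub hB
    obtain ⟨L1, L2⟩ := glue_fd hL z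
    obtain ⟨A1, A2⟩ := glue_fd hA z
    obtain ⟨C1, C2⟩ := glue_fd hC z
    have hCd : fderiv ℝ (fun w => -(G w).2.1 - (G w).2.2) (z.2, -z.1 - z.2) =
        -fderiv ℝ (fun w => (G w).2.1) (z.2, -z.1 - z.2)
          - fderiv ℝ (fun w => (G w).2.2) (z.2, -z.1 - z.2) := by
      have := (((hA (z.2, -z.1 - z.2)).hasFDerivAt).neg.sub
        ((hB (z.2, -z.1 - z.2)).hasFDerivAt)).fderiv
      exact this
    rw [hCd] at C1 C2
    simp only [sub_apply, neg_apply] at C1 C2
    obtain ⟨E1, E2, E3⟩ := hsol (z.2, -z.1 - z.2)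
    have hk : kap (fun w => (glueRot G w).1) (fun w => (glueRot G w).2.1)
        (fun w => (glueRot G w).2.2) z =
        kap (fun w => (G w).1) (fun w => (G w).2.1) (fun w => (G w).2.2) (z.2, -z.1 - z.2) := by
      unfold kap glueRot
      simp only
      rw [L1, L2]
      ring
    unfold IsSolAt
    rw [hk]
    unfold glueRot
    simp only
    rw [L1, L2, A1, A2, C1, C2]
    refine ⟨?_, ?_, ?_⟩
    · linear_combination E1 + E2 + E3
    · linear_combination E1
    · linear_combination (-2) * E1 - E3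

theorem glue_trans_sol {G : ℝ × ℝ → ℝ × ℝ × ℝ} (h : GlueSol G) (c : ℝ × ℝ) :
    GlueSol (fun z => G (z - c)) := by
  obtain ⟨hs, hsol⟩ := h
  constructor
  · exact hs.comp (contDiff_id.sub contDiff_const)
  · intro z
    have key : ∀ f : ℝ × ℝ → ℝ, fderiv ℝ (fun w => f (w - c)) z = fderiv ℝ f (z - c) :=
      fun f => fderiv_comp_sub c
    have := hsol (z - c)
    unfold IsSolAt kap at *
    rw [key (fun w => (G w).1), key (fun w => (G w).2.1), key (fun w => (G w).2.2)]
    exact this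

theorem glue_const_sol : GlueSol (fun _ => (1/3, 0, 0)) := by
  refine ⟨contDiff_const, fun z => ?_⟩
  unfold IsSolAt kap
  simp

theorem glue_good_rot {G : ℝ × ℝ → ℝ × ℝ × ℝ} {z : ℝ × ℝ}
    (h : GlueGood G (z.2, -z.1 - z.2)) : GlueGood (glueRot G) z := by
  obtain ⟨G', hG', he⟩ := h
  refine ⟨glueRot G', glue_rot_sol hG', ?_⟩
  have hc : ContinuousAt (fun w : ℝ × ℝ => ((w.2, -w.1 - w.2) : ℝ × ℝ)) z := by fun_prop
  filter_upwards [hc.eventually he] with w hw
  unfold glueRot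
  rw [hw]

/-! ### Reduction modulo the lattice -/

/-- reduced coordinate -/
noncomputable def glueRed (y : ℝ) : ℝ := (y - 1/6) - round (y - 1/6)

theorem glue_red_abs_le (y : ℝ) : |glueRed y| ≤ 1/2 := abs_sub_round _

theorem glue_round_of_lt {t : ℝ} {k : ℤ} (h : |t - k| < 1/2) : round t = k := by
  rw [round_eq, Int.floor_eq_iff]
  obtain ⟨h1, h2⟩ := abs_lt.1 h
  constructor <;> linarith

theorem glue_red_eq {y : ℝ} {k : ℤ} (h : |y - 1/6 - k| < 1/2) : glueRed y = y - 1/6 - k := by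
  unfold glueRed
  rw [glue_round_of_lt h]

theorem glue_red_add_one (y : ℝ) : glueRed (y + 1) = glueRed y := by
  unfold glueRed
  rw [show y + 1 - 1/6 = (y - 1/6) + 1 by ring, round_add_one]
  push_cast
  ring

theorem glue_red_sub_one (y : ℝ) : glueRed (y - 1) = glueRed y := by
  have := glue_red_add_one (y - 1)
  rw [show y - 1 + 1 = y by ring] at this
  exact this.symm

theorem glue_continuous_abs_red : Continuous (fun y : ℝ => |glueRed y|) := by
  have h : (fun y : ℝ => |glueRed y|) = fun y : ℝ => ‖((y - 1/6 : ℝ) : UnitAddCircle)‖ := by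
    funext y
    rw [UnitAddCircle.norm_eq]
    rfl
  rw [h]
  exact continuous_norm.comp (continuous_quotient_mk'.comp (continuous_id.sub continuous_const))

/-- the sum of the three reduced coordinates is a half-integer -/
theorem glue_sum (x y : ℝ) :
    ∃ K : ℤ, glueRed x + glueRed y + glueRed (-x - y) = -1/2 - K := by
  refine ⟨round (x - 1/6) + round (y - 1/6) + round (-x - y - 1/6), ?_⟩
  unfold glueRed
  push_cast
  ring

theorem glue_sum_abs (x y : ℝ) : 1/2 ≤ |glueRed x + glueRed y + glueRed (-x - y)| := by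
  obtain ⟨K, hK⟩ := glue_sum x y
  rw [hK]
  rcases le_or_gt 0 K with h | h
  · have : (0:ℝ) ≤ K := by exact_mod_cast h
    rw [abs_of_nonpos (by linarith)]
    linarith
  · have : (K:ℝ) ≤ -1 := by exact_mod_cast (by omega : K ≤ -1)
    rw [abs_of_nonneg (by linarith)]
    linarith

/-- if one reduced coordinate is `± 1/2`, then the two others have the same absolute value -/
theorem glue_half {a b c : ℝ} {K : ℤ} (hs : a + b + c = -1/2 - K) (ha : |a| = 1/2)
    (hb : |b| ≤ 1/2) (hc : |c| ≤ 1/2) : |b| = |c| := by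
  obtain ⟨hb1, hb2⟩ := abs_le.1 hb
  obtain ⟨hc1, hc2⟩ := abs_le.1 hc
  have key : ∀ M : ℤ, b + c = M → |b| = |c| := by
    intro M hM
    have h1 : (M:ℝ) ≤ 1 := by linarith
    have h2 : (-1:ℝ) ≤ M := by linarith
    have h1' : M ≤ 1 := by exact_mod_cast h1
    have h2' : -1 ≤ M := by exact_mod_cast h2
    have : M = -1 ∨ M = 0 ∨ M = 1 := by omega
    rcases this with rfl | rfl | rfl
    · push_cast at hM
      have e1 : b = -1/2 := by linarith
      have e2 : c = -1/2 := by linarith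
      rw [e1, e2]
    · push_cast at hM
      have e1 : b = -c := by linarith
      rw [e1, abs_neg]
    · push_cast at hM
      have e1 : b = 1/2 := by linarith
      have e2 : c = 1/2 := by linarith
      rw [e1, e2]
  rcases abs_eq (by norm_num : (0:ℝ) ≤ 1/2) |>.1 ha with h | h
  · exact key (-1 - K) (by push_cast; linarith)
  · exact key (-K) (by push_cast; linarith)

/-! ### The local fields -/

/-- the field of the crossing -/
def glueC (Lam A B : ℝ × ℝ → ℝ) (z : ℝ × ℝ) : ℝ × ℝ × ℝ := (Lam z, A z, B z)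

/-- the crossing of the first two families of strips, repeated periodically -/
noncomputable def glueM (C : ℝ × ℝ → ℝ × ℝ × ℝ) (z : ℝ × ℝ) : ℝ × ℝ × ℝ :=
  C (glueRed z.1, glueRed z.2)

/-- the glued field -/
noncomputable def glueG (C : ℝ × ℝ → ℝ × ℝ × ℝ) (z : ℝ × ℝ) : ℝ × ℝ × ℝ :=
  if 1/8 ≤ |glueRed (-z.1 - z.2)| then glueM C z
  else if 1/8 ≤ |glueRed z.1| then glueRot (glueM C) z
  else glueRot (glueRot (glueM C)) z

section

variable {Lam A B : ℝ × ℝ → ℝ} {Ro Ri : ℝ → ℝ}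

theorem glue_flat (h : Crossing Lam A B Ro Ri) {s t : ℝ} (hs : 1/10 ≤ |s|) (ht : 1/10 ≤ |t|) :
    Lam (s,t) = 1/3 ∧ A (s,t) = 0 ∧ B (s,t) = 0 := by
  rcases le_abs.1 ht with h1 | h1
  · obtain ⟨e1, e2, e3⟩ := h.top s t h1
    rw [h.ro0 s hs] at e1 e3
    exact ⟨by rw [e1]; ring, e2, by rw [e3]; ring⟩
  · obtain ⟨e1, e2, e3⟩ := h.bot s t (by linarith)
    rw [h.ri0 s hs] at e1 e3
    exact ⟨by rw [e1]; ring, e2, by rw [e3]; ring⟩

theorem glue_crossing_sol (h : Crossing Lam A B Ro Ri) : GlueSol (glueC Lam A B) :=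
  ⟨h.smoothL.prodMk (h.smoothA.prodMk h.smoothB), h.sol⟩

theorem glue_good_flat (h : Crossing Lam A B Ro Ri) {z : ℝ × ℝ} (h1 : 1/10 < |glueRed z.1|)
    (h2 : 1/10 < |glueRed z.2|) : GlueGood (glueM (glueC Lam A B)) z := by
  refine ⟨fun _ => (1/3, 0, 0), glue_const_sol, ?_⟩
  have c1 : ContinuousAt (fun w : ℝ × ℝ => |glueRed w.1|) z :=
    (glue_continuous_abs_red.comp continuous_fst).continuousAt
  have c2 : ContinuousAt (fun w : ℝ × ℝ => |glueRed w.2|) z :=
    (glue_continuous_abs_red.comp continuous_snd).continuousAt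
  filter_upwards [c1.eventually (lt_mem_nhds h1), c2.eventually (lt_mem_nhds h2)] with w w1 w2
  obtain ⟨e1, e2, e3⟩ := glue_flat h w1.le w2.le
  unfold glueM glueC
  rw [e1, e2, e3]

theorem glue_good12 (h : Crossing Lam A B Ro Ri) {z : ℝ × ℝ}
    (h3 : 1/10 < |glueRed (-z.1 - z.2)|) : GlueGood (glueM (glueC Lam A B)) z := by
  obtain ⟨K, hK⟩ := glue_sum z.1 z.2
  by_cases h1 : |glueRed z.1| < 1/2
  · by_cases h2 : |glueRed z.2| < 1/2
    · set k1 := round (z.1 - 1/6) with hk1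
      set k2 := round (z.2 - 1/6) with hk2
      refine ⟨fun w => glueC Lam A B (w - ((1/6 + (k1:ℝ), 1/6 + (k2:ℝ)) : ℝ × ℝ)),
        glue_trans_sol (glue_crossing_sol h) _, ?_⟩
      have c1 : ContinuousAt (fun w : ℝ × ℝ => |w.1 - 1/6 - k1|) z := by fun_prop
      have c2 : ContinuousAt (fun w : ℝ × ℝ => |w.2 - 1/6 - k2|) z := by fun_prop
      have h1' : |z.1 - 1/6 - k1| < 1/2 := h1
      have h2' : |z.2 - 1/6 - k2| < 1/2 := h2
      filter_upwards [c1.eventually (gt_mem_nhds h1'), c2.eventually (gt_mem_nhds h2')]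
        with w w1 w2
      unfold glueM
      rw [glue_red_eq w1, glue_red_eq w2]
      congr 1
      ext
      · simp only [Prod.fst_sub]; ring
      · simp only [Prod.snd_sub]; ring
    · have e : |glueRed z.2| = 1/2 := le_antisymm (glue_red_abs_le _) (not_lt.1 h2)
      have e2 : |glueRed z.1| = |glueRed (-z.1 - z.2)| :=
        glue_half (K := K) (by rw [← hK]; ring) e (glue_red_abs_le _) (glue_red_abs_le _)
      exact glue_good_flat h (by rw [e2]; exact h3) (by rw [e]; norm_num)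
  · have e : |glueRed z.1| = 1/2 := le_antisymm (glue_red_abs_le _) (not_lt.1 h1)
    have e2 : |glueRed z.2| = |glueRed (-z.1 - z.2)| :=
      glue_half (K := K) (by rw [← hK]) e (glue_red_abs_le _) (glue_red_abs_le _)
    exact glue_good_flat h (by rw [e]; norm_num) (by rw [e2]; exact h3)

theorem glue_third (x y : ℝ) : -y - (-x - y) = x := by ring

theorem glue_good23 (h : Crossing Lam A B Ro Ri) {z : ℝ × ℝ} (h1 : 1/10 < |glueRed z.1|) :
    GlueGood (glueRot (glueM (glueC Lam A B))) z := by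
  apply glue_good_rot
  apply glue_good12 h
  rw [glue_third]
  exact h1

theorem glue_good31 (h : Crossing Lam A B Ro Ri) {z : ℝ × ℝ} (h2 : 1/10 < |glueRed z.2|) :
    GlueGood (glueRot (glueRot (glueM (glueC Lam A B)))) z := by
  apply glue_good_rot
  apply glue_good23 h
  exact h2

/-! ### Overlaps -/

theorem glue_same_sign {a b c : ℝ} (hs : 1/2 ≤ |a + b + c|) (ha : |a| ≤ 1/2) (hc : |c| ≤ 1/2)
    (hb : |b| < 1/10) (ha' : 1/10 < |a|) (hc' : 1/10 < |c|) :
    (1/10 ≤ a ∧ 1/10 ≤ c) ∨ (a ≤ -(1/10) ∧ c ≤ -(1/10)) := by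
  obtain ⟨a1, a2⟩ := abs_le.1 ha
  obtain ⟨c1, c2⟩ := abs_le.1 hc
  obtain ⟨b1, b2⟩ := abs_lt.1 hb
  rcases lt_abs.1 ha' with h1 | h1
  · rcases lt_abs.1 hc' with h2 | h2
    · exact Or.inl ⟨h1.le, h2.le⟩
    · exfalso
      have : |a + b + c| < 1/2 := by rw [abs_lt]; constructor <;> linarith
      linarith
  · rcases lt_abs.1 hc' with h2 | h2
    · exfalso
      have : |a + b + c| < 1/2 := by rw [abs_lt]; constructor <;> linarith
      linarith
    · exact Or.inr ⟨by linarith, by linarith⟩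

theorem glue_overlap (h : Crossing Lam A B Ro Ri) {z : ℝ × ℝ} (h1 : 1/10 < |glueRed z.1|)
    (h3 : 1/10 < |glueRed (-z.1 - z.2)|) :
    glueM (glueC Lam A B) z = glueRot (glueM (glueC Lam A B)) z := by
  unfold glueRot glueM glueC
  simp only
  by_cases h2 : 1/10 ≤ |glueRed z.2|
  · obtain ⟨e1, e2, e3⟩ := glue_flat h h1.le h2
    obtain ⟨f1, f2, f3⟩ := glue_flat h h2 h3.le
    rw [e1, e2, e3, f1, f2, f3]
    norm_num
  · rcases glue_same_sign (glue_sum_abs z.1 z.2) (glue_red_abs_le _) (glue_red_abs_le _)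
      (not_le.1 h2) h1 h3 with ⟨g1, g3⟩ | ⟨g1, g3⟩
    · obtain ⟨e1, e2, e3⟩ := h.right (glueRed z.1) (glueRed z.2) g1
      obtain ⟨f1, f2, f3⟩ := h.top (glueRed z.2) (glueRed (-z.1 - z.2)) g3
      rw [e1, e2, e3, f1, f2, f3]
      simp
    · obtain ⟨e1, e2, e3⟩ := h.left (glueRed z.1) (glueRed z.2) g1
      obtain ⟨f1, f2, f3⟩ := h.bot (glueRed z.2) (glueRed (-z.1 - z.2)) g3
      rw [e1, e2, e3, f1, f2, f3]
      simp

theorem glue_rot_congr {G G' : ℝ × ℝ → ℝ × ℝ × ℝ} {z : ℝ × ℝ}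
    (h : G (z.2, -z.1 - z.2) = G' (z.2, -z.1 - z.2)) : glueRot G z = glueRot G' z := by
  unfold glueRot
  rw [h]

theorem glue_rot_three (G : ℝ × ℝ → ℝ × ℝ × ℝ) (z : ℝ × ℝ) :
    glueRot (glueRot (glueRot G)) z = G z := by
  have e : ((-z.2 - (-z.1 - z.2) : ℝ), -(-z.1 - z.2) - (-z.2 - (-z.1 - z.2))) = z := by
    ext
    · simp only; ring
    · simp only; ring
  unfold glueRot
  simp only
  rw [e]
  ext
  · rfl
  · simp only; ring
  · simp only; ring

theorem glue_overlap2 (h : Crossing Lam A B Ro Ri) {z : ℝ × ℝ} (h1 : 1/10 < |glueRed z.1|)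
    (h2 : 1/10 < |glueRed z.2|) :
    glueRot (glueM (glueC Lam A B)) z = glueRot (glueRot (glueM (glueC Lam A B))) z := by
  apply glue_rot_congr
  apply glue_overlap h
  · exact h2
  · rw [glue_third]; exact h1

theorem glue_overlap3 (h : Crossing Lam A B Ro Ri) {z : ℝ × ℝ} (h2 : 1/10 < |glueRed z.2|)
    (h3 : 1/10 < |glueRed (-z.1 - z.2)|) :
    glueM (glueC Lam A B) z = glueRot (glueRot (glueM (glueC Lam A B))) z := by
  rw [← glue_rot_three (glueM (glueC Lam A B)) z]
  symm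
  apply glue_rot_congr
  apply glue_overlap2 h
  · exact h2
  · exact h3

theorem glue_mid {x y : ℝ} (h1 : |glueRed x| < 1/8) (h3 : |glueRed (-x - y)| < 1/8) :
    1/10 < |glueRed y| := by
  have hs := glue_sum_abs x y
  have h := abs_add_three (glueRed x) (glueRed y) (glueRed (-x - y))
  linarith

theorem glue_eq3 (h : Crossing Lam A B Ro Ri) {z : ℝ × ℝ}
    (h3 : 1/10 < |glueRed (-z.1 - z.2)|) :
    glueG (glueC Lam A B) z = glueM (glueC Lam A B) z := by
  unfold glueG
  by_cases c1 : 1/8 ≤ |glueRed (-z.1 - z.2)|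
  · rw [if_pos c1]
  · rw [if_neg c1]
    by_cases c2 : 1/8 ≤ |glueRed z.1|
    · rw [if_pos c2]
      exact (glue_overlap h (by linarith) h3).symm
    · rw [if_neg c2]
      exact (glue_overlap3 h (glue_mid (not_le.1 c2) (not_le.1 c1)) h3).symm

theorem glue_eq1 (h : Crossing Lam A B Ro Ri) {z : ℝ × ℝ} (h1 : 1/10 < |glueRed z.1|) :
    glueG (glueC Lam A B) z = glueRot (glueM (glueC Lam A B)) z := by
  unfold glueG
  by_cases c1 : 1/8 ≤ |glueRed (-z.1 - z.2)|
  · rw [if_pos c1]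
    exact glue_overlap h h1 (by linarith)
  · rw [if_neg c1]
    by_cases c2 : 1/8 ≤ |glueRed z.1|
    · rw [if_pos c2]
    · rw [if_neg c2]
      exact (glue_overlap2 h h1 (glue_mid (not_le.1 c2) (not_le.1 c1))).symm

theorem glue_eq2 (h : Crossing Lam A B Ro Ri) {z : ℝ × ℝ} (h2 : 1/10 < |glueRed z.2|) :
    glueG (glueC Lam A B) z = glueRot (glueRot (glueM (glueC Lam A B))) z := by
  unfold glueG
  by_cases c1 : 1/8 ≤ |glueRed (-z.1 - z.2)|
  · rw [if_pos c1]
    exact glue_overlap3 h h2 (by linarith)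
  · rw [if_neg c1]
    by_cases c2 : 1/8 ≤ |glueRed z.1|
    · rw [if_pos c2]
      exact glue_overlap2 h (by linarith) h2
    · rw [if_neg c2]

theorem glue_good_of_eq {G G' : ℝ × ℝ → ℝ × ℝ × ℝ} {f : ℝ × ℝ → ℝ} (hf : Continuous f)
    (he : ∀ w, 1/10 < f w → G w = G' w) {z : ℝ × ℝ} (hz : 1/10 < f z) (hg : GlueGood G' z) :
    GlueGood G z := by
  obtain ⟨G'', hs, hh⟩ := hg
  refine ⟨G'', hs, ?_⟩
  filter_upwards [hf.continuousAt.eventually (lt_mem_nhds hz), hh] with w w1 w2
  rw [he w w1, w2]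

theorem glue_sol_G (h : Crossing Lam A B Ro Ri) : GlueSol (glueG (glueC Lam A B)) := by
  apply glue_sol_of_good
  intro z
  by_cases h3 : 1/10 < |glueRed (-z.1 - z.2)|
  · exact glue_good_of_eq (f := fun w => |glueRed (-w.1 - w.2)|)
      (glue_continuous_abs_red.comp (continuous_fst.neg.sub continuous_snd))
      (fun w hw => glue_eq3 h hw) h3 (glue_good12 h h3)
  by_cases h1 : 1/10 < |glueRed z.1|
  · exact glue_good_of_eq (f := fun w => |glueRed w.1|)
      (glue_continuous_abs_red.comp continuous_fst)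
      (fun w hw => glue_eq1 h hw) h1 (glue_good23 h h1)
  have h2 : 1/10 < |glueRed z.2| :=
    glue_mid (x := z.1) (y := z.2) (by linarith [not_lt.1 h1]) (by linarith [not_lt.1 h3])
  exact glue_good_of_eq (f := fun w => |glueRed w.2|)
    (glue_continuous_abs_red.comp continuous_snd)
    (fun w hw => glue_eq2 h hw) h2 (glue_good31 h h2)

theorem glue_pos (h : Crossing Lam A B Ro Ri) (z : ℝ × ℝ) :
    0 < (glueG (glueC Lam A B) z).1 := by
  unfold glueG
  split_ifs
  · exact h.pos _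
  · exact h.pos _
  · exact h.pos _

theorem glue_per1 (C : ℝ × ℝ → ℝ × ℝ × ℝ) (x y : ℝ) : glueG C (x+1,y) = glueG C (x,y) := by
  have e1 : glueRed (-(x+1) - y) = glueRed (-x - y) := by
    rw [show -(x+1) - y = (-x - y) - 1 by ring, glue_red_sub_one]
  have e2 : glueRed (x+1) = glueRed x := glue_red_add_one x
  have e3 : glueRed (-y - (-(x+1) - y)) = glueRed (-y - (-x - y)) := by
    rw [glue_third, glue_third, e2]
  unfold glueG glueRot glueM
  simp only
  rw [e1, e2, e3]

theorem glue_per2 (C : ℝ × ℝ → ℝ × ℝ × ℝ) (x y : ℝ) : glueG C (x,y+1) = glueG C (x,y) := by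
  have e1 : glueRed (-x - (y+1)) = glueRed (-x - y) := by
    rw [show -x - (y+1) = (-x - y) - 1 by ring, glue_red_sub_one]
  have e2 : glueRed (y+1) = glueRed y := glue_red_add_one y
  have e3 : glueRed (-(y+1) - (-x - (y+1))) = glueRed (-y - (-x - y)) := by
    rw [glue_third, glue_third]
  unfold glueG glueRot glueM
  simp only
  rw [e1, e2, e3]

/-- The doubly periodic solution. -/
theorem global_of_crossing {Lam A B : ℝ × ℝ → ℝ} {Ro Ri : ℝ → ℝ}
    (h : Crossing Lam A B Ro Ri) :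
    ∃ Lam A B : ℝ × ℝ → ℝ, Global Lam A B := by
  have hs := glue_sol_G h
  refine ⟨fun z => (glueG (glueC Lam A B) z).1, fun z => (glueG (glueC Lam A B) z).2.1,
    fun z => (glueG (glueC Lam A B) z).2.2, ?_⟩
  refine
    { smoothL := hs.1.fst
      smoothA := hs.1.snd.fst
      smoothB := hs.1.snd.snd
      pos := glue_pos h
      sol := hs.2
      per1 := fun x y => by simp only [glue_per1, and_self]
      per2 := fun x y => by simp only [glue_per2, and_self]
      flat := ?_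
      arms := ?_ }
  · refine ⟨(0,0), ?_⟩
    have r0 : glueRed 0 = -(1/6) := by
      rw [glue_red_eq (k := 0) (by norm_num [abs_lt])]
      norm_num
    have r1 : glueRed (-(0:ℝ) - 0) = -(1/6) := by
      rw [show -(0:ℝ) - 0 = 0 by ring, r0]
    have e : glueG (glueC Lam A B) (0,0) = glueM (glueC Lam A B) (0,0) := by
      apply glue_eq3 h
      simp only
      rw [r1]
      norm_num [abs_of_neg]
    obtain ⟨-, e2, e3⟩ := glue_flat h (s := -(1/6)) (t := -(1/6)) (by norm_num) (by norm_num)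
    simp only [e]
    unfold glueM glueC
    simp only
    rw [r0]
    exact ⟨e2, e3⟩
  · refine ⟨Ri, h.smoothRi, h.nontriv, h.ri0, ?_, ?_⟩
    · intro s t hs ht
      obtain ⟨s1, s2⟩ := abs_lt.1 hs
      obtain ⟨t1, t2⟩ := abs_lt.1 ht
      have r1 : glueRed (1/6 + s) = s := by
        rw [glue_red_eq (k := 0) (by rw [abs_lt]; push_cast; constructor <;> linarith)]
        push_cast; ring
      have r2 : glueRed (-1/12 + t) = -1/4 + t := by
        rw [glue_red_eq (k := 0) (by rw [abs_lt]; push_cast; constructor <;> linarith)]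
        push_cast; ring
      have r3 : glueRed (-(1/6 + s) - (-1/12 + t)) = -1/4 - s - t := by
        rw [glue_red_eq (k := 0) (by rw [abs_lt]; push_cast; constructor <;> linarith)]
        push_cast; ring
      have e : glueG (glueC Lam A B) (1/6 + s, -1/12 + t) =
          glueM (glueC Lam A B) (1/6 + s, -1/12 + t) := by
        apply glue_eq3 h
        simp only
        rw [r3, lt_abs]
        right
        linarith
      simp only [e]
      unfold glueM glueC
      simp only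
      rw [r1, r2]
      exact (h.bot s (-1/4 + t) (by linarith)).1
    · intro s t hs ht
      obtain ⟨s1, s2⟩ := abs_lt.1 hs
      obtain ⟨t1, t2⟩ := abs_lt.1 ht
      have r1 : glueRed (1/6 + s) = s := by
        rw [glue_red_eq (k := 0) (by rw [abs_lt]; push_cast; constructor <;> linarith)]
        push_cast; ring
      have r2 : glueRed (-1/12 + t) = -1/4 + t := by
        rw [glue_red_eq (k := 0) (by rw [abs_lt]; push_cast; constructor <;> linarith)]
        push_cast; ring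
      have r3 : glueRed (-(-1/12 + t) - (1/6 + s)) = -1/4 - s - t := by
        rw [glue_red_eq (k := 0) (by rw [abs_lt]; push_cast; constructor <;> linarith)]
        push_cast; ring
      have e : glueG (glueC Lam A B) (-1/12 + t, 1/6 + s) =
          glueM (glueC Lam A B) (-1/12 + t, 1/6 + s) := by
        apply glue_eq3 h
        simp only
        rw [r3, lt_abs]
        right
        linarith
      simp only [e]
      unfold glueM glueC
      simp only
      rw [r1, r2]
      exact (h.left (-1/4 + t) s (by linarith)).1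

end

end Cub
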