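import Mathlib
import Pool.Agent.Lib.MP_582a01_gt.Defs

/-!
# MP_582a01_gt : module State

The inverse function theorem for `(m,n) ↦ (U m n, U n m)`.
-/

set_option autoImplicit false
open scoped ContDiff Topology
open Filter

namespace Cub

namespace StateAux

/-- normalised invariant -/
noncomputable def g (m n : ℝ) : ℝ := - U m n / 27

/-- the map to be inverted; its derivative at `0` is the identity -/
noncomputable def G (z : ℝ × ℝ) : ℝ × ℝ := (g z.2 z.1, g z.1 z.2)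

theorem contDiffAt_U : ContDiffAt ℝ ω (fun z : ℝ × ℝ => U z.1 z.2) (0,0) := by
  unfold U na nc
  apply ContDiffAt.div
  · fun_prop
  · fun_prop
  · norm_num

theorem hasDerivAt_na1 : HasDerivAt (fun t : ℝ => na t 0) 6 0 := by
  have h : HasDerivAt (fun t : ℝ => 1 + 6 * t + 12 * t^2 + 8 * t^3)
      (0 + 6 * 1 + 12 * (2 * (0:ℝ)^1 * 1) + 8 * (3 * (0:ℝ)^2 * 1)) 0 := by
    have h1 := hasDerivAt_id' (0:ℝ)
    have h2 := (h1.pow 2)
    have h3 := (h1.pow 3)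
    exact (((hasDerivAt_const (0:ℝ) (1:ℝ)).add (h1.const_mul 6)).add (h2.const_mul 12)).add
      (h3.const_mul 8)
  have e : (fun t : ℝ => na t 0) = fun t : ℝ => 1 + 6 * t + 12 * t^2 + 8 * t^3 := by
    funext t; unfold na; ring
  rw [e]
  norm_num at h ⊢
  exact h

theorem hasDerivAt_na2 : HasDerivAt (fun t : ℝ => na 0 t) (-8) 0 := by
  have h : HasDerivAt (fun t : ℝ => 1 + (-8) * t + (-8) * t^2)
      (0 + (-8) * 1 + (-8) * (2 * (0:ℝ)^1 * 1)) 0 := by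
    have h1 := hasDerivAt_id' (0:ℝ)
    have h2 := (h1.pow 2)
    exact (((hasDerivAt_const (0:ℝ) (1:ℝ)).add (h1.const_mul (-8))).add (h2.const_mul (-8)))
  have e : (fun t : ℝ => na 0 t) = fun t : ℝ => 1 + (-8) * t + (-8) * t^2 := by
    funext t; unfold na; ring
  rw [e]
  norm_num at h ⊢
  exact h

theorem hasDerivAt_nc1 : HasDerivAt (fun t : ℝ => nc t 0) 6 0 := by
  have e : (fun t : ℝ => nc t 0) = fun t : ℝ => na t 0 := by
    funext t; unfold nc na; ring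
  rw [e]
  exact hasDerivAt_na1

theorem hasDerivAt_nc2 : HasDerivAt (fun t : ℝ => nc 0 t) 6 0 := by
  have e : (fun t : ℝ => nc 0 t) = fun t : ℝ => na t 0 := by
    funext t; unfold nc na; ring
  rw [e]
  exact hasDerivAt_na1

theorem na00 : na 0 0 = 1 := by norm_num [na]
theorem nc00 : nc 0 0 = 1 := by norm_num [nc]
theorem U00 : U 0 0 = 1 := by norm_num [U, na00, nc00]

theorem hasDerivAt_U1 : HasDerivAt (fun t : ℝ => U t 0) 0 0 := by
  have hne : ((fun t : ℝ => nc t 0) ^ 2) 0 ≠ 0 := by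
    show nc 0 0 ^ 2 ≠ 0
    rw [nc00]; norm_num
  have h := (((hasDerivAt_na1.pow 2).const_mul (1 + (0:ℝ) + 0^2)).div (hasDerivAt_nc1.pow 2)
    hne)
  refine HasDerivAt.congr_deriv (f := fun t : ℝ => U t 0) h ?_
  simp [na00, nc00]

theorem hasDerivAt_U2 : HasDerivAt (fun t : ℝ => U 0 t) (-27) 0 := by
  have hq : HasDerivAt (fun t : ℝ => 1 + t + t^2) (0 + 1 + (2 * (0:ℝ)^1 * 1)) 0 := by
    have h1 := hasDerivAt_id' (0:ℝ)
    exact ((hasDerivAt_const (0:ℝ) (1:ℝ)).add h1).add (h1.pow 2)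
  have hne : ((fun t : ℝ => nc 0 t) ^ 2) 0 ≠ 0 := by
    show nc 0 0 ^ 2 ≠ 0
    rw [nc00]; norm_num
  have h := ((hq.mul (hasDerivAt_na2.pow 2)).div (hasDerivAt_nc2.pow 2) hne)
  refine HasDerivAt.congr_deriv (f := fun t : ℝ => U 0 t) h ?_
  simp [na00, nc00]
  norm_num

theorem hasFDerivAt_U :
    HasFDerivAt (fun z : ℝ × ℝ => U z.1 z.2) ((-27:ℝ) • ContinuousLinearMap.snd ℝ ℝ ℝ) (0,0) := by
  have hd : DifferentiableAt ℝ (fun z : ℝ × ℝ => U z.1 z.2) (0,0) :=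
    contDiffAt_U.differentiableAt (by simp)
  have hf := hd.hasFDerivAt
  have h1 : (fderiv ℝ (fun z : ℝ × ℝ => U z.1 z.2) (0,0)) (1,0) = 0 := by
    have hc : HasDerivAt (fun t : ℝ => ((t, (0:ℝ)) : ℝ × ℝ)) ((1:ℝ), (0:ℝ)) 0 :=
      (hasDerivAt_id' (0:ℝ)).prodMk (hasDerivAt_const (0:ℝ) (0:ℝ))
    have h2 := HasFDerivAt.comp_hasDerivAt (0:ℝ) (f := fun t : ℝ => ((t, (0:ℝ)) : ℝ × ℝ)) hf hc
    exact h2.unique hasDerivAt_U1
  have h2 : (fderiv ℝ (fun z : ℝ × ℝ => U z.1 z.2) (0,0)) (0,1) = -27 := by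
    have hc : HasDerivAt (fun t : ℝ => (((0:ℝ), t) : ℝ × ℝ)) ((0:ℝ), (1:ℝ)) 0 :=
      (hasDerivAt_const (0:ℝ) (0:ℝ)).prodMk (hasDerivAt_id' (0:ℝ))
    have h2 := HasFDerivAt.comp_hasDerivAt (0:ℝ) (f := fun t : ℝ => (((0:ℝ), t) : ℝ × ℝ)) hf hc
    exact h2.unique hasDerivAt_U2
  have he : fderiv ℝ (fun z : ℝ × ℝ => U z.1 z.2) (0,0)
      = (-27:ℝ) • ContinuousLinearMap.snd ℝ ℝ ℝ := by
    ext
    · simpa using h1
    · simpa using h2
  rw [← he]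
  exact hf

theorem contDiffAt_G : ContDiffAt ℝ ω G (0,0) := by
  have h1 : ContDiffAt ℝ ω (fun z : ℝ × ℝ => g z.1 z.2) (0,0) := by
    unfold g
    exact (contDiffAt_U.neg).div_const 27
  have h2 : ContDiffAt ℝ ω (fun z : ℝ × ℝ => g z.2 z.1) (0,0) := by
    have hs : ContDiffAt ℝ ω (fun z : ℝ × ℝ => (z.2, z.1)) ((0:ℝ),(0:ℝ)) := by fun_prop
    exact ContDiffAt.comp (x := ((0:ℝ),(0:ℝ))) (g := fun z : ℝ × ℝ => g z.1 z.2) h1 hs
  exact h2.prodMk h1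

theorem hasFDerivAt_G :
    HasFDerivAt G ((ContinuousLinearEquiv.refl ℝ (ℝ × ℝ) : (ℝ × ℝ) ≃L[ℝ] (ℝ × ℝ)) :
      (ℝ × ℝ) →L[ℝ] (ℝ × ℝ)) (0,0) := by
  have h1 : HasFDerivAt (fun z : ℝ × ℝ => g z.1 z.2) (ContinuousLinearMap.snd ℝ ℝ ℝ) (0,0) := by
    have h := (hasFDerivAt_U.neg).mul_const (27:ℝ)⁻¹
    have e : (fun z : ℝ × ℝ => g z.1 z.2)
        = fun z : ℝ × ℝ => (-(fun z : ℝ × ℝ => U z.1 z.2)) z * (27:ℝ)⁻¹ := by
      funext z
      simp [g, div_eq_mul_inv]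
    rw [e]
    refine h.congr_fderiv ?_
    ext <;> simp
  have h2 : HasFDerivAt (fun z : ℝ × ℝ => g z.2 z.1) (ContinuousLinearMap.fst ℝ ℝ ℝ) (0,0) := by
    have hs : HasFDerivAt (fun z : ℝ × ℝ => (z.2, z.1))
        ((ContinuousLinearMap.snd ℝ ℝ ℝ).prod (ContinuousLinearMap.fst ℝ ℝ ℝ))
        ((0:ℝ),(0:ℝ)) := hasFDerivAt_snd.prodMk hasFDerivAt_fst
    have h := HasFDerivAt.comp ((0:ℝ),(0:ℝ)) (g := fun z : ℝ × ℝ => g z.1 z.2) h1 hs
    refine h.congr_fderiv ?_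
    ext <;> simp
  refine (h2.prodMk h1).congr_fderiv ?_
  ext <;> simp

theorem exists_inv : ∃ H : ℝ × ℝ → ℝ × ℝ, ContDiffAt ℝ ω H (G (0,0)) ∧
    (∀ᶠ z in 𝓝 ((0:ℝ),(0:ℝ)), H (G z) = z) ∧ (∀ᶠ w in 𝓝 (G (0,0)), G (H w) = w) ∧
    H (G (0,0)) = (0,0) := by
  have hs := contDiffAt_G.hasStrictFDerivAt' hasFDerivAt_G (by simp)
  exact ⟨contDiffAt_G.localInverse hasFDerivAt_G (by simp),
    contDiffAt_G.to_localInverse hasFDerivAt_G (by simp),
    hs.eventually_left_inverse, hs.eventually_right_inverse, hs.localInverse_apply_image⟩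

theorem G_swap (z : ℝ × ℝ) : G z.swap = (G z).swap := rfl

theorem contDiffAt_g0 : ContDiffAt ℝ ω (fun t : ℝ => g 0 t) 0 := by
  have h1 : ContDiffAt ℝ ω (fun z : ℝ × ℝ => g z.1 z.2) (0,0) := by
    unfold g
    exact (contDiffAt_U.neg).div_const 27
  have hs : ContDiffAt ℝ ω (fun t : ℝ => ((0:ℝ), t)) (0:ℝ) := by fun_prop
  exact ContDiffAt.comp (x := (0:ℝ)) (g := fun z : ℝ × ℝ => g z.1 z.2) h1 hs

theorem eventually_g : ∀ᶠ m in 𝓝 (0:ℝ), g m 0 = g 0 0 := by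
  have hc : ContinuousAt (fun t : ℝ => nc t 0) 0 := hasDerivAt_nc1.continuousAt
  have hne : ∀ᶠ m in 𝓝 (0:ℝ), nc m 0 ≠ 0 := by
    apply hc.eventually_ne
    rw [nc00]; norm_num
  filter_upwards [hne] with m hm
  have e : na m 0 = nc m 0 := by unfold na nc; ring
  unfold g
  rw [U00]
  unfold U
  rw [e]
  field_simp
  norm_num

theorem state_local : ∃ mu0 : ℝ × ℝ → ℝ, ContDiffAt ℝ ω mu0 (0,0) ∧
    (∀ᶠ n in 𝓝 (0:ℝ), mu0 (0,n) = 0) ∧ (∀ᶠ m in 𝓝 (0:ℝ), mu0 (m,0) = m) ∧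
    (∀ᶠ z in 𝓝 ((0:ℝ),(0:ℝ)), U (mu0 (z.1,z.2)) (mu0 (z.2,z.1)) = U 0 z.2) := by
  obtain ⟨H, hH, hl, hr, h0⟩ := exists_inv
  have hw : ContDiffAt ℝ ω (fun z : ℝ × ℝ => (g 0 z.1, g 0 z.2)) (0,0) := by
    have h1 : ContDiffAt ℝ ω (fun z : ℝ × ℝ => g 0 z.1) (0,0) :=
      ContDiffAt.comp (x := ((0:ℝ),(0:ℝ))) (g := fun t : ℝ => g 0 t) contDiffAt_g0
        contDiffAt_fst
    have h2 : ContDiffAt ℝ ω (fun z : ℝ × ℝ => g 0 z.2) (0,0) :=
      ContDiffAt.comp (x := ((0:ℝ),(0:ℝ))) (g := fun t : ℝ => g 0 t) contDiffAt_g0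
        contDiffAt_snd
    exact h1.prodMk h2
  have hHw : ContDiffAt ℝ ω (fun z : ℝ × ℝ => H (g 0 z.1, g 0 z.2)) (0,0) :=
    ContDiffAt.comp (x := ((0:ℝ),(0:ℝ))) (g := H) hH hw
  have hwt : Tendsto (fun z : ℝ × ℝ => (g 0 z.1, g 0 z.2)) (𝓝 ((0:ℝ),(0:ℝ))) (𝓝 (G (0,0))) :=
    hw.continuousAt
  have hHt : Tendsto H (𝓝 (G (0,0))) (𝓝 ((0:ℝ),(0:ℝ))) := by
    have := hH.continuousAt
    unfold ContinuousAt at this
    rwa [h0] at this
  have hswap : ∀ᶠ w in 𝓝 (G (0,0)), H w.swap = (H w).swap := by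
    have hsw : Tendsto (fun w => (H w).swap) (𝓝 (G (0,0))) (𝓝 ((0:ℝ),(0:ℝ))) := by
      have : Tendsto (Prod.swap : ℝ × ℝ → ℝ × ℝ) (𝓝 ((0:ℝ),(0:ℝ))) (𝓝 ((0:ℝ),(0:ℝ))) :=
        continuous_swap.continuousAt
      exact this.comp hHt
    filter_upwards [hsw.eventually hl, hr] with w hw1 hw2
    rw [G_swap, hw2] at hw1
    exact hw1
  refine ⟨fun z => (H (g 0 z.1, g 0 z.2)).1, ?_, ?_, ?_, ?_⟩
  · exact ContDiffAt.fst hHw
  · have ht : Tendsto (fun n : ℝ => ((0:ℝ), n)) (𝓝 0) (𝓝 ((0:ℝ),(0:ℝ))) :=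
      (Continuous.prodMk_right (0:ℝ)).continuousAt
    filter_upwards [ht.eventually hl, eventually_g] with n h1 h2
    have e : G (0,n) = (g 0 0, g 0 n) := by
      unfold G
      simp only
      rw [h2]
    rw [e] at h1
    rw [h1]
  · have ht : Tendsto (fun m : ℝ => (m, (0:ℝ))) (𝓝 0) (𝓝 ((0:ℝ),(0:ℝ))) :=
      (Continuous.prodMk_left (0:ℝ)).continuousAt
    filter_upwards [ht.eventually hl, eventually_g] with m h1 h2
    have e : G (m,0) = (g 0 m, g 0 0) := by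
      unfold G
      simp only
      rw [h2]
    rw [e] at h1
    rw [h1]
  · filter_upwards [hwt.eventually hr, hwt.eventually hswap] with z h1 h2
    have e2 : (H (g 0 z.2, g 0 z.1)).1 = (H (g 0 z.1, g 0 z.2)).2 := by
      have := congrArg Prod.fst h2
      exact this
    rw [e2]
    have e3 := congrArg Prod.snd h1
    simp only [G, g] at e3
    have e4 : U (H (g 0 z.1, g 0 z.2)).1 (H (g 0 z.1, g 0 z.2)).2 = U 0 z.2 := by
      simp only [g]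
      linarith
    exact e4

end StateAux

open StateAux in
theorem state : ∃ (e C : ℝ) (mu : ℝ × ℝ → ℝ), 0 < e ∧ 0 < C ∧ ContDiff ℝ ∞ mu ∧
    (∀ z, ‖fderiv ℝ mu z‖ ≤ C) ∧ (∀ n, |n| < e → mu (0,n) = 0) ∧
    (∀ m, |m| < e → mu (m,0) = m) ∧
    (∀ m n, |m| < e → |n| < e → U (mu (m,n)) (mu (n,m)) = U 0 n) := by
  obtain ⟨mu0, hmu, h1, h2, h3⟩ := state_local
  have hsm : ∀ᶠ z in 𝓝 ((0:ℝ),(0:ℝ)), ContDiffAt ℝ ω mu0 z := hmu.eventually (by simp)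
  obtain ⟨r1, hr1, H1⟩ := Metric.eventually_nhds_iff_ball.mp h1
  obtain ⟨r2, hr2, H2⟩ := Metric.eventually_nhds_iff_ball.mp h2
  obtain ⟨r3, hr3, H3⟩ := Metric.eventually_nhds_iff_ball.mp h3
  obtain ⟨r4, hr4, H4⟩ := Metric.eventually_nhds_iff_ball.mp hsm
  set r := min (min r1 r2) (min r3 r4) with hr
  have hr0 : 0 < r := by positivity
  have l1 : r ≤ r1 := (min_le_left _ _).trans (min_le_left _ _)
  have l2 : r ≤ r2 := (min_le_left _ _).trans (min_le_right _ _)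
  have l3 : r ≤ r3 := (min_le_right _ _).trans (min_le_left _ _)
  have l4 : r ≤ r4 := (min_le_right _ _).trans (min_le_right _ _)
  let χ : ContDiffBump ((0:ℝ),(0:ℝ)) := ⟨r/3, r/2, by positivity, by linarith⟩
  have hχ1 : ∀ z : ℝ × ℝ, |z.1| < r/3 → |z.2| < r/3 → χ z = 1 := by
    intro z hz1 hz2
    apply χ.one_of_mem_closedBall
    rw [mem_closedBall_iff_norm]
    show ‖z - ((0:ℝ),(0:ℝ))‖ ≤ r/3
    have : z - ((0:ℝ),(0:ℝ)) = z := by ext <;> simp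
    rw [this, Prod.norm_def, Real.norm_eq_abs, Real.norm_eq_abs]
    exact max_le hz1.le hz2.le
  have hsmooth : ContDiff ℝ ∞ (fun z => χ z * mu0 z) := by
    rw [contDiff_iff_contDiffAt]
    intro z
    by_cases hz : z ∈ Metric.ball ((0:ℝ),(0:ℝ)) r4
    · exact (χ.contDiff.contDiffAt).mul ((H4 z hz).of_le (by simp))
    · have hz' : z ∉ tsupport χ := by
        intro hmem
        rw [χ.tsupport_eq] at hmem
        apply hz
        rw [Metric.mem_closedBall] at hmem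
        rw [Metric.mem_ball]
        have : dist z ((0:ℝ),(0:ℝ)) ≤ r/2 := hmem
        linarith
      have hev : (fun z => χ z * mu0 z) =ᶠ[𝓝 z] fun _ => (0:ℝ) := by
        have := notMem_tsupport_iff_eventuallyEq.mp hz'
        filter_upwards [this] with y hy
        rw [hy]
        simp
      exact contDiffAt_const.congr_of_eventuallyEq hev
  have hcs : HasCompactSupport (fun z => χ z * mu0 z) :=
    χ.hasCompactSupport.mul_right
  obtain ⟨C, hC⟩ := (hcs.fderiv ℝ).exists_bound_of_continuous (hsmooth.continuous_fderiv (by simp))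
  refine ⟨r/3, max C 1, fun z => χ z * mu0 z, by positivity, by positivity, hsmooth,
    fun z => (hC z).trans (le_max_left _ _), ?_, ?_, ?_⟩
  · intro n hn
    have : mu0 (0,n) = 0 := H1 n (by rw [mem_ball_zero_iff, Real.norm_eq_abs]; linarith)
    simp only [this, mul_zero]
  · intro m hm
    have e1 : mu0 (m,0) = m := H2 m (by rw [mem_ball_zero_iff, Real.norm_eq_abs]; linarith)
    have e2 : χ (m,0) = 1 := hχ1 (m,0) hm (by simpa using (by positivity : 0 < r/3))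
    simp only [e1, e2, one_mul]
  · intro m n hm hn
    have e1 : χ (m,n) = 1 := hχ1 (m,n) hm hn
    have e2 : χ (n,m) = 1 := hχ1 (n,m) hn hm
    simp only [e1, e2, one_mul]
    have hmem : ((m,n) : ℝ × ℝ) ∈ Metric.ball ((0:ℝ),(0:ℝ)) r3 := by
      rw [mem_ball_iff_norm]
      have : ((m,n) : ℝ × ℝ) - ((0:ℝ),(0:ℝ)) = (m,n) := by ext <;> simp
      rw [this, Prod.norm_def, Real.norm_eq_abs, Real.norm_eq_abs]
      exact max_lt (by simpa using (by linarith : |m| < r3)) (by simpa using (by linarith : |n| < r3))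
    exact H3 (m,n) hmem

end Cub
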