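import Mathlib
import Pool.Agent.Lib.MP_582a01_gt.Defs

/-! # MP_582a01_gt, module WavesEx: existence of two crossing waves in characteristic
coordinates. -/

set_option autoImplicit false
open scoped ContDiff

namespace Cub

/-- a smooth function supported in `[0,1/20]`, small together with its derivative -/
private theorem exists_bump {k : ℝ} (hk : 0 < k) :
    ∃ β : ℝ → ℝ, ContDiff ℝ ∞ β ∧ (∀ x, (x ≤ 0 ∨ 1/20 ≤ x) → β x = 0) ∧
      (∀ x, |β x| ≤ k) ∧ (∀ x, |deriv β x| ≤ k) ∧ ∃ s, β s ≠ 0 := by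
  let f : ContDiffBump (1/40 : ℝ) := ⟨1/80, 1/40, by norm_num, by norm_num⟩
  have hf : ContDiff ℝ ∞ f := f.contDiff
  have hcs : HasCompactSupport f := f.hasCompactSupport
  have hcd : Continuous (deriv f) := hf.continuous_deriv (by norm_cast)
  obtain ⟨M, hM⟩ := hcs.deriv.exists_bound_of_continuous hcd
  have hM0 : 0 ≤ M := (norm_nonneg _).trans (hM 0)
  have hMp : 0 < 1 + M := by linarith
  have hdf : Differentiable ℝ f := hf.differentiable (by simp)
  refine ⟨fun x => k / (1 + M) * f x, contDiff_const.mul hf, ?_, ?_, ?_, ?_⟩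
  · intro x hx
    have : f x = 0 := by
      apply f.zero_of_le_dist
      change 1/40 ≤ dist x (1/40)
      rw [Real.dist_eq]
      rcases hx with hx | hx
      · rw [abs_of_nonpos (by linarith)]; linarith
      · rw [abs_of_nonneg (by linarith)]; linarith
    simp [this]
  · intro x
    have h1 : 0 ≤ f x := f.nonneg
    have h2 : f x ≤ 1 := f.le_one
    rw [abs_mul, abs_of_nonneg h1, abs_of_nonneg (div_nonneg hk.le hMp.le)]
    have h3 : k / (1 + M) ≤ k := div_le_self hk.le (by linarith)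
    calc k / (1 + M) * f x ≤ k * 1 := mul_le_mul h3 h2 h1 hk.le
      _ = k := mul_one k
  · intro x
    have h1 : deriv (fun x => k / (1 + M) * f x) x = k / (1 + M) * deriv f x := by
      rw [deriv_const_mul _ (hdf x)]
    rw [h1, abs_mul, abs_of_nonneg (div_nonneg hk.le hMp.le)]
    have h2 : |deriv f x| ≤ M := by simpa using hM x
    calc k / (1 + M) * |deriv f x| ≤ k / (1 + M) * (1 + M) :=
          mul_le_mul_of_nonneg_left (by linarith) (div_nonneg hk.le hMp.le)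
      _ = k := by field_simp
  · refine ⟨1/40, ?_⟩
    have h1 : f (1/40) = 1 := by
      apply f.one_of_mem_closedBall
      exact Metric.mem_closedBall_self (by norm_num)
    change k / (1 + M) * f (1/40) ≠ 0
    rw [h1, mul_one]
    exact (div_pos hk hMp).ne'

theorem exists_waves_of_state (hstate : ∃ (e C : ℝ) (mu : ℝ × ℝ → ℝ), 0 < e ∧ 0 < C ∧
    ContDiff ℝ ∞ mu ∧
    (∀ z, ‖fderiv ℝ mu z‖ ≤ C) ∧ (∀ n, |n| < e → mu (0,n) = 0) ∧
    (∀ m, |m| < e → mu (m,0) = m) ∧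
    (∀ m n, |m| < e → |n| < e → U (mu (m,n)) (mu (n,m)) = U 0 n)) :
    ∃ (mu : ℝ × ℝ → ℝ) (c : ℝ → ℝ), Waves mu c := by
  obtain ⟨e, C, mu0, he, hC, hsm, hb, h0, h1, hU⟩ := hstate
  have hk : 0 < min (e/2) (1/(20*C)) := lt_min (by linarith) (by positivity)
  obtain ⟨β, hβ, hβ0, hβk, hβd, s, hs⟩ := exists_bump hk
  have hβe : ∀ x, |β x| < e := fun x => by
    have := (hβk x).trans (min_le_left _ _)
    linarith
  have hβC : ∀ x, C * |β x| ≤ 1/20 := fun x => by
    have h := (hβk x).trans (min_le_right _ _)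
    calc C * |β x| ≤ C * (1/(20*C)) := mul_le_mul_of_nonneg_left h hC.le
      _ = 1/20 := by field_simp
  have hβC' : ∀ x, C * |deriv β x| ≤ 1/20 := fun x => by
    have h := (hβd x).trans (min_le_right _ _)
    calc C * |deriv β x| ≤ C * (1/(20*C)) := mul_le_mul_of_nonneg_left h hC.le
      _ = 1/20 := by field_simp
  have hz : β 0 = 0 := hβ0 0 (Or.inl le_rfl)
  have hd0 : Differentiable ℝ mu0 := hsm.differentiable (by simp)
  have hdβ : Differentiable ℝ β := hβ.differentiable (by simp)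
  refine ⟨fun z => mu0 (β z.2, β z.1), fun a => U 0 (β a), ?_⟩
  refine ⟨?_, ?_, ?_, ?_, ?_, ?_, ?_⟩
  · exact hsm.comp ((hβ.comp contDiff_snd).prodMk (hβ.comp contDiff_fst))
  · intro a b hb'
    change mu0 (β b, β a) = 0
    rw [hβ0 b hb']
    exact h0 _ (hβe a)
  · intro a b ha
    change mu0 (β b, β a) = mu0 (β b, β 0)
    rw [hβ0 a ha, hz]
  · rintro ⟨a, b⟩
    change |mu0 (β b, β a)| ≤ 1/20
    have hmv : ‖mu0 (β b, β a) - mu0 (0, β a)‖ ≤ C * ‖((β b, β a) : ℝ × ℝ) - (0, β a)‖ :=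
      Convex.norm_image_sub_le_of_norm_fderiv_le (𝕜 := ℝ) (s := Set.univ)
        (fun x _ => hd0 x) (fun x _ => hb x) convex_univ (Set.mem_univ _) (Set.mem_univ _)
    rw [h0 _ (hβe a), sub_zero, Real.norm_eq_abs] at hmv
    have hn : ‖((β b, β a) : ℝ × ℝ) - (0, β a)‖ = |β b| := by
      simp [Prod.norm_def]
    rw [hn] at hmv
    exact hmv.trans (hβC b)
  · rintro ⟨a, b⟩
    have hin : HasFDerivAt (fun z : ℝ × ℝ => ((β z.2, β z.1) : ℝ × ℝ))
        (((deriv β b) • ContinuousLinearMap.snd ℝ ℝ ℝ).prod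
          ((deriv β a) • ContinuousLinearMap.fst ℝ ℝ ℝ)) (a, b) := by
      have e2 : HasFDerivAt (fun z : ℝ × ℝ => β z.2)
          ((deriv β b) • ContinuousLinearMap.snd ℝ ℝ ℝ) (a, b) :=
        HasDerivAt.comp_hasFDerivAt (h₂ := β) ((a, b) : ℝ × ℝ) (hdβ b).hasDerivAt hasFDerivAt_snd
      have e1 : HasFDerivAt (fun z : ℝ × ℝ => β z.1)
          ((deriv β a) • ContinuousLinearMap.fst ℝ ℝ ℝ) (a, b) :=
        HasDerivAt.comp_hasFDerivAt (h₂ := β) ((a, b) : ℝ × ℝ) (hdβ a).hasDerivAt hasFDerivAt_fst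
      exact e2.prodMk e1
    have hc : HasFDerivAt (fun z : ℝ × ℝ => mu0 (β z.2, β z.1))
        ((fderiv ℝ mu0 (β b, β a)).comp (((deriv β b) • ContinuousLinearMap.snd ℝ ℝ ℝ).prod
          ((deriv β a) • ContinuousLinearMap.fst ℝ ℝ ℝ))) (a, b) :=
      HasFDerivAt.comp (g := mu0) ((a, b) : ℝ × ℝ) (hd0 _).hasFDerivAt hin
    rw [hc.fderiv]
    have hval : ((fderiv ℝ mu0 (β b, β a)).comp
        (((deriv β b) • ContinuousLinearMap.snd ℝ ℝ ℝ).prod
          ((deriv β a) • ContinuousLinearMap.fst ℝ ℝ ℝ))) ((1, 0) : ℝ × ℝ)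
        = fderiv ℝ mu0 (β b, β a) (0, deriv β a) := by
      simp
    rw [hval]
    have h2 := (fderiv ℝ mu0 (β b, β a)).le_opNorm ((0, deriv β a) : ℝ × ℝ)
    have hn : ‖((0, deriv β a) : ℝ × ℝ)‖ = |deriv β a| := by
      simp [Prod.norm_def]
    rw [hn, Real.norm_eq_abs] at h2
    calc |(fderiv ℝ mu0 (β b, β a)) (0, deriv β a)|
        ≤ ‖fderiv ℝ mu0 (β b, β a)‖ * |deriv β a| := h2
      _ ≤ C * |deriv β a| := mul_le_mul_of_nonneg_right (hb _) (abs_nonneg _)
      _ ≤ 1/20 := hβC' a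
  · intro a b
    exact hU (β b) (β a) (hβe b) (hβe a)
  · refine ⟨s, ?_⟩
    change mu0 (β s, β 0) ≠ 0
    rw [hz, h1 _ (hβe s)]
    exact hs

end Cub
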