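import Mathlib
import Pool.Agent.Lib.MP_582a01_gt.Defs
import Pool.Agent.Lib.MP_582a01_gt.State
import Pool.Agent.Lib.MP_582a01_gt.WavesEx
import Pool.Agent.Lib.MP_582a01_gt.Chart
import Pool.Agent.Lib.MP_582a01_gt.Cross
import Pool.Agent.Lib.MP_582a01_gt.Glue

/-!
# MP_582a01_gt : existence of the doubly periodic solution
-/

set_option autoImplicit false
open scoped ContDiff

namespace Cub

/-- There is a smooth doubly periodic solution which is not one-dimensional. -/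
theorem exists_global : ∃ Lam A B : ℝ × ℝ → ℝ, Global Lam A B := by
  obtain ⟨mu, c, hW⟩ := exists_waves_of_state state
  obtain ⟨X, Y, P, hC⟩ := exists_chart hW
  obtain ⟨Lam0, A0, B0, Ro, Ri, hX⟩ := crossing_of_chart hW hC
  exact global_of_crossing hX

theorem per_int {Lam A B : ℝ × ℝ → ℝ} (h : Global Lam A B) (x y : ℝ) (i j : ℤ) :
    Lam (x + i, y + j) = Lam (x,y) ∧ A (x + i, y + j) = A (x,y) ∧ B (x + i, y + j) = B (x,y) := by
  have e1 : ∀ (i : ℤ) (x y : ℝ),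
      Lam (x + i, y) = Lam (x,y) ∧ A (x + i, y) = A (x,y) ∧ B (x + i, y) = B (x,y) := by
    intro i
    induction i using Int.induction_on with
    | zero => intro x y; simp
    | succ k ih =>
      intro x y
      have h1 := h.per1 (x + (k : ℤ)) y
      obtain ⟨a1, a2, a3⟩ := ih x y
      have e : x + (((k : ℤ) + 1 : ℤ) : ℝ) = x + ((k : ℤ) : ℝ) + 1 := by push_cast; ring
      rw [e, h1.1, h1.2.1, h1.2.2]
      exact ⟨a1, a2, a3⟩
    | pred k ih =>
      intro x y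
      have h1 := h.per1 (x + ((-(k : ℤ) - 1 : ℤ) : ℝ)) y
      obtain ⟨a1, a2, a3⟩ := ih x y
      have e : x + ((-(k : ℤ) - 1 : ℤ) : ℝ) + 1 = x + ((-(k : ℤ) : ℤ) : ℝ) := by push_cast; ring
      rw [e] at h1
      exact ⟨h1.1.symm.trans a1, h1.2.1.symm.trans a2, h1.2.2.symm.trans a3⟩
  have e2 : ∀ (j : ℤ) (x y : ℝ),
      Lam (x, y + j) = Lam (x,y) ∧ A (x, y + j) = A (x,y) ∧ B (x, y + j) = B (x,y) := by
    intro j
    induction j using Int.induction_on with
    | zero => intro x y; simp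
    | succ k ih =>
      intro x y
      have h1 := h.per2 x (y + (k : ℤ))
      obtain ⟨a1, a2, a3⟩ := ih x y
      have e : y + (((k : ℤ) + 1 : ℤ) : ℝ) = y + ((k : ℤ) : ℝ) + 1 := by push_cast; ring
      rw [e, h1.1, h1.2.1, h1.2.2]
      exact ⟨a1, a2, a3⟩
    | pred k ih =>
      intro x y
      have h1 := h.per2 x (y + ((-(k : ℤ) - 1 : ℤ) : ℝ))
      obtain ⟨a1, a2, a3⟩ := ih x y
      have e : y + ((-(k : ℤ) - 1 : ℤ) : ℝ) + 1 = y + ((-(k : ℤ) : ℤ) : ℝ) := by push_cast; ring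
      rw [e] at h1
      exact ⟨h1.1.symm.trans a1, h1.2.1.symm.trans a2, h1.2.2.symm.trans a3⟩
  obtain ⟨a1, a2, a3⟩ := e1 i x (y + j)
  obtain ⟨b1, b2, b3⟩ := e2 j x y
  exact ⟨a1.trans b1, a2.trans b2, a3.trans b3⟩

end Cub
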