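import Mathlib

/-!
Smooth solutions of the linear Goursat problem with small compactly supported coefficients.
-/

namespace Pool.Agent.Lib.MP_582a01_gt.Goursat

open MeasureTheory Set Filter Topology intervalIntegral
open scoped ContDiff

/-- Primitive in the first variable. -/
noncomputable def I1 (h : ℝ × ℝ → ℝ) (p : ℝ × ℝ) : ℝ := ∫ x in (-1 : ℝ)..p.1, h (x, p.2)

/-- Primitive in the second variable. -/
noncomputable def I2 (h : ℝ × ℝ → ℝ) (p : ℝ × ℝ) : ℝ := ∫ x in (-1 : ℝ)..p.2, h (p.1, x)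

/-! ### Partial derivatives -/

/-- A function with continuous partial derivatives is differentiable. -/
theorem hasFDerivAt_of_partials {f f1 f2 : ℝ × ℝ → ℝ} (hf1 : Continuous f1) (hf2 : Continuous f2)
    (h1 : ∀ s t, HasDerivAt (fun x => f (x, t)) (f1 (s, t)) s)
    (h2 : ∀ s t, HasDerivAt (fun x => f (s, x)) (f2 (s, t)) t) (p : ℝ × ℝ) :
    HasFDerivAt f (f1 p • ContinuousLinearMap.fst ℝ ℝ ℝ + f2 p • ContinuousLinearMap.snd ℝ ℝ ℝ)
      p := by
  have key := hasStrictFDerivAt_uncurry_coprod (𝕜 := ℝ) (u := p) (f := fun s t => f (s, t))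
    (f₁ := fun s t => ContinuousLinearMap.toSpanSingleton ℝ (f1 (s, t)))
    (f₂ := fun s t => ContinuousLinearMap.toSpanSingleton ℝ (f2 (s, t)))
    (Eventually.of_forall fun v => (h1 v.1 v.2).hasFDerivAt)
    (Eventually.of_forall fun v => (h2 v.1 v.2).hasFDerivAt)
    (by
      refine Continuous.continuousAt ?_
      exact (ContinuousLinearMap.toSpanSingletonCLE (𝕜 := ℝ) (E := ℝ)).continuous.comp hf1)
    (by
      refine Continuous.continuousAt ?_
      exact (ContinuousLinearMap.toSpanSingletonCLE (𝕜 := ℝ) (E := ℝ)).continuous.comp hf2)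
  have e : f1 p • ContinuousLinearMap.fst ℝ ℝ ℝ + f2 p • ContinuousLinearMap.snd ℝ ℝ ℝ =
      (ContinuousLinearMap.toSpanSingleton ℝ (f1 p)).coprod
        (ContinuousLinearMap.toSpanSingleton ℝ (f2 p)) := by
    ext <;> simp
  rw [e]
  exact key.hasFDerivAt

theorem contDiff_of_partials {f f1 f2 : ℝ × ℝ → ℝ} (n : ℕ) (hf1 : ContDiff ℝ n f1)
    (hf2 : ContDiff ℝ n f2)
    (h1 : ∀ s t, HasDerivAt (fun x => f (x, t)) (f1 (s, t)) s)
    (h2 : ∀ s t, HasDerivAt (fun x => f (s, x)) (f2 (s, t)) t) : ContDiff ℝ (n + 1) f := by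
  rw [contDiff_succ_iff_hasFDerivAt]
  refine ⟨fun p => f1 p • ContinuousLinearMap.fst ℝ ℝ ℝ + f2 p • ContinuousLinearMap.snd ℝ ℝ ℝ,
    ?_, hasFDerivAt_of_partials hf1.continuous hf2.continuous h1 h2⟩
  exact (hf1.smul contDiff_const).add (hf2.smul contDiff_const)

/-- The partial derivatives of a smooth function. -/
theorem exists_partials {f : ℝ × ℝ → ℝ} (n : ℕ) (hf : ContDiff ℝ (n + 1) f) :
    ∃ f1 f2 : ℝ × ℝ → ℝ, ContDiff ℝ n f1 ∧ ContDiff ℝ n f2 ∧
      (∀ s t, HasDerivAt (fun x => f (x, t)) (f1 (s, t)) s) ∧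
      (∀ s t, HasDerivAt (fun x => f (s, x)) (f2 (s, t)) t) := by
  obtain ⟨f', hf', hd⟩ := contDiff_succ_iff_hasFDerivAt.1 hf
  refine ⟨fun p => f' p (1, 0), fun p => f' p (0, 1), hf'.clm_apply contDiff_const,
    hf'.clm_apply contDiff_const, ?_, ?_⟩
  · intro s t
    have h1 : HasDerivAt (fun x : ℝ => (x, t)) ((1 : ℝ), (0 : ℝ)) s :=
      (hasDerivAt_id s).prodMk (hasDerivAt_const s t)
    exact (hd (s, t)).comp_hasDerivAt s h1
  · intro s t
    have h1 : HasDerivAt (fun x : ℝ => (s, x)) ((0 : ℝ), (1 : ℝ)) t :=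
      (hasDerivAt_const t s).prodMk (hasDerivAt_id t)
    exact (hd (s, t)).comp_hasDerivAt t h1

/-! ### Primitives -/

theorem continuous_I2 {h : ℝ × ℝ → ℝ} (hh : Continuous h) : Continuous (I2 h) := by
  unfold I2
  exact continuous_parametric_primitive_of_continuous (f := fun s t => h (s, t)) (by
    exact hh)

theorem continuous_I1 {h : ℝ × ℝ → ℝ} (hh : Continuous h) : Continuous (I1 h) := by
  have h1 : Continuous (I2 (fun p => h (p.2, p.1))) :=
    continuous_I2 (hh.comp (continuous_snd.prodMk continuous_fst))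
  have h2 : I1 h = fun p => I2 (fun p => h (p.2, p.1)) (p.2, p.1) := rfl
  rw [h2]
  exact h1.comp (continuous_snd.prodMk continuous_fst)

theorem deriv2_I2 {h : ℝ × ℝ → ℝ} (hh : Continuous h) (s t : ℝ) :
    HasDerivAt (fun x => I2 h (s, x)) (h (s, t)) t := by
  unfold I2
  have hc : Continuous fun x => h (s, x) := hh.comp (continuous_const.prodMk continuous_id)
  exact integral_hasDerivAt_right (hc.intervalIntegrable _ _)
    (hc.stronglyMeasurableAtFilter _ _) hc.continuousAt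

theorem deriv1_I1 {h : ℝ × ℝ → ℝ} (hh : Continuous h) (s t : ℝ) :
    HasDerivAt (fun x => I1 h (x, t)) (h (s, t)) s := by
  unfold I1
  have hc : Continuous fun x => h (x, t) := hh.comp (continuous_id.prodMk continuous_const)
  exact integral_hasDerivAt_right (hc.intervalIntegrable _ _)
    (hc.stronglyMeasurableAtFilter _ _) hc.continuousAt

/-- Differentiation under the integral sign. -/
theorem deriv1_I2 {h h1 : ℝ × ℝ → ℝ} (hh : Continuous h) (hh1 : Continuous h1)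
    (hd : ∀ s t, HasDerivAt (fun x => h (x, t)) (h1 (s, t)) s) (s t : ℝ) :
    HasDerivAt (fun x => I2 h (x, t)) (I2 h1 (s, t)) s := by
  unfold I2
  simp only
  obtain ⟨C, hC⟩ := (isCompact_Icc (a := s - 1) (b := s + 1)).prod (isCompact_uIcc (a := (-1 : ℝ))
    (b := t)) |>.exists_bound_of_continuousOn hh1.continuousOn
  refine (intervalIntegral.hasDerivAt_integral_of_dominated_loc_of_deriv_le (μ := volume)
    (F := fun x τ => h (x, τ)) (F' := fun x τ => h1 (x, τ)) (bound := fun _ => C)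
    (s := Icc (s - 1) (s + 1)) (Icc_mem_nhds (by linarith) (by linarith)) ?_ ?_ ?_ ?_ ?_ ?_).2
  · refine Eventually.of_forall fun x => ?_
    exact (hh.comp (continuous_const.prodMk continuous_id)).aestronglyMeasurable
  · exact (hh.comp (continuous_const.prodMk continuous_id)).intervalIntegrable _ _
  · exact (hh1.comp (continuous_const.prodMk continuous_id)).aestronglyMeasurable
  · refine Eventually.of_forall fun τ hτ x hx => ?_
    exact hC (x, τ) ⟨hx, uIoc_subset_uIcc hτ⟩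
  · exact intervalIntegrable_const
  · exact Eventually.of_forall fun τ _ x _ => hd x τ

theorem deriv2_I1 {h h2 : ℝ × ℝ → ℝ} (hh : Continuous h) (hh2 : Continuous h2)
    (hd : ∀ s t, HasDerivAt (fun x => h (s, x)) (h2 (s, t)) t) (s t : ℝ) :
    HasDerivAt (fun x => I1 h (s, x)) (I1 h2 (s, t)) t :=
  deriv1_I2 (h := fun p => h (p.2, p.1)) (h1 := fun p => h2 (p.2, p.1))
    (hh.comp (continuous_snd.prodMk continuous_fst))
    (hh2.comp (continuous_snd.prodMk continuous_fst)) (fun s t => hd t s) t s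

theorem contDiff_I1 (n : ℕ) : ∀ {h : ℝ × ℝ → ℝ}, ContDiff ℝ n h → ContDiff ℝ n (I1 h) := by
  induction n with
  | zero =>
    intro h hh
    exact contDiff_zero.2 (continuous_I1 hh.continuous)
  | succ n ih =>
    intro h hh
    obtain ⟨h1, h2, hh1, hh2, hd1, hd2⟩ := exists_partials n (by exact_mod_cast hh)
    have := contDiff_of_partials n (f := I1 h) (f1 := h) (f2 := I1 h2)
      (hh.of_le (by exact_mod_cast Nat.le_succ n)) (ih hh2) (deriv1_I1 hh.continuous)
      (deriv2_I1 hh.continuous hh2.continuous hd2)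
    exact_mod_cast this

theorem contDiff_I2 (n : ℕ) {h : ℝ × ℝ → ℝ} (hh : ContDiff ℝ n h) : ContDiff ℝ n (I2 h) := by
  have h1 : ContDiff ℝ n (I1 (fun p => h (p.2, p.1))) :=
    contDiff_I1 n (hh.comp (contDiff_snd.prodMk contDiff_fst))
  exact h1.comp (contDiff_snd.prodMk contDiff_fst)

/-- The Goursat operator gains one derivative. -/
theorem contDiff_gain (n : ℕ) {β γ f : ℝ × ℝ → ℝ} (hβ : ContDiff ℝ ∞ β) (hγ : ContDiff ℝ ∞ γ)
    (hf : ContDiff ℝ n f) :
    ContDiff ℝ (n + 1) (I1 fun p => β p * I2 (fun q => γ q * f q) p) := by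
  have hβn : ∀ m : ℕ, ContDiff ℝ m β := fun m => contDiff_infty.1 hβ m
  have hγn : ∀ m : ℕ, ContDiff ℝ m γ := fun m => contDiff_infty.1 hγ m
  obtain ⟨β1, β2, hβ1, hβ2, hd1, hd2⟩ := exists_partials n (by exact_mod_cast hβn (n + 1))
  have hg : ContDiff ℝ n (fun q => γ q * f q) := (hγn n).mul hf
  have hI : ContDiff ℝ n (I2 (fun q => γ q * f q)) := contDiff_I2 n hg
  have hh : ContDiff ℝ n (fun p => β p * I2 (fun q => γ q * f q) p) := (hβn n).mul hI
  have hh2 : ContDiff ℝ n (fun p => β2 p * I2 (fun q => γ q * f q) p + β p * (γ p * f p)) :=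
    (hβ2.mul hI).add ((hβn n).mul hg)
  refine contDiff_of_partials n hh (contDiff_I1 n hh2) (deriv1_I1 hh.continuous) ?_
  refine deriv2_I1 hh.continuous hh2.continuous fun s t => ?_
  exact (hd2 s t).mul (deriv2_I2 hg.continuous s t)

/-- A continuous solution of the integral equation is smooth. -/
theorem smooth_of_fixed {g e β γ f : ℝ × ℝ → ℝ} (hg : ContDiff ℝ ∞ g) (he : ContDiff ℝ ∞ e)
    (hβ : ContDiff ℝ ∞ β) (hγ : ContDiff ℝ ∞ γ) (hf : Continuous f)
    (hfix : ∀ p, f p = g p + e p * I1 (fun p => β p * I2 (fun q => γ q * f q) p) p) :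
    ContDiff ℝ ∞ f := by
  rw [contDiff_infty]
  intro n
  induction n with
  | zero => exact contDiff_zero.2 hf
  | succ n ih =>
    have h1 := contDiff_gain n hβ hγ ih
    have h2 : f = fun p => g p + e p * I1 (fun p => β p * I2 (fun q => γ q * f q) p) p :=
      funext hfix
    rw [h2]
    have := ((contDiff_infty.1 hg (n + 1)).add
      ((contDiff_infty.1 he (n + 1)).mul (by exact_mod_cast h1)))
    exact this

/-! ### Support and size of the primitives -/

theorem I1_of_le {h : ℝ × ℝ → ℝ} (h0 : ∀ s t, s ≤ -1 → h (s, t) = 0) {s : ℝ} (hs : s ≤ -1)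
    (t : ℝ) : I1 h (s, t) = 0 := by
  unfold I1
  simp only
  rw [intervalIntegral.integral_congr (g := fun _ => (0 : ℝ))]
  · simp
  · intro x hx
    rw [uIcc_of_ge hs] at hx
    exact h0 x t hx.2

theorem I1_of_ge {h : ℝ × ℝ → ℝ} (hh : Continuous h) (h0 : ∀ s t, 1 ≤ s → h (s, t) = 0) {s : ℝ}
    (hs : 1 ≤ s) (t : ℝ) : I1 h (s, t) = I1 h (1, t) := by
  unfold I1
  simp only
  have hc : Continuous fun x => h (x, t) := hh.comp (continuous_id.prodMk continuous_const)
  rw [← intervalIntegral.integral_add_adjacent_intervals (a := -1) (b := 1) (c := s)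
    (hc.intervalIntegrable _ _) (hc.intervalIntegrable _ _)]
  have : ∫ x in (1 : ℝ)..s, h (x, t) = 0 := by
    rw [intervalIntegral.integral_congr (g := fun _ => (0 : ℝ))]
    · simp
    · intro x hx
      rw [uIcc_of_le hs] at hx
      exact h0 x t hx.1
  rw [this, add_zero]

theorem abs_I1_le {h : ℝ × ℝ → ℝ} (hh : Continuous h) (h0 : ∀ s t, s ≤ -1 → h (s, t) = 0)
    (h1 : ∀ s t, 1 ≤ s → h (s, t) = 0) {c : ℝ} (hc : ∀ p, |h p| ≤ c) (p : ℝ × ℝ) :
    |I1 h p| ≤ 2 * c := by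
  have hc0 : 0 ≤ c := (abs_nonneg _).trans (hc (0, 0))
  have key : ∀ s t, -1 ≤ s → s ≤ 1 → |I1 h (s, t)| ≤ 2 * c := by
    intro s t hs1 hs2
    unfold I1
    simp only
    have := intervalIntegral.norm_integral_le_of_norm_le_const (a := -1) (b := s) (C := c)
      (f := fun x => h (x, t)) (fun x _ => hc (x, t))
    rw [Real.norm_eq_abs] at this
    refine this.trans ?_
    rw [abs_of_nonneg (by linarith)]
    nlinarith
  obtain ⟨s, t⟩ := p
  rcases le_total s (-1) with h | h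
  · rw [I1_of_le h0 h t, abs_zero]; linarith
  · rcases le_total s 1 with h' | h'
    · exact key s t h h'
    · rw [I1_of_ge hh h1 h' t]
      exact key 1 t (by norm_num) le_rfl

theorem I2_swap (h : ℝ × ℝ → ℝ) (p : ℝ × ℝ) : I2 h p = I1 (fun q => h (q.2, q.1)) (p.2, p.1) :=
  rfl

theorem I2_of_le {h : ℝ × ℝ → ℝ} (h0 : ∀ s t, t ≤ -1 → h (s, t) = 0) {t : ℝ} (ht : t ≤ -1)
    (s : ℝ) : I2 h (s, t) = 0 := by
  rw [I2_swap]; exact I1_of_le (fun s t hs => h0 t s hs) ht s

theorem I2_of_ge {h : ℝ × ℝ → ℝ} (hh : Continuous h) (h0 : ∀ s t, 1 ≤ t → h (s, t) = 0) {t : ℝ}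
    (ht : 1 ≤ t) (s : ℝ) : I2 h (s, t) = I2 h (s, 1) := by
  rw [I2_swap, I2_swap]
  exact I1_of_ge (hh.comp (continuous_snd.prodMk continuous_fst)) (fun s t hs => h0 t s hs) ht s

theorem abs_I2_le {h : ℝ × ℝ → ℝ} (hh : Continuous h) (h0 : ∀ s t, t ≤ -1 → h (s, t) = 0)
    (h1 : ∀ s t, 1 ≤ t → h (s, t) = 0) {c : ℝ} (hc : ∀ p, |h p| ≤ c) (p : ℝ × ℝ) :
    |I2 h p| ≤ 2 * c := by
  rw [I2_swap]
  exact abs_I1_le (hh.comp (continuous_snd.prodMk continuous_fst)) (fun s t hs => h0 t s hs)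
    (fun s t hs => h1 t s hs) (fun q => hc _) _

/-! ### The linear Goursat problem -/

/-- The coefficients: smooth, small, vanishing outside the square. -/
structure Coef (η : ℝ) (α β γ δ : ℝ × ℝ → ℝ) : Prop where
  sα : ContDiff ℝ ∞ α
  sβ : ContDiff ℝ ∞ β
  sγ : ContDiff ℝ ∞ γ
  sδ : ContDiff ℝ ∞ δ
  supp : ∀ s t : ℝ, 1 ≤ |s| ∨ 1 ≤ |t| →
    α (s, t) = 0 ∧ β (s, t) = 0 ∧ γ (s, t) = 0 ∧ δ (s, t) = 0
  bα : ∀ p, |α p| ≤ η
  bβ : ∀ p, |β p| ≤ η
  bγ : ∀ p, |γ p| ≤ η
  bδ : ∀ p, |δ p| ≤ η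

section

variable {η : ℝ} {α β γ δ : ℝ × ℝ → ℝ}

theorem Coef.η_nonneg (hc : Coef η α β γ δ) : 0 ≤ η := (abs_nonneg _).trans (hc.bα (0, 0))

/-- The first right hand side. -/
def R (α β : ℝ × ℝ → ℝ) (a b : ℝ × ℝ → ℝ) (p : ℝ × ℝ) : ℝ := α p * a p + β p * b p

theorem continuous_R {α β a b : ℝ × ℝ → ℝ} (hα : Continuous α) (hβ : Continuous β)
    (ha : Continuous a) (hb : Continuous b) : Continuous (R α β a b) :=
  (hα.mul ha).add (hβ.mul hb)

theorem Coef.R_supp1 (hc : Coef η α β γ δ) (a b : ℝ × ℝ → ℝ) {s t : ℝ} (h : 1 ≤ |s| ∨ 1 ≤ |t|) :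
    R α β a b (s, t) = 0 := by
  unfold R
  obtain ⟨h1, h2, -, -⟩ := hc.supp s t h
  rw [h1, h2]; ring

theorem Coef.R_supp2 (hc : Coef η α β γ δ) (a b : ℝ × ℝ → ℝ) {s t : ℝ} (h : 1 ≤ |s| ∨ 1 ≤ |t|) :
    R γ δ a b (s, t) = 0 := by
  unfold R
  obtain ⟨-, -, h1, h2⟩ := hc.supp s t h
  rw [h1, h2]; ring

theorem le_abs_of_le {s : ℝ} (h : s ≤ -1) : 1 ≤ |s| := by
  rw [abs_of_nonpos (by linarith)]; linarith

theorem le_abs_of_ge {s : ℝ} (h : 1 ≤ s) : 1 ≤ |s| := h.trans (le_abs_self s)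

/-- The integral equations. -/
def Sol (α β γ δ : ℝ × ℝ → ℝ) (a0 b0 : ℝ → ℝ) (a b : ℝ × ℝ → ℝ) : Prop :=
  (∀ p, a p = a0 p.2 + I1 (R α β a b) p) ∧ ∀ p, b p = b0 p.1 + I2 (R γ δ a b) p

theorem abs_R_le {α β a b : ℝ × ℝ → ℝ} {η m : ℝ} (hα : ∀ p, |α p| ≤ η) (hβ : ∀ p, |β p| ≤ η)
    (hη : 0 ≤ η) {p : ℝ × ℝ} (ha : |a p| ≤ m) (hb : |b p| ≤ m) : |R α β a b p| ≤ 2 * (η * m) := by
  unfold R
  calc |α p * a p + β p * b p| ≤ |α p * a p| + |β p * b p| := abs_add_le _ _
    _ = |α p| * |a p| + |β p| * |b p| := by rw [abs_mul, abs_mul]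
    _ ≤ η * m + η * m := add_le_add (mul_le_mul (hα p) ha (abs_nonneg _) hη)
        (mul_le_mul (hβ p) hb (abs_nonneg _) hη)
    _ = _ := by ring

/-- Existence of a bounded continuous solution. -/
theorem exists_sol (hc : Coef η α β γ δ) (hη : η ≤ 1 / 10) {a0 b0 : ℝ → ℝ}
    (ha0 : Continuous a0) (hb0 : Continuous b0) {M : ℝ} (hM1 : ∀ x, |a0 x| ≤ M)
    (hM2 : ∀ x, |b0 x| ≤ M) :
    ∃ a b : ℝ × ℝ → ℝ, Continuous a ∧ Continuous b ∧ Sol α β γ δ a0 b0 a b ∧
      ∃ K, ∀ p, |a p| ≤ K ∧ |b p| ≤ K := by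
  have hη0 := hc.η_nonneg
  let X := BoundedContinuousFunction (ℝ × ℝ) (ℝ × ℝ)
  have hX1 : ∀ (u : X) p, |(u p).1| ≤ ‖u‖ := fun u p =>
    (norm_fst_le (u p)).trans (u.norm_coe_le_norm p)
  have hX2 : ∀ (u : X) p, |(u p).2| ≤ ‖u‖ := fun u p =>
    (norm_snd_le (u p)).trans (u.norm_coe_le_norm p)
  have hu1 : ∀ u : X, Continuous fun p => (u p).1 := fun u => continuous_fst.comp u.continuous
  have hu2 : ∀ u : X, Continuous fun p => (u p).2 := fun u => continuous_snd.comp u.continuous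
  have hcR1 : ∀ a b : ℝ × ℝ → ℝ, Continuous a → Continuous b → Continuous (R α β a b) :=
    fun a b ha hb => continuous_R hc.sα.continuous hc.sβ.continuous ha hb
  have hcR2 : ∀ a b : ℝ × ℝ → ℝ, Continuous a → Continuous b → Continuous (R γ δ a b) :=
    fun a b ha hb => continuous_R hc.sγ.continuous hc.sδ.continuous ha hb
  have hI1 : ∀ a b : ℝ × ℝ → ℝ, Continuous a → Continuous b → ∀ m, (∀ p, |a p| ≤ m) →
      (∀ p, |b p| ≤ m) → ∀ p, |I1 (R α β a b) p| ≤ 4 * η * m := by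
    intro a b ha hb m hma hmb p
    have := abs_I1_le (hcR1 a b ha hb)
      (fun s t hs => hc.R_supp1 a b (Or.inl (le_abs_of_le hs)))
      (fun s t hs => hc.R_supp1 a b (Or.inl (le_abs_of_ge hs)))
      (fun q => abs_R_le hc.bα hc.bβ hη0 (hma q) (hmb q)) p
    linarith
  have hI2 : ∀ a b : ℝ × ℝ → ℝ, Continuous a → Continuous b → ∀ m, (∀ p, |a p| ≤ m) →
      (∀ p, |b p| ≤ m) → ∀ p, |I2 (R γ δ a b) p| ≤ 4 * η * m := by
    intro a b ha hb m hma hmb p
    have := abs_I2_le (hcR2 a b ha hb)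
      (fun s t hs => hc.R_supp2 a b (Or.inr (le_abs_of_le hs)))
      (fun s t hs => hc.R_supp2 a b (Or.inr (le_abs_of_ge hs)))
      (fun q => abs_R_le hc.bγ hc.bδ hη0 (hma q) (hmb q)) p
    linarith
  let T : X → X := fun u => BoundedContinuousFunction.ofNormedAddCommGroup
    (fun p => (a0 p.2 + I1 (R α β (fun q => (u q).1) (fun q => (u q).2)) p,
      b0 p.1 + I2 (R γ δ (fun q => (u q).1) (fun q => (u q).2)) p))
    (((ha0.comp continuous_snd).add (continuous_I1 (hcR1 _ _ (hu1 u) (hu2 u)))).prodMk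
      ((hb0.comp continuous_fst).add (continuous_I2 (hcR2 _ _ (hu1 u) (hu2 u)))))
    (M + 4 * η * ‖u‖) (by
      intro p
      rw [Prod.norm_def, max_le_iff]
      constructor
      · exact (abs_add_le _ _).trans (add_le_add (hM1 _)
          (hI1 _ _ (hu1 u) (hu2 u) _ (hX1 u) (hX2 u) p))
      · exact (abs_add_le _ _).trans (add_le_add (hM2 _)
          (hI2 _ _ (hu1 u) (hu2 u) _ (hX1 u) (hX2 u) p)))
  have hRsub1 : ∀ u v : X, ∀ p, R α β (fun q => (u q).1) (fun q => (u q).2) p -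
      R α β (fun q => (v q).1) (fun q => (v q).2) p =
      R α β (fun q => (u q).1 - (v q).1) (fun q => (u q).2 - (v q).2) p := by
    intro u v p; unfold R; ring
  have hRsub2 : ∀ u v : X, ∀ p, R γ δ (fun q => (u q).1) (fun q => (u q).2) p -
      R γ δ (fun q => (v q).1) (fun q => (v q).2) p =
      R γ δ (fun q => (u q).1 - (v q).1) (fun q => (u q).2 - (v q).2) p := by
    intro u v p; unfold R; ring
  have hT : ContractingWith (1 / 2 : NNReal) T := by
    refine ⟨by rw [← NNReal.coe_lt_coe]; norm_num, ?_⟩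
    refine LipschitzWith.of_dist_le_mul fun u v => ?_
    rw [BoundedContinuousFunction.dist_le (by positivity)]
    intro p
    have hd1 : ∀ q, |(u q).1 - (v q).1| ≤ dist u v := fun q => by
      rw [dist_eq_norm]; exact hX1 (u - v) q
    have hd2 : ∀ q, |(u q).2 - (v q).2| ≤ dist u v := fun q => by
      rw [dist_eq_norm]; exact hX2 (u - v) q
    have hsmall : 4 * η * dist u v ≤ ((1 / 2 : NNReal) : ℝ) * dist u v := by
      refine mul_le_mul_of_nonneg_right ?_ dist_nonneg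
      push_cast; linarith
    rw [Prod.dist_eq, max_le_iff]
    constructor
    · refine le_trans ?_ hsmall
      rw [Real.dist_eq]
      change |(a0 p.2 + I1 (R α β (fun q => (u q).1) (fun q => (u q).2)) p) -
        (a0 p.2 + I1 (R α β (fun q => (v q).1) (fun q => (v q).2)) p)| ≤ _
      have h1 : I1 (R α β (fun q => (u q).1) (fun q => (u q).2)) p -
          I1 (R α β (fun q => (v q).1) (fun q => (v q).2)) p =
          I1 (R α β (fun q => (u q).1 - (v q).1) (fun q => (u q).2 - (v q).2)) p := by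
        unfold I1
        rw [← intervalIntegral.integral_sub]
        · exact intervalIntegral.integral_congr fun x _ => hRsub1 u v _
        · exact ((hcR1 _ _ (hu1 u) (hu2 u)).comp
            (continuous_id.prodMk continuous_const)).intervalIntegrable _ _
        · exact ((hcR1 _ _ (hu1 v) (hu2 v)).comp
            (continuous_id.prodMk continuous_const)).intervalIntegrable _ _
      rw [add_sub_add_left_eq_sub, h1]
      exact hI1 _ _ ((hu1 u).sub (hu1 v)) ((hu2 u).sub (hu2 v)) _ hd1 hd2 p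
    · refine le_trans ?_ hsmall
      rw [Real.dist_eq]
      change |(b0 p.1 + I2 (R γ δ (fun q => (u q).1) (fun q => (u q).2)) p) -
        (b0 p.1 + I2 (R γ δ (fun q => (v q).1) (fun q => (v q).2)) p)| ≤ _
      have h1 : I2 (R γ δ (fun q => (u q).1) (fun q => (u q).2)) p -
          I2 (R γ δ (fun q => (v q).1) (fun q => (v q).2)) p =
          I2 (R γ δ (fun q => (u q).1 - (v q).1) (fun q => (u q).2 - (v q).2)) p := by
        unfold I2
        rw [← intervalIntegral.integral_sub]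
        · exact intervalIntegral.integral_congr fun x _ => hRsub2 u v _
        · exact ((hcR2 _ _ (hu1 u) (hu2 u)).comp
            (continuous_const.prodMk continuous_id)).intervalIntegrable _ _
        · exact ((hcR2 _ _ (hu1 v) (hu2 v)).comp
            (continuous_const.prodMk continuous_id)).intervalIntegrable _ _
      rw [add_sub_add_left_eq_sub, h1]
      exact hI2 _ _ ((hu1 u).sub (hu1 v)) ((hu2 u).sub (hu2 v)) _ hd1 hd2 p
  have hfix := hT.fixedPoint_isFixedPt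
  set u := ContractingWith.fixedPoint T hT with hu
  refine ⟨fun p => (u p).1, fun p => (u p).2, hu1 u, hu2 u, ⟨?_, ?_⟩, ‖u‖,
    fun p => ⟨hX1 u p, hX2 u p⟩⟩
  · intro p
    have : T u p = u p := by rw [hfix.eq]
    exact (congrArg Prod.fst this).symm
  · intro p
    have : T u p = u p := by rw [hfix.eq]
    exact (congrArg Prod.snd this).symm

theorem Sol.R_bound1 (hc : Coef η α β γ δ) {a b : ℝ × ℝ → ℝ} {K : ℝ}
    (hK : ∀ s t : ℝ, |s| < 1 → |t| < 1 → |a (s, t)| ≤ K ∧ |b (s, t)| ≤ K) (hK0 : 0 ≤ K)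
    (p : ℝ × ℝ) : |R α β a b p| ≤ 2 * (η * K) ∧ |R γ δ a b p| ≤ 2 * (η * K) := by
  have hη0 := hc.η_nonneg
  obtain ⟨s, t⟩ := p
  by_cases h : 1 ≤ |s| ∨ 1 ≤ |t|
  · rw [hc.R_supp1 a b h, hc.R_supp2 a b h, abs_zero]
    constructor <;> positivity
  · rw [not_or, not_le, not_le] at h
    obtain ⟨h1, h2⟩ := hK s t h.1 h.2
    exact ⟨abs_R_le hc.bα hc.bβ hη0 h1 h2, abs_R_le hc.bγ hc.bδ hη0 h1 h2⟩

/-- A priori bound. -/
theorem Sol.bound (hc : Coef η α β γ δ) (hη : η ≤ 1 / 10) {a0 b0 : ℝ → ℝ} {a b : ℝ × ℝ → ℝ}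
    (ha : Continuous a) (hb : Continuous b) (hS : Sol α β γ δ a0 b0 a b) {M : ℝ}
    (hM1 : ∀ x, |a0 x| ≤ M) (hM2 : ∀ x, |b0 x| ≤ M) (p : ℝ × ℝ) : |a p| ≤ 2 * M ∧ |b p| ≤ 2 * M := by
  have hη0 := hc.η_nonneg
  have hM0 : 0 ≤ M := (abs_nonneg _).trans (hM1 0)
  have hcR1 : Continuous (R α β a b) := continuous_R hc.sα.continuous hc.sβ.continuous ha hb
  have hcR2 : Continuous (R γ δ a b) := continuous_R hc.sγ.continuous hc.sδ.continuous ha hb
  have step : ∀ K, 0 ≤ K → (∀ s t : ℝ, |s| < 1 → |t| < 1 → |a (s, t)| ≤ K ∧ |b (s, t)| ≤ K) →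
      ∀ p, |a p| ≤ M + 4 * η * K ∧ |b p| ≤ M + 4 * η * K := by
    intro K hK0 hK p
    have h1 := abs_I1_le hcR1 (fun s t hs => hc.R_supp1 a b (Or.inl (le_abs_of_le hs)))
      (fun s t hs => hc.R_supp1 a b (Or.inl (le_abs_of_ge hs)))
      (fun q => (Sol.R_bound1 hc hK hK0 q).1) p
    have h2 := abs_I2_le hcR2 (fun s t hs => hc.R_supp2 a b (Or.inr (le_abs_of_le hs)))
      (fun s t hs => hc.R_supp2 a b (Or.inr (le_abs_of_ge hs)))
      (fun q => (Sol.R_bound1 hc hK hK0 q).2) p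
    constructor
    · rw [hS.1 p]
      refine (abs_add_le _ _).trans (add_le_add (hM1 _) (h1.trans (le_of_eq (by ring))))
    · rw [hS.2 p]
      refine (abs_add_le _ _).trans (add_le_add (hM2 _) (h2.trans (le_of_eq (by ring))))
  obtain ⟨K, hK0, hK⟩ : ∃ K, 0 ≤ K ∧
      ∀ s t : ℝ, |s| < 1 → |t| < 1 → |a (s, t)| ≤ K ∧ |b (s, t)| ≤ K := by
    obtain ⟨C1, hC1⟩ := ((isCompact_Icc (a := (-1 : ℝ)) (b := 1)).prod
      (isCompact_Icc (a := (-1 : ℝ)) (b := 1))).exists_bound_of_continuousOn ha.continuousOn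
    obtain ⟨C2, hC2⟩ := ((isCompact_Icc (a := (-1 : ℝ)) (b := 1)).prod
      (isCompact_Icc (a := (-1 : ℝ)) (b := 1))).exists_bound_of_continuousOn hb.continuousOn
    refine ⟨max 0 (max C1 C2), le_max_left _ _, fun s t hs ht => ?_⟩
    have hst : (s, t) ∈ Icc (-1 : ℝ) 1 ×ˢ Icc (-1 : ℝ) 1 :=
      ⟨⟨(abs_lt.1 hs).1.le, (abs_lt.1 hs).2.le⟩, ⟨(abs_lt.1 ht).1.le, (abs_lt.1 ht).2.le⟩⟩
    exact ⟨(hC1 _ hst).trans ((le_max_left _ _).trans (le_max_right _ _)),
      (hC2 _ hst).trans ((le_max_right _ _).trans (le_max_right _ _))⟩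
  have iter : ∀ n : ℕ, ∀ s t : ℝ, |s| < 1 → |t| < 1 →
      |a (s, t)| ≤ 2 * M + (1 / 2) ^ n * K ∧ |b (s, t)| ≤ 2 * M + (1 / 2) ^ n * K := by
    intro n
    induction n with
    | zero =>
      intro s t hs ht
      obtain ⟨h1, h2⟩ := hK s t hs ht
      rw [pow_zero, one_mul]
      constructor <;> linarith
    | succ n ih =>
      intro s t hs ht
      have hnn : 0 ≤ (1 / 2 : ℝ) ^ n * K := by positivity
      obtain ⟨h1, h2⟩ := step (2 * M + (1 / 2) ^ n * K) (by positivity) ih (s, t)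
      have h3 : 4 * η * (2 * M + (1 / 2) ^ n * K) ≤ M + (1 / 2) ^ (n + 1) * K := by
        calc 4 * η * (2 * M + (1 / 2) ^ n * K) ≤ 1 / 2 * (2 * M + (1 / 2) ^ n * K) :=
              mul_le_mul_of_nonneg_right (by linarith) (by positivity)
          _ = _ := by rw [pow_succ]; ring
      constructor <;> linarith
  have hlim : Tendsto (fun n : ℕ => 2 * M + (1 / 2 : ℝ) ^ n * K) atTop (𝓝 (2 * M)) := by
    have h1 := (tendsto_pow_atTop_nhds_zero_of_lt_one (r := (1 / 2 : ℝ)) (by norm_num)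
      (by norm_num)).mul_const K
    have h2 := h1.const_add (2 * M)
    simpa using h2
  have hin : ∀ s t : ℝ, |s| < 1 → |t| < 1 → |a (s, t)| ≤ 2 * M ∧ |b (s, t)| ≤ 2 * M :=
    fun s t hs ht => ⟨ge_of_tendsto' hlim fun n => (iter n s t hs ht).1,
      ge_of_tendsto' hlim fun n => (iter n s t hs ht).2⟩
  obtain ⟨h1, h2⟩ := step (2 * M) (by positivity) hin p
  have h3 : 4 * η * (2 * M) ≤ 1 * M := by
    calc 4 * η * (2 * M) = (8 * η) * M := by ring
      _ ≤ 1 * M := mul_le_mul_of_nonneg_right (by linarith) hM0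
  constructor <;> linarith

/-- Closeness to the data. -/
theorem Sol.close (hc : Coef η α β γ δ) (hη : η ≤ 1 / 10) {a0 b0 : ℝ → ℝ} {a b : ℝ × ℝ → ℝ}
    (ha : Continuous a) (hb : Continuous b) (hS : Sol α β γ δ a0 b0 a b) {M : ℝ}
    (hM1 : ∀ x, |a0 x| ≤ M) (hM2 : ∀ x, |b0 x| ≤ M) (p : ℝ × ℝ) :
    |a p - a0 p.2| ≤ 8 * η * M ∧ |b p - b0 p.1| ≤ 8 * η * M := by
  have hM0 : 0 ≤ M := (abs_nonneg _).trans (hM1 0)
  have hB := fun p => Sol.bound hc hη ha hb hS hM1 hM2 p
  have hcR1 : Continuous (R α β a b) := continuous_R hc.sα.continuous hc.sβ.continuous ha hb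
  have hcR2 : Continuous (R γ δ a b) := continuous_R hc.sγ.continuous hc.sδ.continuous ha hb
  have hR := fun q => Sol.R_bound1 hc (a := a) (b := b) (K := 2 * M) (fun s t _ _ => hB (s, t))
    (by positivity) q
  have h1 := abs_I1_le hcR1 (fun s t hs => hc.R_supp1 a b (Or.inl (le_abs_of_le hs)))
    (fun s t hs => hc.R_supp1 a b (Or.inl (le_abs_of_ge hs))) (fun q => (hR q).1) p
  have h2 := abs_I2_le hcR2 (fun s t hs => hc.R_supp2 a b (Or.inr (le_abs_of_le hs)))
    (fun s t hs => hc.R_supp2 a b (Or.inr (le_abs_of_ge hs))) (fun q => (hR q).2) p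
  constructor
  · rw [hS.1 p, add_sub_cancel_left]; linarith
  · rw [hS.2 p, add_sub_cancel_left]; linarith

theorem I1_sub {h k : ℝ × ℝ → ℝ} (hh : Continuous h) (hk : Continuous k) (p : ℝ × ℝ) :
    I1 (fun q => h q - k q) p = I1 h p - I1 k p := by
  unfold I1
  exact intervalIntegral.integral_sub
    ((hh.comp (continuous_id.prodMk continuous_const)).intervalIntegrable _ _)
    ((hk.comp (continuous_id.prodMk continuous_const)).intervalIntegrable _ _)

theorem I2_sub {h k : ℝ × ℝ → ℝ} (hh : Continuous h) (hk : Continuous k) (p : ℝ × ℝ) :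
    I2 (fun q => h q - k q) p = I2 h p - I2 k p := by
  unfold I2
  exact intervalIntegral.integral_sub
    ((hh.comp (continuous_const.prodMk continuous_id)).intervalIntegrable _ _)
    ((hk.comp (continuous_const.prodMk continuous_id)).intervalIntegrable _ _)

/-- Uniqueness of continuous solutions. -/
theorem Sol.unique (hc : Coef η α β γ δ) (hη : η ≤ 1 / 10) {a0 b0 : ℝ → ℝ}
    {a b a' b' : ℝ × ℝ → ℝ} (ha : Continuous a) (hb : Continuous b) (ha' : Continuous a')
    (hb' : Continuous b') (hS : Sol α β γ δ a0 b0 a b) (hS' : Sol α β γ δ a0 b0 a' b') :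
    a = a' ∧ b = b' := by
  have hD : Sol α β γ δ (fun _ => 0) (fun _ => 0) (fun p => a p - a' p) (fun p => b p - b' p) := by
    constructor
    · intro p
      have e : R α β (fun p => a p - a' p) (fun p => b p - b' p) =
          fun p => R α β a b p - R α β a' b' p := by
        funext q; unfold R; ring
      rw [e, I1_sub (continuous_R hc.sα.continuous hc.sβ.continuous ha hb)
        (continuous_R hc.sα.continuous hc.sβ.continuous ha' hb')]
      have e1 := hS.1 p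
      have e2 := hS'.1 p
      simp only
      linarith
    · intro p
      have e : R γ δ (fun p => a p - a' p) (fun p => b p - b' p) =
          fun p => R γ δ a b p - R γ δ a' b' p := by
        funext q; unfold R; ring
      rw [e, I2_sub (continuous_R hc.sγ.continuous hc.sδ.continuous ha hb)
        (continuous_R hc.sγ.continuous hc.sδ.continuous ha' hb')]
      have e1 := hS.2 p
      have e2 := hS'.2 p
      simp only
      linarith
  have hB := fun p => Sol.bound hc hη (ha.sub ha') (hb.sub hb') hD (M := 0)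
    (fun _ => by simp) (fun _ => by simp) p
  constructor
  · funext p
    have := (hB p).1
    rw [mul_zero] at this
    exact sub_eq_zero.1 (abs_nonpos_iff.1 this)
  · funext p
    have := (hB p).2
    rw [mul_zero] at this
    exact sub_eq_zero.1 (abs_nonpos_iff.1 this)

/-- Exchange of the variables. -/
theorem Coef.swap (hc : Coef η α β γ δ) : Coef η (fun p => δ (p.2, p.1)) (fun p => γ (p.2, p.1))
    (fun p => β (p.2, p.1)) (fun p => α (p.2, p.1)) where
  sα := hc.sδ.comp (contDiff_snd.prodMk contDiff_fst)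
  sβ := hc.sγ.comp (contDiff_snd.prodMk contDiff_fst)
  sγ := hc.sβ.comp (contDiff_snd.prodMk contDiff_fst)
  sδ := hc.sα.comp (contDiff_snd.prodMk contDiff_fst)
  supp := fun s t h => by
    obtain ⟨h1, h2, h3, h4⟩ := hc.supp t s h.symm
    exact ⟨h4, h3, h2, h1⟩
  bα := fun p => hc.bδ _
  bβ := fun p => hc.bγ _
  bγ := fun p => hc.bβ _
  bδ := fun p => hc.bα _

theorem Sol.swap {a0 b0 : ℝ → ℝ} {a b : ℝ × ℝ → ℝ} (hS : Sol α β γ δ a0 b0 a b) :
    Sol (fun p => δ (p.2, p.1)) (fun p => γ (p.2, p.1)) (fun p => β (p.2, p.1))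
      (fun p => α (p.2, p.1)) b0 a0 (fun p => b (p.2, p.1)) (fun p => a (p.2, p.1)) := by
  constructor
  · intro p
    simp only
    rw [hS.2 (p.2, p.1)]
    have e : R (fun p => δ (p.2, p.1)) (fun p => γ (p.2, p.1)) (fun p => b (p.2, p.1))
        (fun p => a (p.2, p.1)) = fun q => R γ δ a b (q.2, q.1) := by
      funext q; unfold R; ring
    rw [e]
    rfl
  · intro p
    simp only
    rw [hS.1 (p.2, p.1)]
    have e : R (fun p => β (p.2, p.1)) (fun p => α (p.2, p.1)) (fun p => b (p.2, p.1))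
        (fun p => a (p.2, p.1)) = fun q => R α β a b (q.2, q.1) := by
      funext q; unfold R; ring
    rw [e]
    rfl

theorem Sol.deriv1 (hc : Coef η α β γ δ) {a0 b0 : ℝ → ℝ} {a b : ℝ × ℝ → ℝ} (ha : Continuous a)
    (hb : Continuous b) (hS : Sol α β γ δ a0 b0 a b) (s t : ℝ) :
    HasDerivAt (fun x => a (x, t)) (α (s, t) * a (s, t) + β (s, t) * b (s, t)) s := by
  have e : (fun x => a (x, t)) = fun x => a0 t + I1 (R α β a b) (x, t) :=
    funext fun x => hS.1 (x, t)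
  rw [e]
  exact (deriv1_I1 (continuous_R hc.sα.continuous hc.sβ.continuous ha hb) s t).const_add _

theorem Sol.deriv2 (hc : Coef η α β γ δ) {a0 b0 : ℝ → ℝ} {a b : ℝ × ℝ → ℝ} (ha : Continuous a)
    (hb : Continuous b) (hS : Sol α β γ δ a0 b0 a b) (s t : ℝ) :
    HasDerivAt (fun x => b (s, x)) (γ (s, t) * a (s, t) + δ (s, t) * b (s, t)) t := by
  have e : (fun x => b (s, x)) = fun x => b0 s + I2 (R γ δ a b) (s, x) :=
    funext fun x => hS.2 (s, x)
  rw [e]
  exact (deriv2_I2 (continuous_R hc.sγ.continuous hc.sδ.continuous ha hb) s t).const_add _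

/-- Gauge transformation. -/
theorem Sol.gauge (hc : Coef η α β γ δ) {a0 b0 : ℝ → ℝ} {a b : ℝ × ℝ → ℝ} (ha : Continuous a)
    (hb : Continuous b) (hS : Sol α β γ δ a0 b0 a b) (p : ℝ × ℝ) :
    a p = Real.exp (I1 α p) * (a0 p.2 + I1 (fun q => Real.exp (-I1 α q) * β q * b q) p) := by
  obtain ⟨s, t⟩ := p
  have hαc := hc.sα.continuous
  have hG : Continuous (fun q => Real.exp (-I1 α q) * β q * b q) :=
    ((Real.continuous_exp.comp (continuous_I1 hαc).neg).mul hc.sβ.continuous).mul hb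
  have hd : ∀ x, HasDerivAt (fun x => Real.exp (-I1 α (x, t)) * a (x, t) -
      I1 (fun q => Real.exp (-I1 α q) * β q * b q) (x, t)) 0 x := by
    intro x
    have h1 : HasDerivAt (fun x => Real.exp (-I1 α (x, t)))
        (Real.exp (-I1 α (x, t)) * -α (x, t)) x := ((deriv1_I1 hαc x t).neg).exp
    have h2 := (h1.mul (Sol.deriv1 hc ha hb hS x t)).sub (deriv1_I1 hG x t)
    exact h2.congr_deriv (by ring)
  have hconst := is_const_of_deriv_eq_zero (fun x => (hd x).differentiableAt)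
    (fun x => (hd x).deriv) s (-1)
  have h0 : ∀ h : ℝ × ℝ → ℝ, I1 h (-1, t) = 0 := fun h => by unfold I1; simp
  rw [h0, h0, neg_zero, Real.exp_zero, one_mul, sub_zero] at hconst
  have ha0 : a (-1, t) = a0 t := by rw [hS.1, h0, add_zero]
  rw [ha0] at hconst
  have h3 : Real.exp (-I1 α (s, t)) * a (s, t) =
      a0 t + I1 (fun q => Real.exp (-I1 α q) * β q * b q) (s, t) := by linarith
  simp only
  rw [← h3, ← mul_assoc, ← Real.exp_add]
  simp

/-- Solutions are smooth (first component). -/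
theorem Sol.smooth1 (hc : Coef η α β γ δ) {a0 b0 : ℝ → ℝ} (ha0 : ContDiff ℝ ∞ a0)
    (hb0 : ContDiff ℝ ∞ b0) {a b : ℝ × ℝ → ℝ} (ha : Continuous a)
    (hb : Continuous b) (hS : Sol α β γ δ a0 b0 a b) : ContDiff ℝ ∞ a := by
  have hI1s : ∀ {h : ℝ × ℝ → ℝ}, ContDiff ℝ ∞ h → ContDiff ℝ ∞ (I1 h) := fun hh =>
    contDiff_infty.2 fun n => contDiff_I1 n (contDiff_infty.1 hh n)
  have hI2s : ∀ {h : ℝ × ℝ → ℝ}, ContDiff ℝ ∞ h → ContDiff ℝ ∞ (I2 h) := fun hh =>
    contDiff_infty.2 fun n => contDiff_I2 n (contDiff_infty.1 hh n)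
  have hA : ContDiff ℝ ∞ (I1 α) := hI1s hc.sα
  have hD : ContDiff ℝ ∞ (I2 δ) := hI2s hc.sδ
  have hb' : ∀ p, b p = Real.exp (I2 δ p) *
      (b0 p.1 + I2 (fun q => Real.exp (-I2 δ q) * γ q * a q) p) := by
    intro p
    exact Sol.gauge hc.swap (hb.comp (continuous_snd.prodMk continuous_fst))
      (ha.comp (continuous_snd.prodMk continuous_fst)) hS.swap (p.2, p.1)
  set βh : ℝ × ℝ → ℝ := fun q => Real.exp (-I1 α q) * β q * Real.exp (I2 δ q) with hβh
  set γh : ℝ × ℝ → ℝ := fun q => Real.exp (-I2 δ q) * γ q with hγh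
  have hβs : ContDiff ℝ ∞ βh := ((hA.neg.exp).mul hc.sβ).mul hD.exp
  have hγs : ContDiff ℝ ∞ γh := (hD.neg.exp).mul hc.sγ
  set g : ℝ × ℝ → ℝ := fun p => Real.exp (I1 α p) *
    (a0 p.2 + I1 (fun q => βh q * b0 q.1) p) with hg
  have hgs : ContDiff ℝ ∞ g :=
    hA.exp.mul ((ha0.comp contDiff_snd).add (hI1s (hβs.mul (hb0.comp contDiff_fst))))
  refine smooth_of_fixed hgs hA.exp hβs hγs ha fun p => ?_
  rw [Sol.gauge hc ha hb hS p]
  have e : (fun q => Real.exp (-I1 α q) * β q * b q) =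
      fun q => βh q * b0 q.1 + βh q * I2 (fun q => γh q * a q) q := by
    funext q
    rw [hb' q]
    have e2 : (fun q => Real.exp (-I2 δ q) * γ q * a q) = fun q => γh q * a q := rfl
    rw [e2, hβh]
    ring
  have hadd : I1 (fun q => βh q * b0 q.1 + βh q * I2 (fun q => γh q * a q) q) p =
      I1 (fun q => βh q * b0 q.1) p + I1 (fun q => βh q * I2 (fun q => γh q * a q) q) p := by
    have c1 : Continuous (fun q : ℝ × ℝ => βh q * b0 q.1) :=
      hβs.continuous.mul (hb0.continuous.comp continuous_fst)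
    have c2 : Continuous (fun q => βh q * I2 (fun q => γh q * a q) q) :=
      hβs.continuous.mul (continuous_I2 (hγs.continuous.mul ha))
    unfold I1
    exact intervalIntegral.integral_add
      ((c1.comp (continuous_id.prodMk continuous_const)).intervalIntegrable _ _)
      ((c2.comp (continuous_id.prodMk continuous_const)).intervalIntegrable _ _)
  rw [e, hadd, hg]
  ring

theorem Sol.smooth2 (hc : Coef η α β γ δ) {a0 b0 : ℝ → ℝ} (ha0 : ContDiff ℝ ∞ a0)
    (hb0 : ContDiff ℝ ∞ b0) {a b : ℝ × ℝ → ℝ} (ha : Continuous a)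
    (hb : Continuous b) (hS : Sol α β γ δ a0 b0 a b) : ContDiff ℝ ∞ b := by
  have := Sol.smooth1 hc.swap hb0 ha0 (hb.comp (continuous_snd.prodMk continuous_fst))
    (ha.comp (continuous_snd.prodMk continuous_fst)) hS.swap
  exact this.comp (contDiff_snd.prodMk contDiff_fst)

/-- The linear Goursat problem. -/
theorem goursat (hc : Coef η α β γ δ) (hη : η ≤ 1 / 10) {a0 b0 : ℝ → ℝ}
    (ha0 : ContDiff ℝ ∞ a0) (hb0 : ContDiff ℝ ∞ b0) {M : ℝ} (hM1 : ∀ x, |a0 x| ≤ M)
    (hM2 : ∀ x, |b0 x| ≤ M) :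
    ∃ a b : ℝ × ℝ → ℝ, ContDiff ℝ ∞ a ∧ ContDiff ℝ ∞ b ∧
      (∀ s t, HasDerivAt (fun x => a (x, t)) (α (s, t) * a (s, t) + β (s, t) * b (s, t)) s) ∧
      (∀ s t, HasDerivAt (fun x => b (s, x)) (γ (s, t) * a (s, t) + δ (s, t) * b (s, t)) t) ∧
      (∀ s t, s ≤ -1 → a (s, t) = a0 t) ∧ (∀ s t, t ≤ -1 → b (s, t) = b0 s) ∧
      (∀ s t, 1 ≤ s → a (s, t) = a (1, t)) ∧ (∀ s t, 1 ≤ t → b (s, t) = b (s, 1)) ∧
      (∀ s t, 1 ≤ |t| → a (s, t) = a0 t) ∧ (∀ s t, 1 ≤ |s| → b (s, t) = b0 s) ∧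
      (∀ p, |a p - a0 p.2| ≤ 8 * η * M) ∧ (∀ p, |b p - b0 p.1| ≤ 8 * η * M) := by
  obtain ⟨a, b, ha, hb, hS, -⟩ := exists_sol hc hη ha0.continuous hb0.continuous hM1 hM2
  have hcR1 : Continuous (R α β a b) := continuous_R hc.sα.continuous hc.sβ.continuous ha hb
  have hcR2 : Continuous (R γ δ a b) := continuous_R hc.sγ.continuous hc.sδ.continuous ha hb
  refine ⟨a, b, Sol.smooth1 hc ha0 hb0 ha hb hS, Sol.smooth2 hc ha0 hb0 ha hb hS,
    Sol.deriv1 hc ha hb hS, Sol.deriv2 hc ha hb hS, ?_, ?_, ?_, ?_, ?_, ?_,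
    fun p => (Sol.close hc hη ha hb hS hM1 hM2 p).1,
    fun p => (Sol.close hc hη ha hb hS hM1 hM2 p).2⟩
  · intro s t hs
    rw [hS.1, I1_of_le (fun s t hs => hc.R_supp1 a b (Or.inl (le_abs_of_le hs))) hs, add_zero]
  · intro s t ht
    rw [hS.2, I2_of_le (fun s t ht => hc.R_supp2 a b (Or.inr (le_abs_of_le ht))) ht, add_zero]
  · intro s t hs
    rw [hS.1, hS.1, I1_of_ge hcR1 (fun s t hs => hc.R_supp1 a b (Or.inl (le_abs_of_ge hs))) hs]
  · intro s t ht
    rw [hS.2, hS.2, I2_of_ge hcR2 (fun s t ht => hc.R_supp2 a b (Or.inr (le_abs_of_ge ht))) ht]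
  · intro s t ht
    rw [hS.1]
    have : I1 (R α β a b) (s, t) = 0 := by
      unfold I1
      simp only
      rw [intervalIntegral.integral_congr (g := fun _ => (0 : ℝ))]
      · simp
      · intro x _
        exact hc.R_supp1 a b (Or.inr ht)
    rw [this, add_zero]
  · intro s t hs
    rw [hS.2]
    have : I2 (R γ δ a b) (s, t) = 0 := by
      unfold I2
      simp only
      rw [intervalIntegral.integral_congr (g := fun _ => (0 : ℝ))]
      · simp
      · intro x _
        exact hc.R_supp2 a b (Or.inl hs)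
    rw [this, add_zero]

/-- Classical solutions satisfy the integral equations. -/
theorem sol_of_classical (hc : Coef η α β γ δ) {a b : ℝ × ℝ → ℝ} (ha : Continuous a)
    (hb : Continuous b)
    (h1 : ∀ s t, HasDerivAt (fun x => a (x, t)) (α (s, t) * a (s, t) + β (s, t) * b (s, t)) s)
    (h2 : ∀ s t, HasDerivAt (fun x => b (s, x)) (γ (s, t) * a (s, t) + δ (s, t) * b (s, t)) t) :
    Sol α β γ δ (fun t => a (-1, t)) (fun s => b (s, -1)) a b := by
  have hcR1 : Continuous (R α β a b) := continuous_R hc.sα.continuous hc.sβ.continuous ha hb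
  have hcR2 : Continuous (R γ δ a b) := continuous_R hc.sγ.continuous hc.sδ.continuous ha hb
  constructor
  · rintro ⟨s, t⟩
    have := intervalIntegral.integral_eq_sub_of_hasDerivAt (a := -1) (b := s)
      (f := fun x => a (x, t)) (f' := fun x => R α β a b (x, t)) (fun x _ => h1 x t)
      ((hcR1.comp (continuous_id.prodMk continuous_const)).intervalIntegrable _ _)
    unfold I1
    simp only
    rw [this]; ring
  · rintro ⟨s, t⟩
    have := intervalIntegral.integral_eq_sub_of_hasDerivAt (a := -1) (b := t)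
      (f := fun x => b (s, x)) (f' := fun x => R γ δ a b (s, x)) (fun x _ => h2 s x)
      ((hcR2.comp (continuous_const.prodMk continuous_id)).intervalIntegrable _ _)
    unfold I2
    simp only
    rw [this]; ring

/-- Uniqueness for the linear Goursat problem. -/
theorem goursat_unique (hc : Coef η α β γ δ) (hη : η ≤ 1 / 10) {a b a' b' : ℝ × ℝ → ℝ}
    (ha : Continuous a) (hb : Continuous b) (ha' : Continuous a') (hb' : Continuous b')
    (h1 : ∀ s t, HasDerivAt (fun x => a (x, t)) (α (s, t) * a (s, t) + β (s, t) * b (s, t)) s)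
    (h2 : ∀ s t, HasDerivAt (fun x => b (s, x)) (γ (s, t) * a (s, t) + δ (s, t) * b (s, t)) t)
    (h1' : ∀ s t, HasDerivAt (fun x => a' (x, t))
      (α (s, t) * a' (s, t) + β (s, t) * b' (s, t)) s)
    (h2' : ∀ s t, HasDerivAt (fun x => b' (s, x))
      (γ (s, t) * a' (s, t) + δ (s, t) * b' (s, t)) t)
    (hda : ∀ t, a (-1, t) = a' (-1, t)) (hdb : ∀ s, b (s, -1) = b' (s, -1)) :
    a = a' ∧ b = b' := by
  have hS := sol_of_classical hc ha hb h1 h2
  have hS' := sol_of_classical hc ha' hb' h1' h2'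
  rw [show (fun t => a (-1, t)) = fun t => a' (-1, t) from funext hda,
    show (fun s => b (s, -1)) = fun s => b' (s, -1) from funext hdb] at hS
  exact Sol.unique hc hη ha hb ha' hb' hS hS'

end

end Pool.Agent.Lib.MP_582a01_gt.Goursat
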