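import Mathlib
import Pool.Agent.Lib.MP_582a01_gt.Defs

/-!
# MP_582a01_gt : module Killing

A periodic Killing field is conformal for the flat hexagonal metric, hence constant (Liouville),
hence zero because of the two arms.
-/

set_option autoImplicit false
open scoped ContDiff Topology
open Filter

namespace Cub

namespace KillingAux

/-- the linear isomorphism between the plane and the torus coordinates -/
noncomputable def co (z : ℂ) : Fin 2 → ℝ := ![z.re - z.im / √3, 2 * z.im / √3]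

noncomputable def coL : ℂ →L[ℝ] (Fin 2 → ℝ) :=
  ContinuousLinearMap.pi ![Complex.reCLM - (1/√3) • Complex.imCLM, (2/√3) • Complex.imCLM]

theorem coL_apply (z : ℂ) : coL z = co z := by
  ext i
  fin_cases i
  · simp [coL, co]; ring
  · simp [coL, co]; ring

/-- the sixth root of unity -/
noncomputable def w : ℂ := ⟨1/2, √3/2⟩

theorem w_sq : w * w = w - 1 := by
  have h3 : √3 * √3 = 3 := Real.mul_self_sqrt (by norm_num)
  apply Complex.ext
  · simp [w]; nlinarith
  · simp [w]; ring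

theorem I_sqrt : Complex.I * (√3 : ℝ) = 2 * w - 1 := by
  apply Complex.ext
  · simp [w]
  · simp [w]; ring

theorem fderiv_gM {Lam : ℝ × ℝ → ℝ} (hL : Differentiable ℝ Lam) (x : Fin 2 → ℝ) (i j : Fin 2)
    (v : Fin 2 → ℝ) :
    fderiv ℝ (fun y => gM Lam y i j) x v
      = fderiv ℝ Lam (x 0, x 1) (v 0, v 1) * (if i = j then 4/3 else 2/3) := by
  have hp : HasFDerivAt (fun y : Fin 2 → ℝ => (y 0, y 1))
      ((ContinuousLinearMap.proj (R := ℝ) (φ := fun _ : Fin 2 => ℝ) 0).prod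
        (ContinuousLinearMap.proj (R := ℝ) (φ := fun _ : Fin 2 => ℝ) 1)) x :=
    ((ContinuousLinearMap.proj (R := ℝ) (φ := fun _ : Fin 2 => ℝ) 0).prod
        (ContinuousLinearMap.proj (R := ℝ) (φ := fun _ : Fin 2 => ℝ) 1)).hasFDerivAt
  have hg : HasFDerivAt Lam (fderiv ℝ Lam (x 0, x 1)) (x 0, x 1) := (hL (x 0, x 1)).hasFDerivAt
  have h := (HasFDerivAt.comp x hg hp).mul_const (if i = j then 4/3 else 2/3 : ℝ)
  have h' : HasFDerivAt (fun y => gM Lam y i j) _ x := h
  rw [h'.fderiv]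
  generalize (if i = j then (4/3:ℝ) else 2/3) = κ
  simp [mul_comm]

/-- the Cauchy-Riemann equations in lattice coordinates -/
theorem cr {Lam : ℝ × ℝ → ℝ} (hL : Differentiable ℝ Lam) (hpos : ∀ z, 0 < Lam z)
    {V : (Fin 2 → ℝ) → Fin 2 → ℝ}
    (hK : ∀ x (i j : Fin 2),
        ∑ k : Fin 2,
          (V x k * fderiv ℝ (fun y => gM Lam y i j) x (Pi.single k (1 : ℝ))
            + gM Lam x k j * fderiv ℝ (fun y => V y k) x (Pi.single i (1 : ℝ))
            + gM Lam x i k * fderiv ℝ (fun y => V y k) x (Pi.single j (1 : ℝ))) = 0)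
    (x : Fin 2 → ℝ) :
    fderiv ℝ (fun y => V y 0) x (Pi.single 1 1) = - fderiv ℝ (fun y => V y 1) x (Pi.single 0 1) ∧
    fderiv ℝ (fun y => V y 1) x (Pi.single 1 1) = fderiv ℝ (fun y => V y 0) x (Pi.single 0 1)
      + fderiv ℝ (fun y => V y 1) x (Pi.single 0 1) ∧
    V x 0 * fderiv ℝ Lam (x 0, x 1) (1,0) + V x 1 * fderiv ℝ Lam (x 0, x 1) (0,1)
      = - Lam (x 0, x 1) * (2 * fderiv ℝ (fun y => V y 0) x (Pi.single 0 1)
        + fderiv ℝ (fun y => V y 1) x (Pi.single 0 1)) := by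
  have h00 := hK x 0 0
  have h11 := hK x 1 1
  have h01 := hK x 0 1
  simp only [Fin.sum_univ_two, fderiv_gM hL] at h00 h11 h01
  simp [gM] at h00 h11 h01
  set a := fderiv ℝ (fun y => V y 0) x (Pi.single 0 1)
  set b := fderiv ℝ (fun y => V y 1) x (Pi.single 0 1)
  set c := fderiv ℝ (fun y => V y 0) x (Pi.single 1 1)
  set d := fderiv ℝ (fun y => V y 1) x (Pi.single 1 1)
  set L0 := fderiv ℝ Lam (x 0, x 1) (1,0)
  set L1 := fderiv ℝ Lam (x 0, x 1) (0,1)
  have hp := hpos (x 0, x 1)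
  set L := Lam (x 0, x 1)
  have e1 : L * (b + c) = 0 := by linear_combination (-1/4) * h00 + (-1/4) * h11 + 1 * h01
  have e2 : L * (2*a + b - c - 2*d) = 0 := by linear_combination (3/4) * h00 + (-3/4) * h11
  have e1' : b + c = 0 := by
    rcases mul_eq_zero.mp e1 with h | h
    · exact absurd h hp.ne'
    · exact h
  have e2' : 2*a + b - c - 2*d = 0 := by
    rcases mul_eq_zero.mp e2 with h | h
    · exact absurd h hp.ne'
    · exact h
  refine ⟨by linarith, by linarith, ?_⟩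
  linear_combination (3/4) * h00

/-- the complex function attached to a vector field -/
noncomputable def cfn (V : (Fin 2 → ℝ) → Fin 2 → ℝ) (z : ℂ) : ℂ :=
  (V (co z) 0 : ℂ) + w * (V (co z) 1 : ℂ)

theorem hasFDerivAt_cfn {V : (Fin 2 → ℝ) → Fin 2 → ℝ}
    (hV : ∀ k, ContDiff ℝ ∞ (fun x => V x k)) (z : ℂ) :
    HasFDerivAt (cfn V)
      ((Complex.ofRealCLM ∘L ((fderiv ℝ (fun y => V y 0) (co z)) ∘L coL))
        + w • (Complex.ofRealCLM ∘L ((fderiv ℝ (fun y => V y 1) (co z)) ∘L coL))) z := by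
  have hk : ∀ k, HasFDerivAt (fun z : ℂ => ((V (co z) k : ℝ) : ℂ))
      (Complex.ofRealCLM ∘L ((fderiv ℝ (fun y => V y k) (co z)) ∘L coL)) z := by
    intro k
    have h1 : HasFDerivAt (fun y => V y k) (fderiv ℝ (fun y => V y k) (co z)) (co z) :=
      (((hV k).differentiable (by simp)) (co z)).hasFDerivAt
    have hco : HasFDerivAt co coL z := by
      have := coL.hasFDerivAt (x := z)
      have e : (fun z => coL z) = co := funext coL_apply
      rw [← e]
      exact this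
    have h2 := HasFDerivAt.comp z h1 hco
    exact HasFDerivAt.comp z (Complex.ofRealCLM.hasFDerivAt) h2
  exact (hk 0).add ((hk 1).const_mul w)

theorem coL_one : coL 1 = Pi.single 0 1 := by
  rw [coL_apply]
  ext i
  fin_cases i <;> simp [co]

theorem coL_I : coL Complex.I = (-(1/√3)) • Pi.single 0 1 + (2/√3) • Pi.single 1 1 := by
  rw [coL_apply]
  ext i
  fin_cases i <;> simp [co]

theorem differentiable_cfn {Lam : ℝ × ℝ → ℝ} (hL : Differentiable ℝ Lam) (hpos : ∀ z, 0 < Lam z)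
    {V : (Fin 2 → ℝ) → Fin 2 → ℝ}
    (hV : ∀ k, ContDiff ℝ ∞ (fun x => V x k))
    (hK : ∀ x (i j : Fin 2),
        ∑ k : Fin 2,
          (V x k * fderiv ℝ (fun y => gM Lam y i j) x (Pi.single k (1 : ℝ))
            + gM Lam x k j * fderiv ℝ (fun y => V y k) x (Pi.single i (1 : ℝ))
            + gM Lam x i k * fderiv ℝ (fun y => V y k) x (Pi.single j (1 : ℝ))) = 0) :
    Differentiable ℂ (cfn V) := by
  intro z
  rw [differentiableAt_complex_iff_differentiableAt_real]
  have h := hasFDerivAt_cfn hV z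
  refine ⟨h.differentiableAt, ?_⟩
  rw [h.fderiv]
  obtain ⟨h1, h2, -⟩ := cr hL hpos hK (co z)
  have e1 : ((Complex.ofRealCLM ∘L ((fderiv ℝ (fun y => V y 0) (co z)) ∘L coL))
        + w • (Complex.ofRealCLM ∘L ((fderiv ℝ (fun y => V y 1) (co z)) ∘L coL))) Complex.I
      = ((fderiv ℝ (fun y => V y 0) (co z) (coL Complex.I) : ℝ) : ℂ)
        + w * ((fderiv ℝ (fun y => V y 1) (co z) (coL Complex.I) : ℝ) : ℂ) := by
    simp
  have e2 : ((Complex.ofRealCLM ∘L ((fderiv ℝ (fun y => V y 0) (co z)) ∘L coL))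
        + w • (Complex.ofRealCLM ∘L ((fderiv ℝ (fun y => V y 1) (co z)) ∘L coL))) 1
      = ((fderiv ℝ (fun y => V y 0) (co z) (coL 1) : ℝ) : ℂ)
        + w * ((fderiv ℝ (fun y => V y 1) (co z) (coL 1) : ℝ) : ℂ) := by
    simp
  rw [e1, e2, coL_one, coL_I]
  simp only [map_add, map_smul, smul_eq_mul]
  rw [h1, h2]
  set a := fderiv ℝ (fun y => V y 0) (co z) (Pi.single 0 1)
  set b := fderiv ℝ (fun y => V y 1) (co z) (Pi.single 0 1)
  have h3 : √3 * √3 = 3 := Real.mul_self_sqrt (by norm_num)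
  have h3' : √3 ≠ 0 := by positivity
  have h3c : ((√3 : ℝ) : ℂ) ≠ 0 := by exact_mod_cast h3'
  have hI := I_sqrt
  have hI' : Complex.I = (2 * w - 1) / ((√3 : ℝ) : ℂ) := by
    rw [← hI]; field_simp
  rw [hI']
  push_cast
  field_simp
  have hw := w_sq
  linear_combination (-2 * (b:ℂ)) * hw

/-- a continuous periodic function is bounded -/
theorem bounded_of_periodic {f : (Fin 2 → ℝ) → ℝ} (hf : Continuous f)
    (hper : ∀ (x : Fin 2 → ℝ) (v : Fin 2 → ℤ), f (x + (fun k => (v k : ℝ))) = f x) :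
    ∃ C, ∀ x, |f x| ≤ C := by
  have hc : IsCompact (Set.Icc (0 : Fin 2 → ℝ) 1) := isCompact_Icc
  obtain ⟨C, hC⟩ := hc.exists_bound_of_continuousOn hf.continuousOn
  refine ⟨C, fun x => ?_⟩
  have hx : f x = f (fun k => Int.fract (x k)) := by
    rw [← hper (fun k => Int.fract (x k)) (fun k => ⌊x k⌋)]
    congr 1
    funext k
    simp [Int.fract_add_floor]
  rw [hx]
  exact hC _ ⟨fun k => Int.fract_nonneg _, fun k => (Int.fract_lt_one _).le⟩

theorem co_surj (x : Fin 2 → ℝ) : ∃ z, co z = x := by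
  have h3' : √3 ≠ 0 := by positivity
  refine ⟨⟨x 0 + x 1 / 2, x 1 * √3 / 2⟩, ?_⟩
  ext i
  fin_cases i
  · simp [co]
    field_simp
    ring
  · simp [co]
    field_simp

end KillingAux

open KillingAux in
theorem no_killing {Lam A B : ℝ × ℝ → ℝ} (h : Global Lam A B)
    (V : (Fin 2 → ℝ) → Fin 2 → ℝ)
    (hV : ∀ k, ContDiff ℝ ∞ (fun x => V x k))
    (hper : ∀ (x : Fin 2 → ℝ) (v : Fin 2 → ℤ), V (x + (fun k => (v k : ℝ))) = V x)
    (hne : ∃ x, V x ≠ 0)
    (hK : ∀ x (i j : Fin 2),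
        ∑ k : Fin 2,
          (V x k * fderiv ℝ (fun y => gM Lam y i j) x (Pi.single k (1 : ℝ))
            + gM Lam x k j * fderiv ℝ (fun y => V y k) x (Pi.single i (1 : ℝ))
            + gM Lam x i k * fderiv ℝ (fun y => V y k) x (Pi.single j (1 : ℝ))) = 0) :
    False := by
  have hL : Differentiable ℝ Lam := h.smoothL.differentiable (by simp)
  have hd := differentiable_cfn hL h.pos hV hK
  obtain ⟨C0, hC0⟩ := bounded_of_periodic (hV 0).continuous (fun x v => by rw [hper])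
  obtain ⟨C1, hC1⟩ := bounded_of_periodic (hV 1).continuous (fun x v => by rw [hper])
  have hb : Bornology.IsBounded (Set.range (cfn V)) := by
    rw [isBounded_iff_forall_norm_le]
    refine ⟨C0 + ‖w‖ * C1, ?_⟩
    rintro _ ⟨z, rfl⟩
    unfold cfn
    refine (norm_add_le _ _).trans ?_
    rw [norm_mul, Complex.norm_real, Complex.norm_real, Real.norm_eq_abs, Real.norm_eq_abs]
    exact add_le_add (hC0 _) (mul_le_mul_of_nonneg_left (hC1 _) (norm_nonneg _))
  have hconst : ∀ z z', cfn V z = cfn V z' := fun z z' => hd.apply_eq_apply_of_bounded hb z z'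
  have hVc : ∀ x y, V x = V y := by
    intro x y
    obtain ⟨z, rfl⟩ := co_surj x
    obtain ⟨z', rfl⟩ := co_surj y
    have e := hconst z z'
    unfold cfn w at e
    have e1 := congrArg Complex.im e
    have e0 := congrArg Complex.re e
    simp at e0 e1
    rw [e1] at e0
    ext k
    fin_cases k
    · simpa using e0
    · simpa using e1
  have hfd : ∀ k x, fderiv ℝ (fun y => V y k) x = 0 := by
    intro k x
    have : (fun y => V y k) = fun _ => V 0 k := by
      funext y; rw [hVc y 0]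
    rw [this]
    simp
  have hgrad : ∀ x : Fin 2 → ℝ, V 0 0 * fderiv ℝ Lam (x 0, x 1) (1,0)
      + V 0 1 * fderiv ℝ Lam (x 0, x 1) (0,1) = 0 := by
    intro x
    obtain ⟨-, -, h3⟩ := cr hL h.pos hK x
    rw [hfd, hfd, hVc x 0] at h3
    simpa using h3
  obtain ⟨R, hR, ⟨s0, hs0⟩, hR0, ha1, ha2⟩ := h.arms
  -- the derivative of R does not vanish identically
  have hR' : ∃ s, |s| < 1/8 ∧ deriv R s ≠ 0 := by
    by_contra hcon
    push Not at hcon
    apply hs0
    have hs0' : |s0| < 1/10 := by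
      by_contra hlt
      exact hs0 (hR0 s0 (not_lt.mp hlt))
    have hconv : Convex ℝ (Set.Ioo (-(1/8) : ℝ) (1/8)) := convex_Ioo _ _
    have hdiff : Differentiable ℝ R := hR.differentiable (by simp)
    have hz : ∀ s ∈ Set.Ioo (-(1/8) : ℝ) (1/8), fderivWithin ℝ R (Set.Ioo (-(1/8) : ℝ) (1/8)) s = 0 := by
      intro s hs
      rw [fderivWithin_of_isOpen isOpen_Ioo hs]
      ext
      have := hcon s (abs_lt.mpr ⟨hs.1, hs.2⟩)
      simpa using this
    have := hconv.is_const_of_fderivWithin_eq_zero hdiff.differentiableOn hz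
      (x := s0) (y := 1/9) (by constructor <;> [exact (by linarith [(abs_lt.mp hs0').1]); exact (by linarith [(abs_lt.mp hs0').2])])
      (by constructor <;> norm_num)
    rw [this]
    exact hR0 _ (by rw [abs_of_pos] <;> norm_num)
  obtain ⟨s, hs, hRs⟩ := hR'
  have hRd : HasDerivAt R (deriv R s) s := (hR.differentiable (by simp) s).hasDerivAt
  -- first arm
  have hz : HasDerivAt (fun u : ℝ => (1/6 + u : ℝ)) 1 s := by
    simpa using (hasDerivAt_id' s).const_add (1/6 : ℝ)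
  have hz0 : HasDerivAt (fun u : ℝ => (-1/12 + u : ℝ)) 1 0 := by
    simpa using (hasDerivAt_id' (0:ℝ)).const_add (-1/12 : ℝ)
  have habs : |(0:ℝ)| < 1/100 := by norm_num
  have hsev : ∀ᶠ u in 𝓝 s, |u| < 1/8 := continuous_abs.continuousAt.eventually_lt_const hs
  have htev : ∀ᶠ u in 𝓝 (0:ℝ), |u| < 1/100 :=
    continuous_abs.continuousAt.eventually_lt_const habs
  have hA1 : fderiv ℝ Lam (1/6 + s, -1/12 + 0) (1,0) = deriv R s := by
    have hc : HasDerivAt (fun u : ℝ => ((1/6 + u, -1/12 + 0) : ℝ × ℝ)) (1,0) s :=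
      hz.prodMk (hasDerivAt_const s _)
    have h1 := HasFDerivAt.comp_hasDerivAt s (hL _).hasFDerivAt hc
    have h2 : HasDerivAt (Lam ∘ (fun u : ℝ => ((1/6 + u, -1/12 + 0) : ℝ × ℝ))) (deriv R s) s := by
      refine HasDerivAt.congr_of_eventuallyEq (hRd.const_add (1/3)) ?_
      filter_upwards [hsev] with u hu
      exact ha1 u 0 hu habs
    exact h1.unique h2
  have hA2 : fderiv ℝ Lam (1/6 + s, -1/12 + 0) (0,1) = 0 := by
    have hc : HasDerivAt (fun u : ℝ => ((1/6 + s, -1/12 + u) : ℝ × ℝ)) (0,1) 0 :=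
      (hasDerivAt_const (0:ℝ) _).prodMk hz0
    have h1 := HasFDerivAt.comp_hasDerivAt (0:ℝ) (hL _).hasFDerivAt hc
    have h2 : HasDerivAt (Lam ∘ (fun u : ℝ => ((1/6 + s, -1/12 + u) : ℝ × ℝ))) 0 0 := by
      refine HasDerivAt.congr_of_eventuallyEq (hasDerivAt_const (0:ℝ) (1/3 + R s)) ?_
      filter_upwards [htev] with u hu
      exact ha1 s u hs hu
    exact h1.unique h2
  have hB1 : fderiv ℝ Lam (-1/12 + 0, 1/6 + s) (0,1) = deriv R s := by
    have hc : HasDerivAt (fun u : ℝ => ((-1/12 + 0, 1/6 + u) : ℝ × ℝ)) (0,1) s :=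
      (hasDerivAt_const s _).prodMk hz
    have h1 := HasFDerivAt.comp_hasDerivAt s (hL _).hasFDerivAt hc
    have h2 : HasDerivAt (Lam ∘ (fun u : ℝ => ((-1/12 + 0, 1/6 + u) : ℝ × ℝ))) (deriv R s) s := by
      refine HasDerivAt.congr_of_eventuallyEq (hRd.const_add (1/3)) ?_
      filter_upwards [hsev] with u hu
      exact ha2 u 0 hu habs
    exact h1.unique h2
  have hB2 : fderiv ℝ Lam (-1/12 + 0, 1/6 + s) (1,0) = 0 := by
    have hc : HasDerivAt (fun u : ℝ => ((-1/12 + u, 1/6 + s) : ℝ × ℝ)) (1,0) 0 :=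
      hz0.prodMk (hasDerivAt_const (0:ℝ) _)
    have h1 := HasFDerivAt.comp_hasDerivAt (0:ℝ) (hL _).hasFDerivAt hc
    have h2 : HasDerivAt (Lam ∘ (fun u : ℝ => ((-1/12 + u, 1/6 + s) : ℝ × ℝ))) 0 0 := by
      refine HasDerivAt.congr_of_eventuallyEq (hasDerivAt_const (0:ℝ) (1/3 + R s)) ?_
      filter_upwards [htev] with u hu
      exact ha2 s u hs hu
    exact h1.unique h2
  have g1 := hgrad ![1/6 + s, -1/12 + 0]
  have g2 := hgrad ![-1/12 + 0, 1/6 + s]
  simp only [Matrix.cons_val_zero, Matrix.cons_val_one] at g1 g2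
  rw [hA1, hA2] at g1
  rw [hB1, hB2] at g2
  have v0 : V 0 0 = 0 := by
    have : V 0 0 * deriv R s = 0 := by linarith
    rcases mul_eq_zero.mp this with h | h
    · exact h
    · exact absurd h hRs
  have v1 : V 0 1 = 0 := by
    have : V 0 1 * deriv R s = 0 := by linarith
    rcases mul_eq_zero.mp this with h | h
    · exact h
    · exact absurd h hRs
  obtain ⟨x, hx⟩ := hne
  apply hx
  rw [hVc x 0]
  ext k
  fin_cases k
  · simpa using v0
  · simpa using v1

end Cub
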