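import Mathlib
import Pool.Agent.Lib.MP_582a01_gt.Defs
import Pool.Agent.Lib.MP_582a01_gt.Killing

/-!
# MP_582a01_gt : periodic solutions of the Cauchy-Riemann equations in lattice coordinates
-/

set_option autoImplicit false
open scoped ContDiff Topology
open Filter

namespace Cub

open KillingAux

theorem differentiable_cfn_of_cr {V : (Fin 2 → ℝ) → Fin 2 → ℝ}
    (hV : ∀ k, ContDiff ℝ ∞ (fun x => V x k))
    (hc1 : ∀ x, fderiv ℝ (fun y => V y 0) x (Pi.single 1 1)
      = - fderiv ℝ (fun y => V y 1) x (Pi.single 0 1))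
    (hc2 : ∀ x, fderiv ℝ (fun y => V y 1) x (Pi.single 1 1)
      = fderiv ℝ (fun y => V y 0) x (Pi.single 0 1)
        + fderiv ℝ (fun y => V y 1) x (Pi.single 0 1)) :
    Differentiable ℂ (cfn V) := by
  intro z
  rw [differentiableAt_complex_iff_differentiableAt_real]
  have h := hasFDerivAt_cfn hV z
  refine ⟨h.differentiableAt, ?_⟩
  rw [h.fderiv]
  have h1 := hc1 (co z)
  have h2 := hc2 (co z)
  have e1 : ((Complex.ofRealCLM ∘L ((fderiv ℝ (fun y => V y 0) (co z)) ∘L coL))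
        + w • (Complex.ofRealCLM ∘L ((fderiv ℝ (fun y => V y 1) (co z)) ∘L coL))) Complex.I
      = ((fderiv ℝ (fun y => V y 0) (co z) (coL Complex.I) : ℝ) : ℂ)
        + w * ((fderiv ℝ (fun y => V y 1) (co z) (coL Complex.I) : ℝ) : ℂ) := by
    simp
  have e2 : ((Complex.ofRealCLM ∘L ((fderiv ℝ (fun y => V y 0) (co z)) ∘L coL))
        + w • (Complex.ofRealCLM ∘L ((fderiv ℝ (fun y => V y 1) (co z)) ∘L coL))) 1
      = ((fderiv ℝ (fun y => V y 0) (co z) (coL 1) : ℝ) : ℂ)
        + w * ((fderiv ℝ (fun y => V y 1) (co z) (coL 1) : ℝ) : ℂ) := by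
    simp
  rw [e1, e2, coL_one, coL_I]
  simp only [map_add, map_smul, smul_eq_mul]
  rw [h1, h2]
  set a := fderiv ℝ (fun y => V y 0) (co z) (Pi.single 0 1)
  set b := fderiv ℝ (fun y => V y 1) (co z) (Pi.single 0 1)
  have h3' : √3 ≠ 0 := by positivity
  have h3c : ((√3 : ℝ) : ℂ) ≠ 0 := by exact_mod_cast h3'
  have hI := I_sqrt
  have hI' : Complex.I = (2 * w - 1) / ((√3 : ℝ) : ℂ) := by
    rw [← hI]; field_simp
  rw [hI']
  push_cast
  field_simp
  have hw := w_sq
  linear_combination (-2 * (b:ℂ)) * hw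

/-- Liouville theorem for periodic vector fields satisfying the Cauchy-Riemann equations of the
hexagonal lattice. -/
theorem const_of_cr {V : (Fin 2 → ℝ) → Fin 2 → ℝ}
    (hV : ∀ k, ContDiff ℝ ∞ (fun x => V x k))
    (hper : ∀ (x : Fin 2 → ℝ) (v : Fin 2 → ℤ), V (x + (fun k => (v k : ℝ))) = V x)
    (hc1 : ∀ x, fderiv ℝ (fun y => V y 0) x (Pi.single 1 1)
      = - fderiv ℝ (fun y => V y 1) x (Pi.single 0 1))
    (hc2 : ∀ x, fderiv ℝ (fun y => V y 1) x (Pi.single 1 1)
      = fderiv ℝ (fun y => V y 0) x (Pi.single 0 1)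
        + fderiv ℝ (fun y => V y 1) x (Pi.single 0 1)) :
    ∀ x y, V x = V y := by
  have hd := differentiable_cfn_of_cr hV hc1 hc2
  obtain ⟨C0, hC0⟩ := bounded_of_periodic (hV 0).continuous (fun x v => by rw [hper])
  obtain ⟨C1, hC1⟩ := bounded_of_periodic (hV 1).continuous (fun x v => by rw [hper])
  have hb : Bornology.IsBounded (Set.range (cfn V)) := by
    rw [isBounded_iff_forall_norm_le]
    refine ⟨C0 + ‖w‖ * C1, ?_⟩
    rintro _ ⟨z, rfl⟩
    unfold cfn
    refine (norm_add_le _ _).trans ?_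
    rw [norm_mul, Complex.norm_real, Complex.norm_real, Real.norm_eq_abs, Real.norm_eq_abs]
    exact add_le_add (hC0 _) (mul_le_mul_of_nonneg_left (hC1 _) (norm_nonneg _))
  have hconst : ∀ z z', cfn V z = cfn V z' := fun z z' => hd.apply_eq_apply_of_bounded hb z z'
  intro x y
  obtain ⟨z, rfl⟩ := co_surj x
  obtain ⟨z', rfl⟩ := co_surj y
  have e := hconst z z'
  unfold cfn w at e
  have e1 := congrArg Complex.im e
  have e0 := congrArg Complex.re e
  simp at e0 e1
  rw [e1] at e0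
  ext k
  fin_cases k
  · simpa using e0
  · simpa using e1

end Cub
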