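import Mathlib
import Pool.Agent.Lib.MP_582a01_gt.Defs
import Pool.Agent.Lib.MP_582a01_gt.Liouville

/-!
# MP_582a01_gt : there is no non-trivial quadratic integral
-/

set_option autoImplicit false
open scoped ContDiff Topology
open Filter

namespace Cub

/-- the four coefficient equations of `{K,H}=0` for `K = a p₀² + b p₀p₁ + c p₁²` -/
theorem quad_coeffs {a b c a0 a1 b0 b1 c0 c1 L L0 L1 : ℝ}
    (h : ∀ p q : ℝ,
      (a0 * p^2 + b0 * (p*q) + c0 * q^2) * (2*p - q) + (a1 * p^2 + b1 * (p*q) + c1 * q^2) * (2*q - p)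
        + (p^2 - p*q + q^2) / L * ((2*a*p + b*q) * L0 + (b*p + 2*c*q) * L1) = 0) :
    2*a0 - a1 + (2*a*L0 + b*L1)/L = 0 ∧ -c0 + 2*c1 + (b*L0 + 2*c*L1)/L = 0 ∧
    (a1 + b1) = (a0 + b0) - (b0 + c0) ∧ (b1 + c1) = (a0 + b0) := by
  have h1 := h 1 0
  have h2 := h 0 1
  have h3 := h 1 1
  have h4 := h 1 (-1)
  refine ⟨?_, ?_, ?_, ?_⟩
  · linear_combination h1
  · linear_combination h2
  · linear_combination (1/2 : ℝ) * h3 + (1/6 : ℝ) * h4 - h1
  · linear_combination (1/3 : ℝ) * h4 + h2 - h1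

private noncomputable def eL : (Fin 2 → ℝ) →L[ℝ] ℝ × ℝ :=
  (ContinuousLinearMap.proj 0).prod (ContinuousLinearMap.proj 1)

private theorem eL_apply (x : Fin 2 → ℝ) : eL x = (x 0, x 1) := rfl

private theorem eL_zero : eL (Pi.single 0 (1 : ℝ)) = (1, 0) := by
  rw [eL_apply]; simp

private theorem eL_one : eL (Pi.single 1 (1 : ℝ)) = (0, 1) := by
  rw [eL_apply]; simp

private theorem comp_hasFDerivAt {f : ℝ × ℝ → ℝ} (hf : Differentiable ℝ f) (x : Fin 2 → ℝ) :
    HasFDerivAt (fun y : Fin 2 → ℝ => f (y 0, y 1))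
      ((fderiv ℝ f (x 0, x 1)).comp eL) x := by
  have h1 : HasFDerivAt f (fderiv ℝ f (x 0, x 1)) (eL x) := (hf (x 0, x 1)).hasFDerivAt
  exact h1.comp x eL.hasFDerivAt

/-- The bracket of a quadratic form with the energy. -/
theorem quad_bracket {Lam : ℝ × ℝ → ℝ} (hpos : ∀ z, 0 < Lam z) (hdL : Differentiable ℝ Lam)
    {k : Fin 2 → Fin 2 → (Fin 2 → ℝ) → ℝ} (hk : ∀ i j, Differentiable ℝ (k i j))
    (x p : Fin 2 → ℝ)
    (hK : ∑ l : Fin 2,
      (fderiv ℝ (fun y => ∑ i : Fin 2, ∑ j : Fin 2, k i j y * p i * p j) x (Pi.single l (1 : ℝ))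
          * fderiv ℝ (fun q : Fin 2 → ℝ => N2 q / (2 * Lam (x 0, x 1))) p (Pi.single l (1 : ℝ))
        - fderiv ℝ (fun q : Fin 2 → ℝ => ∑ i : Fin 2, ∑ j : Fin 2, k i j x * q i * q j) p
            (Pi.single l (1 : ℝ))
          * fderiv ℝ (fun y : Fin 2 → ℝ => N2 p / (2 * Lam (y 0, y 1))) x
              (Pi.single l (1 : ℝ))) = 0) :
    (fderiv ℝ (k 0 0) x (Pi.single 0 1) * p 0 ^ 2
        + (fderiv ℝ (k 0 1) x (Pi.single 0 1) + fderiv ℝ (k 1 0) x (Pi.single 0 1)) * (p 0 * p 1)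
        + fderiv ℝ (k 1 1) x (Pi.single 0 1) * p 1 ^ 2) * (2 * p 0 - p 1)
      + (fderiv ℝ (k 0 0) x (Pi.single 1 1) * p 0 ^ 2
        + (fderiv ℝ (k 0 1) x (Pi.single 1 1) + fderiv ℝ (k 1 0) x (Pi.single 1 1)) * (p 0 * p 1)
        + fderiv ℝ (k 1 1) x (Pi.single 1 1) * p 1 ^ 2) * (2 * p 1 - p 0)
      + (p 0 ^ 2 - p 0 * p 1 + p 1 ^ 2) / Lam (x 0, x 1)
        * ((2 * k 0 0 x * p 0 + (k 0 1 x + k 1 0 x) * p 1) * fderiv ℝ Lam (x 0, x 1) (1,0)
          + ((k 0 1 x + k 1 0 x) * p 0 + 2 * k 1 1 x * p 1) * fderiv ℝ Lam (x 0, x 1) (0,1)) = 0 := by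
  have hL0 : Lam (x 0, x 1) ≠ 0 := (hpos _).ne'
  have hL := comp_hasFDerivAt hdL x
  have hinv : HasFDerivAt (fun y : Fin 2 → ℝ => (Lam (y 0, y 1))⁻¹)
      (-((Lam (x 0, x 1)) ^ 2)⁻¹ • ((fderiv ℝ Lam (x 0, x 1)).comp eL)) x := by
    have h1 := (hasDerivAt_inv hL0).comp_hasFDerivAt x hL
    exact h1
  have hHx : HasFDerivAt (fun y : Fin 2 → ℝ => N2 p / (2 * Lam (y 0, y 1)))
      ((N2 p / 2) • (-((Lam (x 0, x 1)) ^ 2)⁻¹ • ((fderiv ℝ Lam (x 0, x 1)).comp eL))) x := by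
    refine (hinv.const_mul (N2 p / 2)).congr_of_eventuallyEq
      (Filter.Eventually.of_forall fun y => ?_)
    have := (hpos (y 0, y 1)).ne'
    field_simp
  have h0 : HasFDerivAt (fun q : Fin 2 → ℝ => q 0)
      (ContinuousLinearMap.proj (R := ℝ) (φ := fun _ : Fin 2 => ℝ) 0) p :=
    hasFDerivAt_apply 0 p
  have h1 : HasFDerivAt (fun q : Fin 2 → ℝ => q 1)
      (ContinuousLinearMap.proj (R := ℝ) (φ := fun _ : Fin 2 => ℝ) 1) p :=
    hasFDerivAt_apply 1 p
  have hN : HasFDerivAt (fun q : Fin 2 → ℝ => N2 q)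
      ((2 * p 0 - p 1) • (ContinuousLinearMap.proj (R := ℝ) (φ := fun _ : Fin 2 => ℝ) 0)
        + (2 * p 1 - p 0) • (ContinuousLinearMap.proj (R := ℝ) (φ := fun _ : Fin 2 => ℝ) 1)) p := by
    have h2 := ((h0.mul h0).sub (h0.mul h1)).add (h1.mul h1)
    refine (h2.congr_of_eventuallyEq (Filter.Eventually.of_forall fun y => ?_)).congr_fderiv ?_
    · simp only [N2, Pi.add_apply, Pi.mul_apply, Pi.sub_apply]
      ring
    · ext v
      simp
      ring
  have hHp : HasFDerivAt (fun q : Fin 2 → ℝ => N2 q / (2 * Lam (x 0, x 1)))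
      ((2 * Lam (x 0, x 1))⁻¹ •
        ((2 * p 0 - p 1) • (ContinuousLinearMap.proj (R := ℝ) (φ := fun _ : Fin 2 => ℝ) 0)
        + (2 * p 1 - p 0) • (ContinuousLinearMap.proj (R := ℝ) (φ := fun _ : Fin 2 => ℝ) 1))) p := by
    refine (hN.const_mul (2 * Lam (x 0, x 1))⁻¹).congr_of_eventuallyEq
      (Filter.Eventually.of_forall fun y => ?_)
    simp only
    ring
  have hKx : HasFDerivAt (fun y => ∑ i : Fin 2, ∑ j : Fin 2, k i j y * p i * p j)
      ((p 0 ^ 2) • fderiv ℝ (k 0 0) x + (p 0 * p 1) • (fderiv ℝ (k 0 1) x + fderiv ℝ (k 1 0) x)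
        + (p 1 ^ 2) • fderiv ℝ (k 1 1) x) x := by
    have h00 := ((hk 0 0 x).hasFDerivAt).const_mul (p 0 ^ 2)
    have h01 := ((hk 0 1 x).hasFDerivAt).const_mul (p 0 * p 1)
    have h10 := ((hk 1 0 x).hasFDerivAt).const_mul (p 0 * p 1)
    have h11 := ((hk 1 1 x).hasFDerivAt).const_mul (p 1 ^ 2)
    have h2 := ((h00.add h01).add h10).add h11
    refine (h2.congr_of_eventuallyEq (Filter.Eventually.of_forall fun y => ?_)).congr_fderiv ?_
    · simp only [Fin.sum_univ_two, Pi.add_apply]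
      ring
    · rw [smul_add]; abel
  have hKp : HasFDerivAt (fun q : Fin 2 → ℝ => ∑ i : Fin 2, ∑ j : Fin 2, k i j x * q i * q j)
      ((2 * k 0 0 x * p 0 + (k 0 1 x + k 1 0 x) * p 1) •
          (ContinuousLinearMap.proj (R := ℝ) (φ := fun _ : Fin 2 => ℝ) 0)
        + ((k 0 1 x + k 1 0 x) * p 0 + 2 * k 1 1 x * p 1) •
          (ContinuousLinearMap.proj (R := ℝ) (φ := fun _ : Fin 2 => ℝ) 1)) p := by
    have h2 := (((h0.mul h0).const_mul (k 0 0 x)).add
      ((h0.mul h1).const_mul (k 0 1 x + k 1 0 x))).add ((h1.mul h1).const_mul (k 1 1 x))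
    refine (h2.congr_of_eventuallyEq (Filter.Eventually.of_forall fun y => ?_)).congr_fderiv ?_
    · simp only [Fin.sum_univ_two, Pi.add_apply, Pi.mul_apply]
      ring
    · ext v
      simp
      ring
  rw [hKx.fderiv, hHx.fderiv, hHp.fderiv, hKp.fderiv] at hK
  simp only [Fin.sum_univ_two, smul_apply, add_apply,
    ContinuousLinearMap.comp_apply, eL_zero, eL_one, smul_eq_mul, ContinuousLinearMap.proj_apply,
    Pi.single_eq_same] at hK
  have s01 : (Pi.single (0 : Fin 2) (1 : ℝ) : Fin 2 → ℝ) 1 = 0 := by simp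
  have s10 : (Pi.single (1 : Fin 2) (1 : ℝ) : Fin 2 → ℝ) 0 = 0 := by simp
  rw [s01, s10] at hK
  generalize fderiv ℝ Lam (x 0, x 1) (1, 0) = L1 at *
  generalize fderiv ℝ Lam (x 0, x 1) (0, 1) = L2 at *
  generalize Lam (x 0, x 1) = L at *
  simp only [N2] at hK
  have h3 := congrArg (fun t => 2 * L * t) hK
  simp only [mul_zero] at h3
  rw [← h3]
  field_simp
  ring

private theorem path0 {f : (Fin 2 → ℝ) → ℝ} (hf : Differentiable ℝ f) (α β s : ℝ) :
    HasDerivAt (fun s => f ![α + s, β]) (fderiv ℝ f ![α + s, β] (Pi.single 0 1)) s := by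
  have h1 : HasDerivAt (fun s : ℝ => (![α + s, β] : Fin 2 → ℝ)) (Pi.single 0 1) s := by
    rw [hasDerivAt_pi]
    intro i
    fin_cases i
    · simpa using (hasDerivAt_id' s).const_add α
    · simpa using hasDerivAt_const s β
  exact HasFDerivAt.comp_hasDerivAt s (hf _).hasFDerivAt h1

private theorem path1 {f : (Fin 2 → ℝ) → ℝ} (hf : Differentiable ℝ f) (α β t : ℝ) :
    HasDerivAt (fun t => f ![α, β + t]) (fderiv ℝ f ![α, β + t] (Pi.single 1 1)) t := by
  have h1 : HasDerivAt (fun t : ℝ => (![α, β + t] : Fin 2 → ℝ)) (Pi.single 1 1) t := by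
    rw [hasDerivAt_pi]
    intro i
    fin_cases i
    · simpa using hasDerivAt_const t α
    · simpa using (hasDerivAt_id' t).const_add β
  exact HasFDerivAt.comp_hasDerivAt t (hf _).hasFDerivAt h1

/-- derivative of a function which vanishes on an interval -/
private theorem const_on {g : ℝ → ℝ} {r : ℝ} (hg : ∀ s, |s| < r → HasDerivAt g 0 s)
    {s s' : ℝ} (hs : |s| < r) (hs' : |s'| < r) : g s = g s' := by
  have hconv : Convex ℝ (Set.Ioo (-r) r) := convex_Ioo _ _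
  have hd : DifferentiableOn ℝ g (Set.Ioo (-r) r) := fun x hx =>
    (hg x (abs_lt.mpr ⟨hx.1, hx.2⟩)).differentiableAt.differentiableWithinAt
  have hz : ∀ x ∈ Set.Ioo (-r) r, fderivWithin ℝ g (Set.Ioo (-r) r) x = 0 := by
    intro x hx
    rw [fderivWithin_of_isOpen isOpen_Ioo hx]
    have h1 := (hg x (abs_lt.mpr ⟨hx.1, hx.2⟩)).hasFDerivAt.fderiv
    rw [h1]
    ext
    simp
  exact hconv.is_const_of_fderivWithin_eq_zero hd hz (abs_lt.mp hs) (abs_lt.mp hs')

/-- If `φ₀ = (4/3) u R'`, `φ₁ = (2/3) u R'` on an arm then `u = 0`. -/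
private theorem arm_zero {ψ : ℝ → ℝ → ℝ} {R : ℝ → ℝ} {u κ1 κ2 s0 : ℝ} (hR : ContDiff ℝ ∞ R)
    (hs0 : R s0 ≠ 0) (hR0 : ∀ s, 1/10 ≤ |s| → R s = 0) (hκ : κ2 ≠ 0)
    (h1 : ∀ s t, |s| < 1/8 → |t| < 1/100 → HasDerivAt (fun s => ψ s t) (κ1 * u * deriv R s) s)
    (h2 : ∀ s t, |s| < 1/8 → |t| < 1/100 → HasDerivAt (fun t => ψ s t) (κ2 * u * deriv R s) t) :
    u = 0 := by
  have hdR : Differentiable ℝ R := hR.differentiable (by simp)
  have hR' : ∃ s, |s| < 1/8 ∧ deriv R s ≠ 0 := by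
    by_contra hcon
    push Not at hcon
    apply hs0
    have hs0' : |s0| < 1/10 := by
      by_contra hlt
      exact hs0 (hR0 s0 (not_lt.mp hlt))
    have h := const_on (g := R) (r := 1/8) (fun s hs => by
      have := (hdR s).hasDerivAt
      rwa [hcon s hs] at this) (s := s0) (s' := 1/9) (by linarith)
      (by rw [abs_of_pos] <;> norm_num)
    rw [h]
    exact hR0 _ (by rw [abs_of_pos] <;> norm_num)
  obtain ⟨s, hs, hRs⟩ := hR'
  have hd9 : deriv R (1/9) = 0 := by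
    have : R =ᶠ[𝓝 (1/9 : ℝ)] fun _ => 0 := by
      have hev : ∀ᶠ x in 𝓝 (1/9 : ℝ), 1/10 < x := lt_mem_nhds (by norm_num)
      filter_upwards [hev] with x hx
      exact hR0 x (by rw [abs_of_pos (by linarith)]; exact hx.le)
    rw [this.deriv_eq]
    simp
  have ht : |(1/200 : ℝ)| < 1/100 := by rw [abs_of_pos] <;> norm_num
  have ht0 : |(0 : ℝ)| < 1/100 := by norm_num
  have key : ∀ s, |s| < 1/8 → ψ s (1/200) - ψ s 0 = κ2 * u * deriv R s * (1/200) := by
    intro s hs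
    have h := const_on (g := fun t => ψ s t - κ2 * u * deriv R s * t) (r := 1/100) (fun t htt => by
      have e1 := h2 s t hs htt
      have e2 := (hasDerivAt_id' t).const_mul (κ2 * u * deriv R s)
      have e3 := e1.sub e2
      rwa [mul_one, sub_self] at e3) (s := 1/200) (s' := 0) ht ht0
    simp only [mul_zero, sub_zero] at h
    linarith
  have key2 : ψ s (1/200) - ψ s 0 = ψ (1/9) (1/200) - ψ (1/9) 0 := by
    refine const_on (g := fun s => ψ s (1/200) - ψ s 0) (r := 1/8) (fun s hs => ?_) hs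
      (by rw [abs_of_pos] <;> norm_num)
    have e3 := (h1 s (1/200) hs ht).sub (h1 s 0 hs ht0)
    rwa [sub_self] at e3
  rw [key s hs, key (1/9) (by rw [abs_of_pos] <;> norm_num), hd9] at key2
  have : κ2 * u * deriv R s = 0 := by linarith
  rcases mul_eq_zero.mp this with h | h
  · rcases mul_eq_zero.mp h with h | h
    · exact absurd h hκ
    · exact h
  · exact absurd h hRs

/-- Every homogeneous quadratic integral is a constant multiple of the energy. -/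
theorem no_quadratic {Lam A B : ℝ × ℝ → ℝ} (h : Global Lam A B)
    {k : Fin 2 → Fin 2 → (Fin 2 → ℝ) → ℝ} (hk : ∀ i j, ContDiff ℝ ∞ (k i j))
    (hkp : ∀ i j (x : Fin 2 → ℝ) (v : Fin 2 → ℤ), k i j (x + (fun l => (v l : ℝ))) = k i j x)
    (hK : ∀ x p : Fin 2 → ℝ, ∑ l : Fin 2,
      (fderiv ℝ (fun y => ∑ i : Fin 2, ∑ j : Fin 2, k i j y * p i * p j) x (Pi.single l (1 : ℝ))
          * fderiv ℝ (fun q : Fin 2 → ℝ => N2 q / (2 * Lam (x 0, x 1))) p (Pi.single l (1 : ℝ))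
        - fderiv ℝ (fun q : Fin 2 → ℝ => ∑ i : Fin 2, ∑ j : Fin 2, k i j x * q i * q j) p
            (Pi.single l (1 : ℝ))
          * fderiv ℝ (fun y : Fin 2 → ℝ => N2 p / (2 * Lam (y 0, y 1))) x
              (Pi.single l (1 : ℝ))) = 0) :
    ∃ c : ℝ, ∀ x p : Fin 2 → ℝ, ∑ i : Fin 2, ∑ j : Fin 2, k i j x * p i * p j
      = c * (N2 p / (2 * Lam (x 0, x 1))) := by
  have hdL : Differentiable ℝ Lam := h.smoothL.differentiable (by simp)
  have hkd : ∀ i j, Differentiable ℝ (k i j) := fun i j => (hk i j).differentiable (by simp)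
  -- the functions b and phi
  set b : (Fin 2 → ℝ) → ℝ := fun x => k 0 1 x + k 1 0 x with hb
  have hbs : ContDiff ℝ ∞ b := (hk 0 1).add (hk 1 0)
  have hbd : Differentiable ℝ b := hbs.differentiable (by simp)
  have hfb : ∀ x v, fderiv ℝ b x v = fderiv ℝ (k 0 1) x v + fderiv ℝ (k 1 0) x v := by
    intro x v
    have := ((hkd 0 1 x).hasFDerivAt.add (hkd 1 0 x).hasFDerivAt).fderiv
    have e : fderiv ℝ b x = fderiv ℝ (k 0 1) x + fderiv ℝ (k 1 0) x := this
    rw [e]; rfl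
  have hco : ∀ x : Fin 2 → ℝ,
      2 * fderiv ℝ (k 0 0) x (Pi.single 0 1) - fderiv ℝ (k 0 0) x (Pi.single 1 1)
        + (2 * k 0 0 x * fderiv ℝ Lam (x 0, x 1) (1,0) + b x * fderiv ℝ Lam (x 0, x 1) (0,1))
          / Lam (x 0, x 1) = 0 ∧
      -fderiv ℝ (k 1 1) x (Pi.single 0 1) + 2 * fderiv ℝ (k 1 1) x (Pi.single 1 1)
        + (b x * fderiv ℝ Lam (x 0, x 1) (1,0) + 2 * k 1 1 x * fderiv ℝ Lam (x 0, x 1) (0,1))
          / Lam (x 0, x 1) = 0 ∧
      (fderiv ℝ (k 0 0) x (Pi.single 1 1) + fderiv ℝ b x (Pi.single 1 1))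
        = (fderiv ℝ (k 0 0) x (Pi.single 0 1) + fderiv ℝ b x (Pi.single 0 1))
          - (fderiv ℝ b x (Pi.single 0 1) + fderiv ℝ (k 1 1) x (Pi.single 0 1)) ∧
      (fderiv ℝ b x (Pi.single 1 1) + fderiv ℝ (k 1 1) x (Pi.single 1 1))
        = (fderiv ℝ (k 0 0) x (Pi.single 0 1) + fderiv ℝ b x (Pi.single 0 1)) := by
    intro x
    refine quad_coeffs (fun p q => ?_)
    have e := quad_bracket h.pos hdL hkd x ![p, q] (hK x ![p, q])
    simp only [Matrix.cons_val_zero, Matrix.cons_val_one] at e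
    rw [hfb, hfb]
    exact e
  -- u = a + b and v = b + c are constant
  have hcr := const_of_cr (V := fun x => ![k 0 0 x + b x, (b x + k 1 1 x) - (k 0 0 x + b x)])
    (by
      intro i
      fin_cases i
      · exact (hk 0 0).add hbs
      · exact (hbs.add (hk 1 1)).sub ((hk 0 0).add hbs))
    (by
      intro x v
      simp only [hb, hkp])
    (by
      intro x
      have e0 := ((hkd 0 0 x).hasFDerivAt.add (hbd x).hasFDerivAt).fderiv
      have e1 := (((hbd x).hasFDerivAt.add (hkd 1 1 x).hasFDerivAt).sub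
        ((hkd 0 0 x).hasFDerivAt.add (hbd x).hasFDerivAt)).fderiv
      have f0 : fderiv ℝ (fun y => (![k 0 0 y + b y, (b y + k 1 1 y) - (k 0 0 y + b y)]
          : Fin 2 → ℝ) 0) x = fderiv ℝ (k 0 0) x + fderiv ℝ b x := e0
      have f1 : fderiv ℝ (fun y => (![k 0 0 y + b y, (b y + k 1 1 y) - (k 0 0 y + b y)]
          : Fin 2 → ℝ) 1) x = fderiv ℝ b x + fderiv ℝ (k 1 1) x
            - (fderiv ℝ (k 0 0) x + fderiv ℝ b x) := e1
      rw [f0, f1]
      obtain ⟨-, -, h3, h4⟩ := hco x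
      simp only [add_apply, sub_apply]
      linarith)
    (by
      intro x
      have e0 := ((hkd 0 0 x).hasFDerivAt.add (hbd x).hasFDerivAt).fderiv
      have e1 := (((hbd x).hasFDerivAt.add (hkd 1 1 x).hasFDerivAt).sub
        ((hkd 0 0 x).hasFDerivAt.add (hbd x).hasFDerivAt)).fderiv
      have f0 : fderiv ℝ (fun y => (![k 0 0 y + b y, (b y + k 1 1 y) - (k 0 0 y + b y)]
          : Fin 2 → ℝ) 0) x = fderiv ℝ (k 0 0) x + fderiv ℝ b x := e0
      have f1 : fderiv ℝ (fun y => (![k 0 0 y + b y, (b y + k 1 1 y) - (k 0 0 y + b y)]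
          : Fin 2 → ℝ) 1) x = fderiv ℝ b x + fderiv ℝ (k 1 1) x
            - (fderiv ℝ (k 0 0) x + fderiv ℝ b x) := e1
      rw [f0, f1]
      obtain ⟨-, -, h3, h4⟩ := hco x
      simp only [add_apply, sub_apply]
      linarith)
  set u : ℝ := k 0 0 0 + b 0 with hu
  set v : ℝ := b 0 + k 1 1 0 with hv
  have hau : ∀ x, k 0 0 x = u - b x := by
    intro x
    have := congrFun (hcr x 0) 0
    simp only [Matrix.cons_val_zero] at this
    linarith
  have hcv : ∀ x, k 1 1 x = v - b x := by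
    intro x
    have h1 := congrFun (hcr x 0) 1
    have h0 := congrFun (hcr x 0) 0
    simp only [Matrix.cons_val_zero, Matrix.cons_val_one] at h0 h1
    linarith
  have hfa : ∀ x w, fderiv ℝ (k 0 0) x w = - fderiv ℝ b x w := by
    intro x w
    have e : k 0 0 = fun x => u - b x := funext hau
    have := ((hbd x).hasFDerivAt.const_sub u).fderiv
    rw [e, this]; rfl
  have hfc : ∀ x w, fderiv ℝ (k 1 1) x w = - fderiv ℝ b x w := by
    intro x w
    have e : k 1 1 = fun x => v - b x := funext hcv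
    have := ((hbd x).hasFDerivAt.const_sub v).fderiv
    rw [e, this]; rfl
  -- phi = Lam * b
  set φ : (Fin 2 → ℝ) → ℝ := fun x => Lam (x 0, x 1) * b x with hφ
  have hφd : ∀ x, HasFDerivAt φ (Lam (x 0, x 1) • fderiv ℝ b x
      + b x • ((fderiv ℝ Lam (x 0, x 1)).comp eL)) x := fun x =>
    (comp_hasFDerivAt hdL x).mul (hbd x).hasFDerivAt
  have hφdiff : Differentiable ℝ φ := fun x => (hφd x).differentiableAt
  have hφ0 : ∀ x, fderiv ℝ φ x (Pi.single 0 1)
      = Lam (x 0, x 1) * fderiv ℝ b x (Pi.single 0 1) + b x * fderiv ℝ Lam (x 0, x 1) (1,0) := by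
    intro x
    rw [(hφd x).fderiv]
    simp only [add_apply, smul_apply, ContinuousLinearMap.comp_apply, eL_zero, smul_eq_mul]
  have hφ1 : ∀ x, fderiv ℝ φ x (Pi.single 1 1)
      = Lam (x 0, x 1) * fderiv ℝ b x (Pi.single 1 1) + b x * fderiv ℝ Lam (x 0, x 1) (0,1) := by
    intro x
    rw [(hφd x).fderiv]
    simp only [add_apply, smul_apply, ContinuousLinearMap.comp_apply, eL_one, smul_eq_mul]
  have hgr : ∀ x, fderiv ℝ φ x (Pi.single 0 1)
        = (4/3) * u * fderiv ℝ Lam (x 0, x 1) (1,0) + (2/3) * v * fderiv ℝ Lam (x 0, x 1) (0,1) ∧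
      fderiv ℝ φ x (Pi.single 1 1)
        = (2/3) * u * fderiv ℝ Lam (x 0, x 1) (1,0) + (4/3) * v * fderiv ℝ Lam (x 0, x 1) (0,1) := by
    intro x
    obtain ⟨h1, h2, -, -⟩ := hco x
    rw [hfa, hfa, hau] at h1
    rw [hfc, hfc, hcv] at h2
    have hne : Lam (x 0, x 1) ≠ 0 := (h.pos _).ne'
    rw [hφ0, hφ1]
    have g1 := congrArg (fun t => Lam (x 0, x 1) * t) h1
    have g2 := congrArg (fun t => Lam (x 0, x 1) * t) h2
    simp only [mul_zero, mul_add, mul_div_cancel₀ _ hne] at g1 g2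
    constructor
    · linear_combination (-2/3 : ℝ) * g1 + (-1/3 : ℝ) * g2
    · linear_combination (-1/3 : ℝ) * g1 + (-2/3 : ℝ) * g2
  obtain ⟨R, hR, ⟨s0, hs0⟩, hR0, ha1, ha2⟩ := h.arms
  have hRd : ∀ s, HasDerivAt R (deriv R s) s := fun s =>
    (hR.differentiable (by simp) s).hasDerivAt
  have hsev : ∀ s : ℝ, |s| < 1/8 → ∀ᶠ u in 𝓝 s, |u| < 1/8 := fun s hs =>
    continuous_abs.continuousAt.eventually_lt_const hs
  have htev : ∀ t : ℝ, |t| < 1/100 → ∀ᶠ u in 𝓝 t, |u| < 1/100 := fun t ht =>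
    continuous_abs.continuousAt.eventually_lt_const ht
  have hz : ∀ s : ℝ, HasDerivAt (fun u : ℝ => (1/6 + u : ℝ)) 1 s := fun s => by
    simpa using (hasDerivAt_id' s).const_add (1/6 : ℝ)
  have hz0 : ∀ t : ℝ, HasDerivAt (fun u : ℝ => (-1/12 + u : ℝ)) 1 t := fun t => by
    simpa using (hasDerivAt_id' t).const_add (-1/12 : ℝ)
  have hA1 : ∀ s t, |s| < 1/8 → |t| < 1/100 →
      fderiv ℝ Lam (1/6 + s, -1/12 + t) (1,0) = deriv R s := by
    intro s t hs ht
    have hc : HasDerivAt (fun u : ℝ => ((1/6 + u, -1/12 + t) : ℝ × ℝ)) (1,0) s :=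
      (hz s).prodMk (hasDerivAt_const s _)
    have h1 := HasFDerivAt.comp_hasDerivAt s (hdL _).hasFDerivAt hc
    have h2 : HasDerivAt (Lam ∘ (fun u : ℝ => ((1/6 + u, -1/12 + t) : ℝ × ℝ))) (deriv R s) s := by
      refine HasDerivAt.congr_of_eventuallyEq ((hRd s).const_add (1/3)) ?_
      filter_upwards [hsev s hs] with u hu
      exact ha1 u t hu ht
    exact h1.unique h2
  have hA2 : ∀ s t, |s| < 1/8 → |t| < 1/100 →
      fderiv ℝ Lam (1/6 + s, -1/12 + t) (0,1) = 0 := by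
    intro s t hs ht
    have hc : HasDerivAt (fun u : ℝ => ((1/6 + s, -1/12 + u) : ℝ × ℝ)) (0,1) t :=
      (hasDerivAt_const t _).prodMk (hz0 t)
    have h1 := HasFDerivAt.comp_hasDerivAt t (hdL _).hasFDerivAt hc
    have h2 : HasDerivAt (Lam ∘ (fun u : ℝ => ((1/6 + s, -1/12 + u) : ℝ × ℝ))) 0 t := by
      refine HasDerivAt.congr_of_eventuallyEq (hasDerivAt_const t (1/3 + R s)) ?_
      filter_upwards [htev t ht] with u hu
      exact ha1 s u hs hu
    exact h1.unique h2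
  have hB1 : ∀ s t, |s| < 1/8 → |t| < 1/100 →
      fderiv ℝ Lam (-1/12 + t, 1/6 + s) (0,1) = deriv R s := by
    intro s t hs ht
    have hc : HasDerivAt (fun u : ℝ => ((-1/12 + t, 1/6 + u) : ℝ × ℝ)) (0,1) s :=
      (hasDerivAt_const s _).prodMk (hz s)
    have h1 := HasFDerivAt.comp_hasDerivAt s (hdL _).hasFDerivAt hc
    have h2 : HasDerivAt (Lam ∘ (fun u : ℝ => ((-1/12 + t, 1/6 + u) : ℝ × ℝ))) (deriv R s) s := by
      refine HasDerivAt.congr_of_eventuallyEq ((hRd s).const_add (1/3)) ?_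
      filter_upwards [hsev s hs] with u hu
      exact ha2 u t hu ht
    exact h1.unique h2
  have hB2 : ∀ s t, |s| < 1/8 → |t| < 1/100 →
      fderiv ℝ Lam (-1/12 + t, 1/6 + s) (1,0) = 0 := by
    intro s t hs ht
    have hc : HasDerivAt (fun u : ℝ => ((-1/12 + u, 1/6 + s) : ℝ × ℝ)) (1,0) t :=
      (hz0 t).prodMk (hasDerivAt_const t _)
    have h1 := HasFDerivAt.comp_hasDerivAt t (hdL _).hasFDerivAt hc
    have h2 : HasDerivAt (Lam ∘ (fun u : ℝ => ((-1/12 + u, 1/6 + s) : ℝ × ℝ))) 0 t := by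
      refine HasDerivAt.congr_of_eventuallyEq (hasDerivAt_const t (1/3 + R s)) ?_
      filter_upwards [htev t ht] with u hu
      exact ha2 s u hs hu
    exact h1.unique h2
  have hu0 : u = 0 := by
    refine arm_zero (ψ := fun s t => φ ![1/6 + s, -1/12 + t]) (R := R) (κ1 := 4/3) (κ2 := 2/3)
      hR hs0 hR0 (by norm_num) (fun s t hs ht => ?_) (fun s t hs ht => ?_)
    · have h1 := path0 hφdiff (1/6) (-1/12 + t) s
      rw [(hgr _).1] at h1
      simp only [Matrix.cons_val_zero, Matrix.cons_val_one] at h1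
      rw [hA1 s t hs ht, hA2 s t hs ht, mul_zero, add_zero] at h1
      exact h1
    · have h1 := path1 hφdiff (1/6 + s) (-1/12) t
      rw [(hgr _).2] at h1
      simp only [Matrix.cons_val_zero, Matrix.cons_val_one] at h1
      rw [hA1 s t hs ht, hA2 s t hs ht, mul_zero, add_zero] at h1
      exact h1
  have hv0 : v = 0 := by
    refine arm_zero (ψ := fun s t => φ ![-1/12 + t, 1/6 + s]) (R := R) (κ1 := 4/3) (κ2 := 2/3)
      hR hs0 hR0 (by norm_num) (fun s t hs ht => ?_) (fun s t hs ht => ?_)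
    · have h1 := path1 hφdiff (-1/12 + t) (1/6) s
      rw [(hgr _).2] at h1
      simp only [Matrix.cons_val_zero, Matrix.cons_val_one] at h1
      rw [hB1 s t hs ht, hB2 s t hs ht, mul_zero, zero_add] at h1
      exact h1
    · have h1 := path0 hφdiff (-1/12) (1/6 + s) t
      rw [(hgr _).1] at h1
      simp only [Matrix.cons_val_zero, Matrix.cons_val_one] at h1
      rw [hB1 s t hs ht, hB2 s t hs ht, mul_zero, zero_add] at h1
      exact h1
  have hφc : ∀ x, φ x = φ 0 := by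
    intro x
    refine is_const_of_fderiv_eq_zero hφdiff (fun y => ?_) x 0
    ext w
    have hw : w = w 0 • (Pi.single 0 1 : Fin 2 → ℝ) + w 1 • (Pi.single 1 1 : Fin 2 → ℝ) := by
      ext i
      fin_cases i <;> simp
    rw [hw, map_add, map_smul, map_smul, (hgr y).1, (hgr y).2, hu0, hv0]
    simp
  refine ⟨-2 * φ 0, fun x p => ?_⟩
  have hne : Lam (x 0, x 1) ≠ 0 := (h.pos _).ne'
  have e1 : b x = φ 0 / Lam (x 0, x 1) := by
    rw [← hφc x, hφ]
    field_simp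
  have e2 : k 0 1 x + k 1 0 x = b x := rfl
  have e3 : ∑ i : Fin 2, ∑ j : Fin 2, k i j x * p i * p j
      = k 0 0 x * p 0 ^ 2 + (k 0 1 x + k 1 0 x) * (p 0 * p 1) + k 1 1 x * p 1 ^ 2 := by
    simp only [Fin.sum_univ_two]
    ring
  rw [e3, e2, hau x, hcv x, hu0, hv0, e1, N2]
  field_simp
  ring

end Cub
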